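import Pool.Agent.helper20.LL.Defs

/-!
# LL-Arc: replace a piece of a path by another path (compare `replace` in `Pool.Agent.helper20.EC.Glue`)

Statement and plan: helper20; proof: helper11.

PROOF.  The new path is `c'`, `c' j = c j` for `j ≤ i`, `c' j = r (j - i)` for `i ≤ j ≤ i + L`, `c' j = c (j - L + e)` for `j ≥ i + L`,
its length is `n - e + L`.  Write it as `fun j => if j < i then c j else if j < i + L then r (j - i) else c (j - L + e)` (natural subtraction;
`j - L + e` is `j - (L - e)` without truncation problems since `j ≥ i + L ≥ L`).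
Steps: `j + 1 < i`, `j + 1 = i` (then `c' (j + 1) = r 0 = c i`), `i ≤ j`, `j + 1 < i + L`; `j + 1 = i + L` (then `c' (j + 1) = c (i + e) = r L`), `i + L ≤ j`.
End points: `c' 0 = c 0` also if `i = 0` (`c' 0 = r 0 = c 0`, `L ≥ 1`); `c' (n - e + L) = c n`.
Injectivity of the first coordinates: `r t` for `0 < t < L` is different from all `c j`, `j ≤ n` (`hav`); `r 0 = c i`; the rest from `hc.inj` and `hinj`.
The inner vertices avoid `F`: those of `c` and `r t`, `0 < t < L` by `hF`; `r 0 = c i` is an inner vertex of `c` if `0 < i` and `c' i` is an inner vertex of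
`c'` only if `0 < i`; note `i < n` because `e ≥ 1`.  In the same way `c (i + e)` is an inner vertex of `c` or the end point.
-/

set_option autoImplicit false

namespace Pool.Agent.helper20.LL

open Pool.Agent.Helper20.EC

variable {G : Type*} [Group G]

theorem arc_replace {s : ℕ → G} {u v : G × Bool} {F : Set G} {n : ℕ} {c r : ℕ → G × Bool}
    (hc : IsArc s n c) (h0 : c 0 = u) (h1 : c n = v) (hcF : ∀ i, 0 < i → i < n → (c i).1 ∉ F)
    {i e L : ℕ} (he : 1 ≤ e) (hL : 1 ≤ L) (hie : i + e ≤ n)
    (hr : ∀ t < L, ∃ a, stp s a (r t) = r (t + 1)) (hr0 : r 0 = c i) (hrL : r L = c (i + e))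
    (hinj : ∀ t ≤ L, ∀ t' ≤ L, (r t).1 = (r t').1 → t = t')
    (hav : ∀ t, 0 < t → t < L → ∀ j ≤ n, (r t).1 ≠ (c j).1)
    (hF : ∀ t, 0 < t → t < L → (r t).1 ∉ F) : Ar s u v F (n - e + L) := by
  let c' : ℕ → G × Bool := fun j =>
    if j < i then c j else if j < i + L then r (j - i) else c (j - L + e)
  have P1 : ∀ j, j ≤ i → c' j = c j := by
    intro j hj
    rcases Nat.lt_or_ge j i with h | h
    · simp only [c', if_pos h]
    · have hji : j = i := by omega
      subst hji
      simp only [c', if_neg (lt_irrefl j), if_pos (show j < j + L by omega), Nat.sub_self]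
      exact hr0
  have P2 : ∀ j, i ≤ j → j ≤ i + L → c' j = r (j - i) := by
    intro j hj hj2
    rcases Nat.lt_or_ge j (i + L) with h | h
    · simp only [c', if_neg (show ¬ j < i by omega), if_pos h]
    · have hji : j = i + L := by omega
      subst hji
      simp only [c', if_neg (show ¬ i + L < i by omega), if_neg (lt_irrefl (i + L))]
      rw [show i + L - L + e = i + e by omega, show i + L - i = L by omega]
      exact hrL.symm
  have P3 : ∀ j, i + L ≤ j → c' j = c (j - L + e) := by
    intro j hj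
    simp only [c', if_neg (show ¬ j < i by omega), if_neg (show ¬ j < i + L by omega)]
  -- classification of the indices
  have cls : ∀ j ≤ n - e + L,
      (∃ j0 ≤ n, c' j = c j0 ∧ ((j ≤ i ∧ j0 = j) ∨ (i + L ≤ j ∧ j0 = j - L + e))) ∨
      (i < j ∧ j < i + L ∧ c' j = r (j - i)) := by
    intro j hj
    rcases Nat.lt_or_ge i j with h | h
    · rcases Nat.lt_or_ge j (i + L) with h2 | h2
      · exact Or.inr ⟨h, h2, P2 j (by omega) (by omega)⟩
      · exact Or.inl ⟨j - L + e, by omega, P3 j h2, Or.inr ⟨h2, rfl⟩⟩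
    · exact Or.inl ⟨j, by omega, P1 j h, Or.inl ⟨h, rfl⟩⟩
  refine ⟨c', ⟨?_, ?_⟩, ?_, ?_, ?_⟩
  · intro j hj
    rcases Nat.lt_or_ge j i with h | h
    · obtain ⟨a, ha⟩ := hc.step j (by omega)
      exact ⟨a, by rw [P1 j (by omega), P1 (j + 1) (by omega)]; exact ha⟩
    · rcases Nat.lt_or_ge j (i + L) with h2 | h2
      · obtain ⟨a, ha⟩ := hr (j - i) (by omega)
        refine ⟨a, ?_⟩
        rw [P2 j h (by omega), P2 (j + 1) (by omega) (by omega), ha,
          show j - i + 1 = j + 1 - i by omega]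
      · obtain ⟨a, ha⟩ := hc.step (j - L + e) (by omega)
        refine ⟨a, ?_⟩
        rw [P3 j h2, P3 (j + 1) (by omega), ha, show j - L + e + 1 = j + 1 - L + e by omega]
  · intro a ha b hb hab
    rcases cls a ha with ⟨a0, ha0, hca, hta⟩ | ⟨ha1, ha2, hca⟩ <;>
      rcases cls b hb with ⟨b0, hb0, hcb, htb⟩ | ⟨hb1, hb2, hcb⟩
    · rw [hca, hcb] at hab
      have h1 := hc.inj a0 ha0 b0 hb0 hab
      rcases hta with ⟨h2, h3⟩ | ⟨h2, h3⟩ <;> rcases htb with ⟨h4, h5⟩ | ⟨h4, h5⟩ <;> omega
    · rw [hca, hcb] at hab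
      exact absurd hab.symm (hav (b - i) (by omega) (by omega) a0 ha0)
    · rw [hca, hcb] at hab
      exact absurd hab (hav (a - i) (by omega) (by omega) b0 hb0)
    · rw [hca, hcb] at hab
      have h1 := hinj (a - i) (by omega) (b - i) (by omega) hab
      omega
  · rw [P1 0 (Nat.zero_le i)]
    exact h0
  · rw [P3 (n - e + L) (by omega), show n - e + L - L + e = n by omega]
    exact h1
  · intro j hj0 hjn
    rcases cls j (by omega) with ⟨j0, hj0', hcj, htj⟩ | ⟨hj1, hj2, hcj⟩
    · rw [hcj]
      rcases htj with ⟨h2, h3⟩ | ⟨h2, h3⟩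
      · exact hcF j0 (by omega) (by omega)
      · exact hcF j0 (by omega) (by omega)
    · rw [hcj]
      exact hF (j - i) (by omega) (by omega)

end Pool.Agent.helper20.LL
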