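import Pool.Agent.helper20.LL.Arc

/-!
# LL-ArcA: one edge of a path is replaced by a copy of the closed word (compare `stepA` in `Pool.Agent.helper20.EC.Glue`)
(proofs: helper41)

PROOF.  Let `c` be the path, `1 ≤ n`, and let `x` be the letter with `stp s x (c 0) = c 1`.  One of the two vertices `c 0`, `c 1` has the side `β`
(`stp_snd`: the sides alternate); call it `z` and the other one `z'`; `stp s x z = z'` (`stp_stp`).  For `q : ℕ` let `P q i = pos s W (fam1 x x q) z i` (`Word.pos`).
`P q 0 = z`, `P q 1 = z'` (`pos_one`), `P q (2 m) = z` (`pos_len`), `P q` is a walk (`pos_succ`) with different first coordinates for the indices `< 2 m` (`pos_inj`).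
Exactly as in the proof of `stepA` (`finite_bad`, `pos_ne`, `fam1_mono`, `fam1_dis`) there is `q` such that `(P q i).1` is for `2 ≤ i < 2 m` not in the finite set
`F ∪ {(c j).1 | j ≤ n}`.  If `z = c 1` then take `r t = P q (t + 1)` and if `z = c 0` then take `r t = P q (2 m - t)`, `L = 2 m - 1`, `i = 0`, `e = 1` in
`arc_replace` (in the second case steps are reversed by `stp_stp`).  `n - 1 + (2 m - 1) = n + (2 m - 2)`.
-/

set_option autoImplicit false

namespace Pool.Agent.helper20.LL

open Pool.Agent.Helper20.EC Pool.Agent.Helper20.EC.Word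

variable {G : Type*} [Group G]

theorem ArcA_loop {s : ℕ → G} {m : ℕ} {W : List ℕ} {β : Bool} {ζ : ℕ} (hW : Word s m W β ζ)
    (hH : Homog s) (hm : Girth s m) (h2 : 2 ≤ m) {F : Set G} (hF : F.Finite) {z : G × Bool}
    (hz : z.2 = β) (x : ℕ) : ∃ P : ℕ → G × Bool, P 1 = stp s x z ∧ P (2 * m) = z ∧
      (∀ i < 2 * m, ∃ a, stp s a (P i) = P (i + 1)) ∧
      (∀ i, 1 ≤ i → i ≤ 2 * m → ∀ j, 1 ≤ j → j ≤ 2 * m → (P i).1 = (P j).1 → i = j) ∧
      ∀ i, 2 ≤ i → i < 2 * m → (P i).1 ∉ F := by
  have hinj : ∀ i, 2 ≤ i → i < 2 * m →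
      Function.Injective (fun q => (pos s W (fam1 x x q) z i).1) := by
    intro i hi hi' q q' hqq
    by_contra hne
    exact hW.pos_ne hH hm (fam1_mono le_rfl q) (fam1_mono le_rfl q') rfl
      (fun a ha b => fam1_dis le_rfl hne a ha b) z hz i hi hi' hqq
  obtain ⟨q, hq⟩ := (finite_bad (f := fun i q => (pos s W (fam1 x x q) z i).1) hinj
    hF).exists_notMem
  have hφ : StrictMono (fam1 x x q) := fam1_mono le_rfl q
  have hlen : pos s W (fam1 x x q) z (2 * m) = z := hW.pos_len hH hφ _ hz
  have key : ∀ i, i ≤ 2 * m → ∃ i' < 2 * m, (i = i' ∨ (i = 2 * m ∧ i' = 0)) ∧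
      pos s W (fam1 x x q) z i = pos s W (fam1 x x q) z i' := by
    intro i hi
    by_cases h : i < 2 * m
    · exact ⟨i, h, Or.inl rfl, rfl⟩
    · have h' : i = 2 * m := by omega
      refine ⟨0, by omega, Or.inr ⟨h', rfl⟩, ?_⟩
      rw [h', hlen, pos_zero]
  refine ⟨pos s W (fam1 x x q) z, ?_, hlen, fun i hi => hW.pos_succ _ _ _ hi, ?_, ?_⟩
  · rw [hW.pos_one]
    rfl
  · intro i hi hi' j hj hj' h
    obtain ⟨a, ha, ha', ea⟩ := key i hi'
    obtain ⟨b, hb, hb', eb⟩ := key j hj'
    rw [ea, eb] at h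
    have := hW.pos_inj hH hm h2 hφ _ hz _ _ ha hb h
    omega
  · intro i hi hi' h
    exact hq ⟨i, hi, hi', h⟩

theorem arc_stepA {s : ℕ → G} {m : ℕ} {W : List ℕ} {β : Bool} {ζ : ℕ} (hW : Word s m W β ζ)
    (hH : Homog s) (hm : Girth s m) (h2 : 2 ≤ m) {u v : G × Bool} {F : Set G} (hF : F.Finite)
    {n : ℕ} (hn : 1 ≤ n) (h : Ar s u v F n) : Ar s u v F (n + (2 * m - 2)) := by
  obtain ⟨c, hc, h0, h1, hcF⟩ := h
  obtain ⟨x, hx⟩ := hc.step 0 (by omega)
  rw [zero_add] at hx
  have hx' : stp s x (c 1) = c 0 := by rw [← hx, stp_stp]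
  have hF' : (F ∪ (fun i => (c i).1) '' Set.Iic n).Finite :=
    hF.union ((Set.finite_Iic n).image _)
  have hlen : n - 1 + (2 * m - 1) = n + (2 * m - 2) := by omega
  by_cases hb : (c 1).2 = β
  · obtain ⟨P, hP1, hP2, hPs, hPi, hPF⟩ := ArcA_loop hW hH hm h2 hF' hb x
    have := arc_replace (r := fun t => P (t + 1)) (e := 1) (i := 0) (L := 2 * m - 1)
      hc h0 h1 hcF le_rfl (by omega) (by omega)
      (fun t ht => hPs (t + 1) (by omega))
      (by
        show P (0 + 1) = c 0
        rw [zero_add, hP1, hx'])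
      (by
        show P (2 * m - 1 + 1) = c (0 + 1)
        rw [show 2 * m - 1 + 1 = 2 * m by omega, hP2])
      (by
        intro t ht t' ht' h
        have := hPi (t + 1) (by omega) (by omega) (t' + 1) (by omega) (by omega) h
        omega)
      (by
        intro t ht ht' j hj h
        exact hPF (t + 1) (by omega) (by omega) (Or.inr ⟨j, hj, h.symm⟩))
      (by
        intro t ht ht' h
        exact hPF (t + 1) (by omega) (by omega) (Or.inl h))
    rwa [hlen] at this
  · have hb' : (c 0).2 = β := by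
      have e := congrArg Prod.snd hx
      rw [stp_snd] at e
      rw [← e] at hb
      cases hh : (c 0).2 <;> cases β <;> simp_all
    obtain ⟨P, hP1, hP2, hPs, hPi, hPF⟩ := ArcA_loop hW hH hm h2 hF' hb' x
    have := arc_replace (r := fun t => P (2 * m - t)) (e := 1) (i := 0) (L := 2 * m - 1)
      hc h0 h1 hcF le_rfl (by omega) (by omega)
      (by
        intro t ht
        obtain ⟨a, ha⟩ := hPs (2 * m - (t + 1)) (by omega)
        refine ⟨a, ?_⟩
        show stp s a (P (2 * m - t)) = P (2 * m - (t + 1))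
        rw [show 2 * m - (t + 1) + 1 = 2 * m - t by omega] at ha
        rw [← ha, stp_stp])
      (by
        show P (2 * m - 0) = c 0
        rw [Nat.sub_zero, hP2])
      (by
        show P (2 * m - (2 * m - 1)) = c (0 + 1)
        rw [show 2 * m - (2 * m - 1) = 1 by omega, hP1, hx])
      (by
        intro t ht t' ht' h
        have := hPi (2 * m - t) (by omega) (by omega) (2 * m - t') (by omega) (by omega) h
        omega)
      (by
        intro t ht ht' j hj h
        exact hPF (2 * m - t) (by omega) (by omega) (Or.inr ⟨j, hj, h.symm⟩))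
      (by
        intro t ht ht' h
        exact hPF (2 * m - t) (by omega) (by omega) (Or.inl h))
    rwa [hlen] at this

end Pool.Agent.helper20.LL
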