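import Pool.Agent.helper20.LL.Arc

/-!
# LL-ArcB: two edges of a path are replaced by two copies of the closed word (compare `stepB` in `Pool.Agent.helper20.EC.Glue`)

PROOF.  Let `c` be the path, `3 ≤ n`.  One of the vertices `c 1`, `c 2` has the side `β` (`stp_snd`: the sides alternate); let it be `z = c i`, `i = 1` or `2`; then
`1 ≤ i`, `i + 1 ≤ n`.  Let `x`, `y` be the letters with `stp s x z = c (i - 1)` and `stp s y z = c (i + 1)` (`stp_stp`); `x ≠ y` since `c (i - 1) ≠ c (i + 1)`.
From here on copy the proof of `stepB` in `Pool.Agent.helper20.EC.Glue` with `v := z` and the finite set `F ∪ {(c j).1 | j ≤ n}`: `P = pos s W (fam1 x B q) z`,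
`Q = pos s W (fam2 y B ζ q) z`, `B = max x y`; `r t = if t < 2 m - 1 then P (t + 1) else Q (4 m - 3 - t)`, `L = 4 m - 4`; `r 0 = P 1 = c (i - 1)`, `r L = Q 1 = c (i + 1)`,
and apply `arc_replace` with `i - 1`, `e = 2`.  `n - 2 + (4 m - 4) = n + (4 m - 6)`.
-/

set_option autoImplicit false

namespace Pool.Agent.helper20.LL

open Pool.Agent.Helper20.EC Pool.Agent.Helper20.EC.Word

variable {G : Type*} [Group G]

theorem arc_stepB {s : ℕ → G} {m : ℕ} {W : List ℕ} {β : Bool} {ζ : ℕ} (hW : Word s m W β ζ)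
    (hH : Homog s) (hm : Girth s m) (h2 : 2 ≤ m) {u v : G × Bool} {F : Set G} (hF : F.Finite)
    {n : ℕ} (hn : 3 ≤ n) (h : Ar s u v F n) : Ar s u v F (n + (4 * m - 6)) := by
  obtain ⟨c, hc, h0, h1, hcF⟩ := h
  obtain ⟨i, hi1, hi2, hvb⟩ : ∃ i, 1 ≤ i ∧ i ≤ 2 ∧ (c i).2 = β := by
    obtain ⟨a, ha⟩ := hc.step 1 (by omega)
    have h3 : (c (1 + 1)).2 = !(c 1).2 := by rw [← ha, stp_snd]
    by_cases hb : (c 1).2 = β
    · exact ⟨1, le_rfl, by omega, hb⟩
    · refine ⟨1 + 1, by omega, le_rfl, ?_⟩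
      rw [h3]
      cases hh : (c 1).2 <;> cases β <;> simp_all
  obtain ⟨y, hy⟩ := hc.step i (by omega)
  obtain ⟨x, hx⟩ := hc.step (i - 1) (by omega)
  rw [show i - 1 + 1 = i by omega] at hx
  set z := c i with hz
  have hx' : stp s x z = c (i - 1) := by rw [← hx, stp_stp]
  have hxy : x ≠ y := by
    intro e
    subst e
    have h1 : c (i - 1) = c (i + 1) := by rw [← hx', hy]
    have := hc.inj (i - 1) (by omega) (i + 1) (by omega) (by rw [h1])
    omega
  have hF' : (F ∪ (fun j => (c j).1) '' Set.Iic n).Finite :=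
    hF.union ((Set.finite_Iic n).image _)
  have hxB : x ≤ max x y := le_max_left _ _
  have hyB : y ≤ max x y := le_max_right _ _
  set B := max x y with hB
  have hinj1 : ∀ i, 2 ≤ i → i < 2 * m →
      Function.Injective (fun q => (pos s W (fam1 x B q) z i).1) := by
    intro i hi hi' q q' hqq
    by_contra hne
    exact hW.pos_ne hH hm (fam1_mono hxB q) (fam1_mono hxB q') rfl
      (fun a ha b => fam1_dis hxB hne a ha b) z hvb i hi hi' hqq
  have hinj2 : ∀ i, 2 ≤ i → i < 2 * m →
      Function.Injective (fun q => (pos s W (fam2 y B ζ q) z i).1) := by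
    intro i hi hi' q q' hqq
    by_contra hne
    exact hW.pos_ne hH hm (fam2_mono hyB ζ q) (fam2_mono hyB ζ q') rfl
      (fun a ha b => fam2_dis hyB hne a ha b) z hvb i hi hi' hqq
  obtain ⟨q, hq⟩ := ((finite_bad (f := fun i q => (pos s W (fam1 x B q) z i).1) hinj1 hF').union
    (finite_bad (f := fun i q => (pos s W (fam2 y B ζ q) z i).1) hinj2 hF')).exists_notMem
  rw [Set.mem_union, not_or] at hq
  obtain ⟨hq1, hq2⟩ := hq
  have hφ : StrictMono (fam1 x B q) := fam1_mono hxB q
  have hψ : StrictMono (fam2 y B ζ q) := fam2_mono hyB ζ q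
  have hζ : fam1 x B q ζ = fam2 y B ζ q ζ := by
    simp [fam1, fam2, hW.ne]
  set P := pos s W (fam1 x B q) z with hP
  set Q := pos s W (fam2 y B ζ q) z with hQ
  have hlast : P (2 * m - 1) = Q (2 * m - 1) := by
    rw [hP, hQ, hW.pos_last hH h2 hφ z hvb, hW.pos_last hH h2 hψ z hvb, hζ]
  have hcross : ∀ i j, 1 ≤ i → i ≤ 2 * m - 1 → 1 ≤ j → j ≤ 2 * m - 2 → (P i).1 ≠ (Q j).1 :=
    fun i j hi hi' hj hj' => hW.pos_cross hH hm h2 hφ hψ hζ
      (fun a b => fam12 hxB hyB hxy q a b) z hvb i j hi hi' hj hj'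
  have := arc_replace (r := fun t => if t < 2 * m - 1 then P (t + 1) else Q (4 * m - 3 - t))
    (i := i - 1) (e := 2) (L := 4 * m - 4) hc h0 h1 hcF (by omega) (by omega) (by omega)
    (by
      intro t ht
      by_cases h1 : t + 1 < 2 * m - 1
      · obtain ⟨a, ha⟩ := hW.pos_succ (fam1 x B q) z (t + 1) (by omega)
        refine ⟨a, ?_⟩
        simp only [if_pos h1, if_pos (show t < 2 * m - 1 by omega)]
        exact ha
      by_cases h3 : t < 2 * m - 1
      · obtain ⟨a, ha⟩ := hW.pos_succ (fam2 y B ζ q) z (2 * m - 2) (by omega)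
        refine ⟨a, ?_⟩
        simp only [if_neg h1, if_pos h3]
        rw [show t + 1 = 2 * m - 1 by omega, hlast, show 4 * m - 3 - (2 * m - 1) = 2 * m - 2 by omega]
        rw [show 2 * m - 2 + 1 = 2 * m - 1 by omega] at ha
        rw [hQ, ← ha, stp_stp]
      · obtain ⟨a, ha⟩ := hW.pos_succ (fam2 y B ζ q) z (4 * m - 3 - (t + 1)) (by omega)
        refine ⟨a, ?_⟩
        simp only [if_neg h1, if_neg h3]
        rw [show 4 * m - 3 - (t + 1) + 1 = 4 * m - 3 - t by omega] at ha
        rw [hQ, ← ha, stp_stp])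
    (by
      show (if 0 < 2 * m - 1 then P (0 + 1) else Q (4 * m - 3 - 0)) = c (i - 1)
      rw [if_pos (by omega), zero_add, hP, hW.pos_one]
      exact hx')
    (by
      show (if 4 * m - 4 < 2 * m - 1 then P (4 * m - 4 + 1) else Q (4 * m - 3 - (4 * m - 4))) =
        c (i - 1 + 2)
      rw [if_neg (by omega), show 4 * m - 3 - (4 * m - 4) = 1 by omega, hQ, hW.pos_one,
        show i - 1 + 2 = i + 1 by omega, ← hy]
      simp [fam2])
    (by
      intro i hi j hj h
      by_cases h1 : i < 2 * m - 1 <;> by_cases h3 : j < 2 * m - 1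
      · simp only [if_pos h1, if_pos h3] at h
        have := hW.pos_inj hH hm h2 hφ _ hvb _ _ (by omega) (by omega) h
        omega
      · simp only [if_pos h1, if_neg h3] at h
        exact absurd h (hcross _ _ (by omega) (by omega) (by omega) (by omega))
      · simp only [if_neg h1, if_pos h3] at h
        exact absurd h.symm (hcross _ _ (by omega) (by omega) (by omega) (by omega))
      · simp only [if_neg h1, if_neg h3] at h
        have := hW.pos_inj hH hm h2 hψ _ hvb _ _ (by omega) (by omega) h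
        omega)
    (by
      intro t ht ht' j hj h
      by_cases h1 : t < 2 * m - 1
      · simp only [if_pos h1] at h
        exact hq1 ⟨t + 1, by omega, by omega, Or.inr ⟨j, hj, h.symm⟩⟩
      · simp only [if_neg h1] at h
        exact hq2 ⟨4 * m - 3 - t, by omega, by omega, Or.inr ⟨j, hj, h.symm⟩⟩)
    (by
      intro t ht ht' h
      by_cases h1 : t < 2 * m - 1
      · simp only [if_pos h1] at h
        exact hq1 ⟨t + 1, by omega, by omega, Or.inl h⟩
      · simp only [if_neg h1] at h
        exact hq2 ⟨4 * m - 3 - t, by omega, by omega, Or.inl h⟩)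
  rwa [show n - 2 + (4 * m - 4) = n + (4 * m - 6) by omega] at this

end Pool.Agent.helper20.LL
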