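import Pool.Agent.helper20.LL.ArcA
import Pool.Agent.helper20.LL.ArcB

/-!
# LL-ArcAll: paths of all large odd lengths between the end points of an edge (compare `St_all`, `St_of_word` in `Pool.Agent.helper20.EC`)

PROOF.  `exists_word` (in `Pool.Agent.helper20.EC.Norm`) gives `2 ≤ m ≤ L`, `Girth s m` and `Word s m W β ζ`.  The path of length `1` from `(g, false)` to
`(g * s a, true)`: `s a ≠ 1`, because otherwise `homog_pair` (shift the letters by one, see the beginning of the proof of `odd_closed` in `EC.Core`) gives `s (a + 1) = 1`, and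
`[a, a + 1]` is a closed reduced word of length `2 < 2 m`.  So `Ar s (g, false) (g * s a, true) F 1` (no inner vertices).  By `arc_stepA` once, then `A` times `arc_stepA` and `b` times
`arc_stepB` one gets the lengths `1 + (2 m - 2) + A (2 m - 2) + b (4 m - 6) = 2 m - 1 + A (2 m - 2) + b (4 m - 6)`.  The arithmetic at the end of `St_all` (copy it): every `k` with
`m + (m - 2) (2 m - 3) ≤ k` has `2 k = 2 m + A (2 m - 2) + b (4 m - 6)`, and `2 L ^ 2 ≤ k` is enough (end of `St_of_word`).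
-/

set_option autoImplicit false

namespace Pool.Agent.helper20.LL

open Pool.Agent.Helper20.EC Pool.Agent.Helper20.EC.Word

variable {G : Type*} [Group G]

private theorem ArcAll_one {s : ℕ → G} {m : ℕ} (hH : Homog s) (hm : Girth s m) (h2 : 2 ≤ m)
    (F : Set G) (g : G) (a : ℕ) : Ar s (g, false) (g * s a, true) F 1 := by
  have hsa : s a ≠ 1 := by
    intro h
    have := odd_closed hH hm h2 [a] (by simp) ((1 : G), false) (by simp [stp, h]) (by simp)
    simp at this
    omega
  refine ⟨fun i => if i = 0 then (g, false) else (g * s a, true), ⟨?_, ?_⟩, rfl, rfl, ?_⟩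
  · intro i hi
    obtain rfl : i = 0 := by omega
    exact ⟨a, by simp [stp]⟩
  · intro i hi j hj h
    by_cases hi0 : i = 0
    · by_cases hj0 : j = 0
      · rw [hi0, hj0]
      · exfalso
        simp only [hi0, hj0, if_true, if_false] at h
        exact hsa (by simpa using h)
    · by_cases hj0 : j = 0
      · exfalso
        simp only [hi0, hj0, if_true, if_false] at h
        exact hsa (by simpa using h)
      · omega
  · intro i hi hi'
    omega

private theorem ArcAll_word {s : ℕ → G} {m : ℕ} {W : List ℕ} {β : Bool} {ζ : ℕ}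
    (hW : Word s m W β ζ) (hH : Homog s) (hm : Girth s m) (h2 : 2 ≤ m) (k : ℕ)
    (hk : m + (m - 2) * (2 * m - 3) ≤ k) (F : Set G) (hF : F.Finite) (g : G) (x : ℕ) :
    Ar s (g, false) (g * s x, true) F (2 * k - 1) := by
  have h0 : Ar s (g, false) (g * s x, true) F (2 * m - 1) := by
    have := arc_stepA hW hH hm h2 hF le_rfl (ArcAll_one hH hm h2 F g x)
    rwa [show 1 + (2 * m - 2) = 2 * m - 1 by omega] at this
  have h1 : ∀ a, Ar s (g, false) (g * s x, true) F (2 * m - 1 + a * (2 * m - 2)) := by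
    intro a
    induction a with
    | zero => simpa using h0
    | succ a ih =>
      have := arc_stepA hW hH hm h2 hF (by omega) ih
      rwa [show 2 * m - 1 + a * (2 * m - 2) + (2 * m - 2) =
        2 * m - 1 + (a + 1) * (2 * m - 2) by ring] at this
  have h3 : ∀ b a, Ar s (g, false) (g * s x, true) F
      (2 * m - 1 + a * (2 * m - 2) + b * (4 * m - 6)) := by
    intro b a
    induction b with
    | zero => simpa using h1 a
    | succ b ih =>
      have := arc_stepB hW hH hm h2 hF (by omega) ih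
      rwa [show 2 * m - 1 + a * (2 * m - 2) + b * (4 * m - 6) + (4 * m - 6) =
        2 * m - 1 + a * (2 * m - 2) + (b + 1) * (4 * m - 6) by ring] at this
  obtain ⟨M, rfl⟩ : ∃ M, m = M + 2 := ⟨m - 2, by omega⟩
  obtain ⟨K, rfl⟩ : ∃ K, k = M + 2 + K := ⟨k - (M + 2), by
    have : M + 2 ≤ k := le_trans (Nat.le_add_right _ _) hk
    omega⟩
  have hK : M * (2 * M + 1) ≤ K := by
    have e : (M + 2 - 2) * (2 * (M + 2) - 3) = M * (2 * M + 1) := by
      rw [show M + 2 - 2 = M by omega, show 2 * (M + 2) - 3 = 2 * M + 1 by omega]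
    rw [e] at hk
    omega
  obtain ⟨b, hb, c, hc⟩ : ∃ b, b ≤ M ∧ ∃ c, K + b = (M + 1) * c := by
    refine ⟨M - (K + M) % (M + 1), by omega, ?_⟩
    have h4 : (K + M) % (M + 1) < M + 1 := Nat.mod_lt _ (by omega)
    obtain ⟨c, hc⟩ := Nat.dvd_sub_mod (n := M + 1) (K + M)
    exact ⟨c, by rw [← hc]; omega⟩
  have hcb : 2 * b ≤ c := by
    by_contra hcon
    push Not at hcon
    have h5 : c + 1 ≤ 2 * b := hcon
    have h6 : (M + 1) * (c + 1) ≤ (M + 1) * (2 * b) := Nat.mul_le_mul_left _ h5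
    have h7 : b * (2 * M + 1) ≤ M * (2 * M + 1) := Nat.mul_le_mul_right _ hb
    nlinarith
  obtain ⟨a, rfl⟩ : ∃ a, c = 2 * b + a := ⟨c - 2 * b, by omega⟩
  have := h3 b a
  rw [show 2 * (M + 2) - 2 = 2 * M + 2 by omega, show 4 * (M + 2) - 6 = 4 * M + 2 by omega] at this
  have e1 : 2 * (M + 2) + a * (2 * M + 2) + b * (4 * M + 2) = 2 * (M + 2 + K) := by
    nlinarith
  rwa [show 2 * (M + 2) - 1 + a * (2 * M + 2) + b * (4 * M + 2) = 2 * (M + 2 + K) - 1 by
    omega] at this

theorem arc_all {s : ℕ → G} (hH : Homog s) (h01 : s 0 ≠ s 1) {L : ℕ} (l0 : List ℕ)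
    (hne : l0 ≠ []) (hc : l0.IsChain (· ≠ ·)) (hlen : l0.length ≤ 2 * L) (v0 : G × Bool)
    (hcl : run s l0 v0 = v0) (k : ℕ) (hk : 2 * L ^ 2 ≤ k) (F : Set G) (hF : F.Finite) (g : G)
    (a : ℕ) : Ar s (g, false) (g * s a, true) F (2 * k - 1) := by
  obtain ⟨m, W, β, ζ, h2, hmL, hm, hW⟩ := exists_word hH h01 l0 hne hc hlen v0 hcl
  refine ArcAll_word hW hH hm h2 k ?_ F hF g a
  obtain ⟨M, rfl⟩ : ∃ M, m = M + 2 := ⟨m - 2, by omega⟩
  obtain ⟨t, rfl⟩ : ∃ t, L = M + 2 + t := ⟨L - (M + 2), by omega⟩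
  rw [show M + 2 - 2 = M by omega, show 2 * (M + 2) - 3 = 2 * M + 1 by omega]
  refine le_trans ?_ hk
  nlinarith

end Pool.Agent.helper20.LL
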