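import Pool.Agent.helper20.LL.Fam

/-!
# LL-CoreArcs: two families of arcs in a core

Proved by helper59.

PROOF.  `z₀ ∈ Z`; `w₀ ∈ W` adjacent to `z₀` (`hC.zw`); `z₁ ∈ Z` adjacent to `w₀`, `z₁ ≠ z₀` (`hC.wz` with `F = {z₀}`); `w₁ ∈ W` adjacent to `z₁` in another branch than `w₀`
(`hC.zw` with `F = {par^[h-1] w₀}`).  `Fb = {par^[h-1] w₀, par^[h-1] w₁}`, `Fz = {z₀, z₁}`.  `q false = z₀` if `a false + h` is odd, `w₀` if it is even; `q true = z₁` or `w₁` according to the parity of `a true + h`.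
Then `Start par h (a β) W Z Fb Fz (q β)` for both `β`.  `q false ≠ q true`: `z₀ ≠ z₁`, `w₀ ≠ w₁` (different branches), and vertices of `Z` and `W` have different levels.
`fam` for `q false` with `Fb`, `Fz` gives `I false` and `Fb₁`, `Fz₁`; `fam` for `q true` with `Fb₁`, `Fz₁` gives `I true` (`Start` is monotone).
`dis`: for the same `β` from `fam`; for `β = false`, `γ = true`: the vertices of `I false i` are `Used` for `Fb₁`, `Fz₁`, those of `I true j` are `Free` for them (`free_not_used`).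
`qI`: all inner vertices are `Free` for `Fb`, `Fz` (smaller sets: `Free` is antitone), `q β` is not (`start_free` for `Fb`, `Fz`).
`pI`: `p_free` (`W` is nonempty).  `qp`: `lev p = j - h < j ≤ lev (q β)`.
The bound: `4 + D (2 a₀ + 1) + 3 a₀ + 10 ≤ M` and `4 + 2 D a₀ + D (2 a₁ + 1) + 3 a₁ + 10 ≤ M` for `a₀ = a false`, `a₁ = a true`.
-/

set_option autoImplicit false

namespace Pool.Agent.helper20.LL

open Pool.Agent.helper20.AL

variable {α V : Type*} [Group V] {B : SimpleGraph α} {φ : α → α → V} {lev : α → ℕ} {par : α → α}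

private theorem CoreArcs_free_anti {m j : ℕ} {Fb Fz Fb' Fz' : Finset α} (hb : Fb ⊆ Fb')
    (hz : Fz ⊆ Fz') {x : α} (hx : Free lev par m j Fb' Fz' x) : Free lev par m j Fb Fz x := by
  rcases hx with ⟨h1, h2, h3⟩ | ⟨h1, h2⟩
  · exact Or.inl ⟨h1, h2, fun h => h3 (hb h)⟩
  · exact Or.inr ⟨h1, fun h => h2 (hz h)⟩

private theorem CoreArcs_start_mono {h a : ℕ} {W Z Fb Fz Fb' Fz' : Finset α} (hb : Fb ⊆ Fb')
    (hz : Fz ⊆ Fz') {q : α} (hq : Start par h a W Z Fb Fz q) : Start par h a W Z Fb' Fz' q := by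
  rcases hq with ⟨h1, h2, h3⟩ | ⟨h1, h2, h3⟩
  · exact Or.inl ⟨h1, hz h2, h3⟩
  · exact Or.inr ⟨h1, hb h2, h3⟩

private theorem CoreArcs_start {h : ℕ} {W Z Fb Fz : Finset α} {z w : α} (hz : z ∈ Z) (hw : w ∈ W)
    (hzF : z ∈ Fz) (hwF : par^[h - 1] w ∈ Fb) (a : ℕ) :
    ∃ q, Start par h a W Z Fb Fz q ∧ (q = z ∨ q = w) := by
  rcases Nat.mod_two_eq_zero_or_one (a + h) with h0 | h0
  · exact ⟨w, Or.inr ⟨hw, hwF, h0⟩, Or.inr rfl⟩
  · exact ⟨z, Or.inl ⟨hz, hzF, h0⟩, Or.inl rfl⟩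

theorem core_arcs (hT : TreeOn B φ lev par) {h j : ℕ} {p : α} {W Z : Finset α} {M : ℕ}
    (h1 : 1 ≤ h) (hj : h ≤ j) (hW : ∀ w ∈ W, lev w = j ∧ par^[h] w = p)
    (hZ : ∀ z ∈ Z, lev z = j + 1) (hne : Z.Nonempty) (hC : Core B.Adj (par^[h - 1]) φ W Z M)
    (a : Bool → ℕ) (ha : ∀ β, h + 2 ≤ a β) (D : ℕ)
    (hM : (D + 2) * (2 * a false + 2 * a true + 2) + 20 ≤ M) :
    ∃ (q : Bool → α) (I : Bool → ℕ → List α), Arcs B φ p a D q I := by
  classical
  have e1 : (D + 2) * (2 * a false + 2 * a true + 2) =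
      2 * (D * a false) + 2 * (D * a true) + 2 * D + 4 * a false + 4 * a true + 4 := by ring
  have e2 : D * (2 * a false + 1) = 2 * (D * a false) + D := by ring
  have e3 : D * (2 * a true + 1) = 2 * (D * a true) + D := by ring
  obtain ⟨z₀, hz₀⟩ := hne
  obtain ⟨w₀, hw₀, -, -, -⟩ := hC.zw z₀ hz₀ ∅ ∅ (by simp only [Finset.card_empty]; omega)
  obtain ⟨z₁, hz₁, -, hz1⟩ := hC.wz w₀ hw₀ {z₀} (by simp only [Finset.card_singleton]; omega)
  have hzne : z₁ ≠ z₀ := fun e => hz1 (Finset.mem_singleton.2 e)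
  obtain ⟨w₁, hw₁, -, hb1, -⟩ := hC.zw z₁ hz₁ {par^[h - 1] w₀} ∅
    (by simp only [Finset.card_singleton, Finset.card_empty]; omega)
  have hwne : w₁ ≠ w₀ := fun e => hb1 (by rw [e]; exact Finset.mem_singleton_self _)
  obtain ⟨Fb, hFb⟩ : ∃ Fb : Finset α, Fb = {par^[h - 1] w₀, par^[h - 1] w₁} := ⟨_, rfl⟩
  obtain ⟨Fz, hFz⟩ : ∃ Fz : Finset α, Fz = {z₀, z₁} := ⟨_, rfl⟩
  have cFb : Fb.card ≤ 2 := by rw [hFb]; exact Finset.card_le_two
  have cFz : Fz.card ≤ 2 := by rw [hFz]; exact Finset.card_le_two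
  obtain ⟨q0, hq0, hq0'⟩ := CoreArcs_start (par := par) (h := h) (Fb := Fb) (Fz := Fz) hz₀ hw₀
    (by rw [hFz]; simp) (by rw [hFb]; simp) (a false)
  obtain ⟨q1, hq1, hq1'⟩ := CoreArcs_start (par := par) (h := h) (Fb := Fb) (Fz := Fz) hz₁ hw₁
    (by rw [hFz]; simp) (by rw [hFb]; simp) (a true)
  have hlz : ∀ z ∈ Z, ∀ w ∈ W, z ≠ w := by
    intro z hz w hw he
    have k1 := hZ z hz
    have k2 := (hW w hw).1
    rw [he] at k1
    omega
  have hqq : q0 ≠ q1 := by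
    rcases hq0' with rfl | rfl <;> rcases hq1' with rfl | rfl
    · exact fun e => hzne e.symm
    · exact hlz _ hz₀ _ hw₁
    · exact fun e => hlz _ hz₁ _ hw₀ e.symm
    · exact fun e => hwne e.symm
  obtain ⟨I0, Fb1, Fz1, l0, c0, n0, ho0, d0, b0, z0, cb0, cz0, fu0⟩ :=
    fam hT h1 hj hW hZ hC (ha false) Fb Fz q0 hq0 D (by omega)
  obtain ⟨I1, Fb2, Fz2, l1, c1, n1, ho1, d1, b1, z1, cb1, cz1, fu1⟩ :=
    fam hT h1 hj hW hZ hC (ha true) Fb1 Fz1 q1 (CoreArcs_start_mono b0 z0 hq1) D (by omega)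
  have hWne : W.Nonempty := ⟨w₀, hw₀⟩
  have fr0 : ∀ i < D, ∀ x ∈ I0 i, Free lev par (j - h) j Fb Fz x := fun i hi x hx =>
    (fu0 i hi x hx).1
  have fr1 : ∀ i < D, ∀ x ∈ I1 i, Free lev par (j - h) j Fb Fz x := fun i hi x hx =>
    CoreArcs_free_anti b0 z0 (fu1 i hi x hx).1
  have d01 : ∀ i < D, ∀ i' < D, ∀ x ∈ I0 i, x ∉ I1 i' := by
    intro i hi i' hi' x hx hx'
    exact free_not_used (Finset.Subset.refl _) (Finset.Subset.refl _) (fu1 i' hi' x hx').1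
      (fu0 i hi x hx).2
  have sf0 : ¬ Free lev par (j - h) j Fb Fz q0 := start_free h1 hj hW hZ hq0
  have sf1 : ¬ Free lev par (j - h) j Fb Fz q1 := start_free h1 hj hW hZ hq1
  obtain ⟨lp, pf⟩ := p_free (Fb := Fb) (Fz := Fz) hT hj hW hWne
  have hlev : ∀ z w, z ∈ Z → w ∈ W → ∀ q, (q = z ∨ q = w) → q ≠ p := by
    intro z w hz hw q hq he
    rcases hq with rfl | rfl
    · have k1 := hZ _ hz
      rw [he] at k1
      omega
    · have k1 := (hW _ hw).1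
      rw [he] at k1
      omega
  refine ⟨fun β => cond β q1 q0, fun β => cond β I1 I0, ?_, ?_, ?_, ?_, ?_, ?_, ?_, ?_, ?_⟩
  · intro β i hi
    cases β
    · exact l0 i hi
    · exact l1 i hi
  · intro β i hi
    cases β
    · exact c0 i hi
    · exact c1 i hi
  · intro β i hi
    cases β
    · exact n0 i hi
    · exact n1 i hi
  · intro β i hi i' hi' he
    cases β
    · exact ho0 i hi i' hi' he
    · exact ho1 i hi i' hi' he
  · intro β γ i hi i' hi' hne x hx hx'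
    cases β <;> cases γ
    · exact d0 i hi i' hi' (fun e => hne (by rw [e])) x hx hx'
    · exact d01 i hi i' hi' x hx hx'
    · exact d01 i' hi' i hi x hx' hx
    · exact d1 i hi i' hi' (fun e => hne (by rw [e])) x hx hx'
  · intro β
    cases β
    · exact hlev z₀ w₀ hz₀ hw₀ q0 hq0'
    · exact hlev z₁ w₁ hz₁ hw₁ q1 hq1'
  · exact hqq
  · intro β γ i hi hx
    cases β <;> cases γ
    · exact sf0 (fr0 i hi _ hx)
    · exact sf0 (fr1 i hi _ hx)
    · exact sf1 (fr0 i hi _ hx)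
    · exact sf1 (fr1 i hi _ hx)
  · intro γ i hi hx
    cases γ
    · exact pf (fr0 i hi _ hx)
    · exact pf (fr1 i hi _ hx)

end Pool.Agent.helper20.LL
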