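import Pool.Agent.helper20.LL.Defs
import Pool.Agent.helper20.AL.Lists

/-!
# LL-Cyc: a cycle in the graph of the letters and arcs give a cycle in the lift

PROOF.  Let `(g, β, a', b')` be the cycle (`TC`), `N = m₁ + m₂ ≥ 2`, and for a type `γ` and a letter `n` let `κ γ n < D` be an index with `s γ n = (hol φ (q γ) (I γ (κ γ n) ++ [p]))⁻¹` (`hs`, `choose`).
For every `γ` and `i < D` the lemma `arc` (in `AL.Lists`) gives `c γ i : α → V` such that for every `x : V` the list
`(q γ, x) :: ((I γ i).map (fun y => (y, x * c γ i y)) ++ [(p, x * hol φ (q γ) (I γ i ++ [p]))])` is a chain of `Lift B φ`.  With `x = y₀ * s γ n` and `i = κ γ n` its last vertex is `(p, y₀)`.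
For `t < N` let `y t = g t * s (β t) (a' t) = g (t + 1) * s (β t) (b' t)`, `γ = β t`, `i = κ γ (a' t)`, `i' = κ γ (b' t)` and
`blk t = (p, g t) :: (((I γ i).map (fun z => (z, y t * c γ i z))).reverse ++ (q γ, y t) :: (I γ i').map (fun z => (z, y t * c γ i' z)))`,
a list of length `1 + (a γ - 1) + 1 + (a γ - 1) = 2 a γ`.  Together with `(p, g (t + 1))` at the end it is a chain (the first part is the reversed lift of the arc `i`: reverse the chain from `arc`,
`List.isChain_reverse`, symmetry of the adjacency; the second part is the lift of the arc `i'`).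
The closed list `(List.range N).flatMap blk` has the length `∑ t < N, 2 a (β t) = 2 (m₁ a false + m₂ a true)`: the number of `t < N` with `β t = true` is `m₂`, so with `β t = false` it is `m₁`
(`Finset.sum_filter_add_sum_filter_not` or `Finset.sum_ite`, `Bool` cases).  Apply `contained_of_list`.
Chain: induction, or `List.isChain_flatten`/`List.isChain_append`: the last vertex of `blk t` is adjacent to `(p, g (t + 1))`, the head of `blk (t + 1)`; the closing edge: `g N = g 0`.
A convenient form: prove by induction on `n ≤ N` that `(List.range n).flatMap blk ++ [(p, g n)]` is a chain (`List.range_succ`), then take `n = N` and split off the last element.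
`Nodup` (`List.nodup_flatMap`): (i) `blk t` is `Nodup`: `p ∉ I`, `q γ ∉ I`, `q γ ≠ p`, the lists `I γ i` are `Nodup` (the maps `z ↦ (z, …)` are injective), and `I γ i`, `I γ i'` are disjoint because `i ≠ i'`:
otherwise `s γ (a' t) = s γ (b' t)`, so `g t = g (t + 1)`, which contradicts `inj` (`N ≥ 2`; `t + 1 < N` or `t + 1 = N` and `g N = g 0`).
(ii) `blk t` and `blk u` are disjoint for `t ≠ u`: `(p, g t) ≠ (p, g u)`; `(q (β t), y t) ≠ (q (β u), y u)` by `injq` if `β t = β u`, and `q false ≠ q true` otherwise; `p` and the `q` are not in the lists `I`;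
if `(z, y t * c γ i z) = (z, y u * c γ' i' z)` with `z ∈ I γ i`, `z ∈ I γ' i'` then `(γ, i) = (γ', i')` by `dis`, so `y t = y u` with `β t = β u`, contradiction to `injq`.
-/

set_option autoImplicit false

namespace Pool.Agent.helper20.LL

open Pool.Agent.helper20.AL

/-- Concatenation of chains with common ends. -/
private theorem cyc_chain {β : Type*} {R : β → β → Prop} {P : ℕ → β} {rest : ℕ → List β}
    (n : ℕ) (h : ∀ t < n, ((P t :: rest t) ++ [P (t + 1)]).IsChain R) :
    ((List.range n).flatMap (fun t => P t :: rest t) ++ [P n]).IsChain R := by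
  induction n with
  | zero => simp
  | succ n ih =>
    have h1 := ih (fun t ht => h t (by omega))
    have h2 := h n (by omega)
    rw [List.range_succ, List.flatMap_append, List.flatMap_singleton, List.append_assoc,
      List.cons_append, List.isChain_split]
    exact ⟨h1, h2⟩

/-- The closed list of the blocks. -/
private theorem cyc_closed {β : Type*} {Γ : SimpleGraph β} {P : ℕ → β} {rest : ℕ → List β}
    {N : ℕ} (hN : 0 < N) (h : ∀ t < N, ((P t :: rest t) ++ [P (t + 1)]).IsChain Γ.Adj)
    (hcl : P N = P 0) (hnd : ∀ t < N, (P t :: rest t).Nodup)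
    (hdis : ∀ t < N, ∀ u < N, t ≠ u → List.Disjoint (P t :: rest t) (P u :: rest u)) :
    HasC Γ ((List.range N).flatMap (fun t => P t :: rest t)).length := by
  have hch := cyc_chain N h
  obtain ⟨M, rfl⟩ : ∃ M, N = M + 1 := ⟨N - 1, by omega⟩
  set l := (List.range (M + 1)).flatMap (fun t => P t :: rest t) with hl
  have hl' : ∃ l', l = P 0 :: l' := by
    rw [hl, List.range_succ_eq_map, List.flatMap_cons, List.cons_append]
    exact ⟨_, rfl⟩
  have h0 : l ≠ [] := by
    obtain ⟨l', e⟩ := hl'
    rw [e]
    exact List.cons_ne_nil _ _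
  have hhead : l.head h0 = P 0 := by
    obtain ⟨l', e⟩ := hl'
    simp [e]
  rw [List.isChain_append] at hch
  refine contained_of_list l h0 ?_ hch.1 ?_
  · rw [hl, List.nodup_flatMap]
    refine ⟨fun t ht => hnd t (List.mem_range.1 ht), ?_⟩
    have hp : (List.range (M + 1)).Pairwise (fun x y => x ≠ y) := List.nodup_range
    refine List.Pairwise.imp_of_mem ?_ hp
    intro t u ht hu htu
    exact hdis t (List.mem_range.1 ht) u (List.mem_range.1 hu) htu
  · have h3 := hch.2.2 (l.getLast h0) (List.getLast_mem_getLast? h0) (P (M + 1)) (by simp)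
    rw [hhead, ← hcl]
    exact h3

theorem cyc_of_arcs {α V : Type*} [Group V] {B : SimpleGraph α} {φ : α → α → V} {p : α}
    {a : Bool → ℕ} {D : ℕ} {q : Bool → α} {I : Bool → ℕ → List α}
    (anti : ∀ a b, φ b a = (φ a b)⁻¹) (hA : Arcs B φ p a D q I) {s : Bool → ℕ → V}
    (hs : ∀ β n, ∃ i < D, s β n = (hol φ (q β) (I β i ++ [p]))⁻¹) {m₁ m₂ : ℕ} (h2 : 2 ≤ m₁ + m₂)
    (hTC : TC s m₁ m₂) : HasC (Lift B φ) (2 * (m₁ * a false + m₂ * a true)) := by
  choose κ hκD hκ using hs
  have harc : ∀ γ i, ∃ c : α → V, i < D → ∀ g : V, ((q γ, g) ::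
      ((I γ i).map (fun x => (x, g * c x)) ++
      [(p, g * hol φ (q γ) (I γ i ++ [p]))])).IsChain (Lift B φ).Adj := by
    intro γ i
    by_cases hi : i < D
    · obtain ⟨c, hc⟩ := arc anti p (I γ i) (q γ) (hA.chain γ i hi) (hA.nodup γ i hi)
      exact ⟨c, fun _ => hc⟩
    · exact ⟨fun _ => 1, fun h => absurd h hi⟩
  choose c hc using harc
  obtain ⟨g, β, a', b', hT, hcnt⟩ := hTC
  set N := m₁ + m₂ with hN
  -- the vertices of the blocks
  set y : ℕ → V := fun t => g t * s (β t) (a' t) with hy
  have hy2 : ∀ t < N, y t = g (t + 1) * s (β t) (b' t) := fun t ht => hT.step t ht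
  set P : ℕ → α × V := fun t => (p, g t) with hP
  set A : ℕ → List (α × V) := fun t =>
    (I (β t) (κ (β t) (a' t))).map (fun z => (z, y t * c (β t) (κ (β t) (a' t)) z)) with hAA
  set A' : ℕ → List (α × V) := fun t =>
    (I (β t) (κ (β t) (b' t))).map (fun z => (z, y t * c (β t) (κ (β t) (b' t)) z)) with hAA'
  set rest : ℕ → List (α × V) := fun t => (A t).reverse ++ (q (β t), y t) :: A' t with hrest
  have hyq : ∀ t < N, ∀ u < N, β t = β u → y t = y u → t = u := fun t ht u hu h1 h2 =>
    hT.injq t ht u hu h1 h2
  -- membership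
  have memA : ∀ t x, x ∈ A t → x.1 ∈ I (β t) (κ (β t) (a' t)) ∧
      x.2 = y t * c (β t) (κ (β t) (a' t)) x.1 := by
    intro t x hx
    obtain ⟨z, hz, rfl⟩ := List.mem_map.1 hx
    exact ⟨hz, rfl⟩
  have memA' : ∀ t x, x ∈ A' t → x.1 ∈ I (β t) (κ (β t) (b' t)) ∧
      x.2 = y t * c (β t) (κ (β t) (b' t)) x.1 := by
    intro t x hx
    obtain ⟨z, hz, rfl⟩ := List.mem_map.1 hx
    exact ⟨hz, rfl⟩
  -- every vertex of a block is of one of three kinds
  have memB : ∀ t x, x ∈ P t :: rest t → x = (p, g t) ∨ x = (q (β t), y t) ∨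
      ∃ i < D, x.1 ∈ I (β t) i ∧ x.2 = y t * c (β t) i x.1 := by
    intro t x hx
    rcases List.mem_cons.1 hx with h | h
    · exact Or.inl h
    · rcases List.mem_append.1 h with h | h
      · exact Or.inr (Or.inr ⟨_, hκD _ _, memA t x (List.mem_reverse.1 h)⟩)
      · rcases List.mem_cons.1 h with h | h
        · exact Or.inr (Or.inl h)
        · exact Or.inr (Or.inr ⟨_, hκD _ _, memA' t x h⟩)
  have hch : ∀ t < N, ((P t :: rest t) ++ [P (t + 1)]).IsChain (Lift B φ).Adj := by
    intro t ht
    have e1 : y t * hol φ (q (β t)) (I (β t) (κ (β t) (a' t)) ++ [p]) = g t := by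
      simp only [hy, hκ, inv_mul_cancel_right]
    have e2 : y t * hol φ (q (β t)) (I (β t) (κ (β t) (b' t)) ++ [p]) = g (t + 1) := by
      rw [hy2 t ht, hκ, inv_mul_cancel_right]
    have c1 := hc (β t) (κ (β t) (a' t)) (hκD _ _) (y t)
    have c2 := hc (β t) (κ (β t) (b' t)) (hκD _ _) (y t)
    rw [e1] at c1
    rw [e2] at c2
    have c3 : ((P t :: (A t).reverse) ++ [(q (β t), y t)]).IsChain (Lift B φ).Adj := by
      have c4 : (((q (β t), y t) :: (A t ++ [P t])).reverse).IsChain (Lift B φ).Adj := by
        rw [List.isChain_reverse]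
        refine c1.imp ?_
        intro u v huv
        exact huv.symm
      rw [List.reverse_cons, List.reverse_append, List.reverse_singleton,
        List.singleton_append] at c4
      exact c4
    have e3 : (P t :: rest t) ++ [P (t + 1)] =
        (P t :: (A t).reverse) ++ (q (β t), y t) :: (A' t ++ [P (t + 1)]) := by
      simp only [hrest, List.cons_append, List.append_assoc]
    rw [e3, List.isChain_split]
    exact ⟨c3, c2⟩
  have hcl : P N = P 0 := by
    simp only [hP, hT.closed]
  have hgs : ∀ t < N, g t ≠ g (t + 1) := by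
    intro t ht h
    by_cases h1 : t + 1 < N
    · have := hT.inj t ht (t + 1) h1 h
      omega
    · have h3 : t + 1 = N := by omega
      rw [h3, hT.closed] at h
      have := hT.inj t ht 0 (by omega) h
      omega
  have hκne : ∀ t < N, κ (β t) (a' t) ≠ κ (β t) (b' t) := by
    intro t ht h
    apply hgs t ht
    have e1 := hT.step t ht
    rw [hκ (β t) (a' t), hκ (β t) (b' t), h] at e1
    exact mul_right_cancel e1
  have hinjm : ∀ (w : V) (d : α → V), Function.Injective (fun z : α => (z, w * d z)) :=
    fun w d z z' h => (Prod.ext_iff.1 h).1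
  have hnd : ∀ t < N, (P t :: rest t).Nodup := by
    intro t ht
    rw [List.nodup_cons]
    constructor
    · intro h
      rcases List.mem_append.1 h with h | h
      · exact hA.pI _ _ (hκD _ _) (memA t _ (List.mem_reverse.1 h)).1
      · rcases List.mem_cons.1 h with h | h
        · exact hA.qp (β t) (Prod.ext_iff.1 h).1.symm
        · exact hA.pI _ _ (hκD _ _) (memA' t _ h).1
    · rw [hrest]
      simp only
      rw [List.nodup_append', List.nodup_reverse, List.nodup_cons]
      refine ⟨(hA.nodup _ _ (hκD _ _)).map (hinjm _ _), ⟨?_, (hA.nodup _ _ (hκD _ _)).map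
        (hinjm _ _)⟩, ?_⟩
      · intro h
        exact hA.qI _ _ _ (hκD _ _) (memA' t _ h).1
      · intro x hx hx'
        have m1 := (memA t x (List.mem_reverse.1 hx)).1
        rcases List.mem_cons.1 hx' with h | h
        · rw [h] at m1
          exact hA.qI _ _ _ (hκD _ _) m1
        · refine hA.dis _ _ _ (hκD _ _) _ (hκD _ _) ?_ _ m1 (memA' t x h).1
          intro e
          exact hκne t ht (Prod.ext_iff.1 e).2
  have hdis : ∀ t < N, ∀ u < N, t ≠ u → List.Disjoint (P t :: rest t) (P u :: rest u) := by
    intro t ht u hu htu x hx hx'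
    rcases memB t x hx with h | h | ⟨i, hi, h, h'⟩ <;> rcases memB u x hx' with k | k | ⟨j, hj, k, k'⟩
    · exact htu (hT.inj t ht u hu (Prod.ext_iff.1 (h.symm.trans k)).2)
    · exact hA.qp _ (Prod.ext_iff.1 (h.symm.trans k)).1.symm
    · rw [h] at k
      exact hA.pI _ _ hj k
    · exact hA.qp _ (Prod.ext_iff.1 (h.symm.trans k)).1
    · have e := Prod.ext_iff.1 (h.symm.trans k)
      by_cases hb : β t = β u
      · exact htu (hyq t ht u hu hb e.2)
      · have e1 : q (β t) = q (β u) := e.1
        have hq := hA.qq
        rcases hbt : β t with _ | _ <;> rcases hbu : β u with _ | _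
        · exact hb (hbt.trans hbu.symm)
        · rw [hbt, hbu] at e1
          exact hq e1
        · rw [hbt, hbu] at e1
          exact hq e1.symm
        · exact hb (hbt.trans hbu.symm)
    · rw [h] at k
      exact hA.qI _ _ _ hj k
    · rw [k] at h
      exact hA.pI _ _ hi h
    · rw [k] at h
      exact hA.qI _ _ _ hi h
    · by_cases hij : (β t, i) = (β u, j)
      · have hb : β t = β u := (Prod.ext_iff.1 hij).1
        have hi2 : i = j := (Prod.ext_iff.1 hij).2
        apply htu
        apply hyq t ht u hu hb
        rw [h', hb, hi2] at k'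
        exact mul_right_cancel k'
      · exact hA.dis _ _ i hi j hj hij _ h k
  have key := cyc_closed (Γ := Lift B φ) (by omega) hch hcl hnd hdis
  have hlen : ((List.range N).flatMap (fun t => P t :: rest t)).length =
      2 * (m₁ * a false + m₂ * a true) := by
    rw [List.length_flatMap]
    have e1 : (List.range N).map (fun t => (P t :: rest t).length) =
        (List.range N).map (fun t => 2 * a (β t)) := by
      apply List.map_congr_left
      intro t _
      have l1 := hA.len (β t) (κ (β t) (a' t)) (hκD _ _)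
      have l2 := hA.len (β t) (κ (β t) (b' t)) (hκD _ _)
      simp only [hrest, hAA, hAA', List.length_cons, List.length_append, List.length_reverse,
        List.length_map]
      omega
    have e2 : ((List.range N).map (fun t => 2 * a (β t))).sum =
        ∑ t ∈ Finset.range N, 2 * a (β t) := rfl
    rw [e1, e2, ← Finset.sum_filter_add_sum_filter_not (Finset.range N) (fun t => β t = true)]
    have e3 : ∑ t ∈ (Finset.range N).filter (fun t => β t = true), 2 * a (β t) =
        m₂ * (2 * a true) := by
      rw [Finset.sum_congr rfl (g := fun _ => 2 * a true)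
        (fun t ht => by rw [(Finset.mem_filter.1 ht).2]), Finset.sum_const, smul_eq_mul]
      congr 1
    have e4 : ∑ t ∈ (Finset.range N).filter (fun t => ¬ β t = true), 2 * a (β t) =
        m₁ * (2 * a false) := by
      rw [Finset.sum_congr rfl (g := fun _ => 2 * a false)
        (fun t ht => by rw [Bool.eq_false_of_not_eq_true (Finset.mem_filter.1 ht).2]),
        Finset.sum_const, smul_eq_mul]
      have h5 := Finset.card_filter_add_card_filter_not (s := Finset.range N)
        (fun t => β t = true)
      have h6 : ((Finset.range N).filter (fun t => β t = true)).card = m₂ := hcnt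
      rw [Finset.card_range] at h5
      congr 1
      omega
    rw [e3, e4]
    ring
  rw [hlen] at key
  exact key

end Pool.Agent.helper20.LL
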