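import Pool.Agent.helper20.LL.Tri
import Pool.Agent.helper20.LL.CoreArcs
import Pool.Agent.helper20.LL.Cyc

/-! # LL-CoreS (helper20): cores in lifts with a voltage group with short relations -/

set_option autoImplicit false

namespace Pool.Agent.helper20.LL

open Pool.Agent.helper20.AL

/-- Two lengths. -/
theorem choose_ab (K h k : ℕ) (hK : 1 ≤ K) (hk : ((K + 1) ^ 2 + 2 * K) * (h + 1) ≤ k) :
    ∃ a₁ a₂, h + 2 ≤ a₁ ∧ h + 2 ≤ a₂ ∧ (K + 1) * a₁ + K * a₂ = k := by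
  have hk2 : (K + 1) * (h + 1 + K) + K * (h + 2) ≤ k := by
    refine le_trans ?_ hk
    nlinarith [Nat.zero_le (K * h), Nat.zero_le (K * K * h), Nat.zero_le h]
  -- `a₁ ≡ k` modulo `K`
  obtain ⟨a₁, h1, h2, c, hc⟩ : ∃ a₁, h + 2 ≤ a₁ ∧ a₁ ≤ h + 1 + K ∧ ∃ c, k = (K + 1) * a₁ + K * c := by
    obtain ⟨r, hr, c, hc⟩ : ∃ r, r < K ∧ ∃ c, k = h + 2 + r + K * c := by
      refine ⟨(k - (h + 2)) % K, Nat.mod_lt _ hK, (k - (h + 2)) / K, ?_⟩
      have h3 := Nat.mod_add_div (k - (h + 2)) K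
      have h4 : h + 2 ≤ k := by nlinarith [Nat.zero_le (K * h), Nat.zero_le (K * K)]
      omega
    have h5 : h + 2 + r ≤ c := by
      by_contra hcon
      push Not at hcon
      have h6 : K * c ≤ K * (h + 2 + r) := Nat.mul_le_mul_left _ hcon.le
      have h7 : k < (K + 1) * (h + 1 + K) + K * (h + 2) := by
        have h8 : c + 1 ≤ h + 2 + r := hcon
        have h9 : K * (c + 1) ≤ K * (h + 2 + r) := Nat.mul_le_mul_left _ h8
        have h10 : K * (h + 2 + r) ≤ K * (h + 1 + K) := Nat.mul_le_mul_left _ (by omega)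
        have h11 : K * 1 ≤ K * (h + 2) := Nat.mul_le_mul_left _ (by omega)
        nlinarith
      omega
    obtain ⟨d, rfl⟩ : ∃ d, c = h + 2 + r + d := ⟨c - (h + 2 + r), by omega⟩
    refine ⟨h + 2 + r, by omega, by omega, d, ?_⟩
    rw [hc]
    ring
  refine ⟨a₁, c, h1, ?_, hc.symm⟩
  by_contra hcon
  push Not at hcon
  have h6 : (K + 1) * a₁ ≤ (K + 1) * (h + 1 + K) := Nat.mul_le_mul_left _ h2
  have h7 : K * (c + 1) ≤ K * (h + 2) := Nat.mul_le_mul_left _ hcon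
  have h8 : K * 1 ≤ K := by omega
  nlinarith

theorem core_short.{u, v} (M L k ℓ : ℕ) (hℓ : 1 ≤ ℓ)
    (hk : ((2 * L ^ 2 + 2 * L + 2) ^ 2 + 2 * (2 * L ^ 2 + 2 * L + 1)) * ℓ ≤ k) :
    ∃ M₀ : ℕ, ∀ M', M₀ ≤ M' → ∀ (V : Type v) [Group V], Short M L V →
      CoreCyc.{u, v} V k (ℓ - 1) M' := by
  classical
  obtain ⟨K, hKdef⟩ : ∃ K, K = 2 * L ^ 2 + 2 * L + 1 := ⟨_, rfl⟩
  have hK : 1 ≤ K := by omega
  have hk' : ((K + 1) ^ 2 + 2 * K) * ℓ ≤ k := by
    rw [hKdef]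
    exact hk
  obtain ⟨D, hD⟩ := tri_short.{v} M L (K + 1) K (by omega) (by omega)
  refine ⟨(D + 2) * (4 * k + 2) + 20, ?_⟩
  intro M' hM V _ hlaw α B φ lev par hT h j p W Z h1 hH hj hW hZ hne hC
  obtain ⟨a₁, a₂, ha₁, ha₂, hab⟩ := choose_ab K h k hK (by
    refine le_trans (Nat.mul_le_mul_left _ ?_) hk'
    omega)
  have hb : 2 * a₁ + 2 * a₂ ≤ 4 * k := by
    have h2 : a₁ ≤ (K + 1) * a₁ := Nat.le_mul_of_pos_left _ (by omega)
    have h3 : a₂ ≤ K * a₂ := Nat.le_mul_of_pos_left _ (by omega)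
    omega
  obtain ⟨q, I, hA⟩ := core_arcs hT h1 hj hW hZ hne hC (fun β => bif β then a₂ else a₁) (by
      intro β
      cases β
      · exact ha₁
      · exact ha₂) D (by
      refine le_trans (Nat.add_le_add_right (Nat.mul_le_mul_left _ ?_) _) hM
      simp only [cond_false, cond_true]
      omega)
  obtain ⟨s, hs, hTC⟩ := hD V hlaw (fun β => (Finset.range D).image
    (fun i => (hol φ (q β) (I β i ++ [p]))⁻¹)) (by
      intro β
      rw [Finset.card_image_of_injOn, Finset.card_range]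
      intro i hi i' hi' he
      exact hA.hol β i (Finset.mem_range.1 hi) i' (Finset.mem_range.1 hi') (inv_injective he))
  have hcyc := cyc_of_arcs hT.anti hA (s := s) (by
    intro β n
    obtain ⟨i, hi, he⟩ := Finset.mem_image.1 (hs β n)
    exact ⟨i, Finset.mem_range.1 hi, he.symm⟩) (by omega) hTC
  simp only [cond_false, cond_true] at hcyc
  rwa [hab] at hcyc

end Pool.Agent.helper20.LL
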