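import Pool.Agent.helper20.EC.Norm
import Pool.Agent.helper20.AL.Defs

/-!
# Project LL (MP_facdf9_co, helper20): even cycles in graphs with a free action of a group with a law

Theorem: for every law `w` there is `C` such that for all `k ≥ C` there is `D`: if a group which satisfies the
law `w` acts freely with `t` orbits on a graph with `n` vertices, `e` edges and no cycle of length `2 k`, then
`e ^ ℓ ≤ D n ^ ℓ t` for `ℓ = ⌊k / C⌋`.

Letters: `s : Bool → ℕ → G`, two sequences of elements of the group `G` (`s false` and `s true`).  The graph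
with the vertices `(g, p)`, `(g, false)`, `(g, true)` and the edges `(g, p) - (g * s β n, β)`.
`TriC s N g β a b`: the cycle `(g 0, p), (q 0, β 0), (g 1, p), (q 1, β 1), …, (q (N - 1), β (N - 1)), (g N, p) = (g 0, p)`
with `q i = g i * s (β i) (a i) = g (i + 1) * s (β i) (b i)`.
-/

set_option autoImplicit false

namespace Pool.Agent.helper20.LL

open Pool.Agent.Helper20.EC Pool.Agent.helper20.AL

section

variable {G : Type*} [Group G]

/-- A path of length `n` in the graph of the letters `s` (see `EC`), all first coordinates are different. -/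
structure IsArc (s : ℕ → G) (n : ℕ) (c : ℕ → G × Bool) : Prop where
  step : ∀ i < n, ∃ a, stp s a (c i) = c (i + 1)
  inj : ∀ i ≤ n, ∀ j ≤ n, (c i).1 = (c j).1 → i = j

/-- A path of length `n` from `u` to `v` whose inner vertices avoid `F`. -/
def Ar (s : ℕ → G) (u v : G × Bool) (F : Set G) (n : ℕ) : Prop :=
  ∃ c, IsArc s n c ∧ c 0 = u ∧ c n = v ∧ ∀ i, 0 < i → i < n → (c i).1 ∉ F

/-- A cycle with `N` vertices of the type `p`, see above. -/
structure TriC (s : Bool → ℕ → G) (N : ℕ) (g : ℕ → G) (β : ℕ → Bool) (a b : ℕ → ℕ) : Prop where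
  step : ∀ i < N, g i * s (β i) (a i) = g (i + 1) * s (β i) (b i)
  closed : g N = g 0
  inj : ∀ i < N, ∀ j < N, g i = g j → i = j
  injq : ∀ i < N, ∀ j < N, β i = β j → g i * s (β i) (a i) = g j * s (β j) (a j) → i = j

/-- The number of `i < N` with `β i = γ`. -/
def cnt (N : ℕ) (β : ℕ → Bool) (γ : Bool) : ℕ := ((Finset.range N).filter (fun i => β i = γ)).card

/-- There is a cycle with `m₁` vertices of type `false`, `m₂` vertices of type `true`
(and `m₁ + m₂` vertices of type `p`). -/
def TC (s : Bool → ℕ → G) (m₁ m₂ : ℕ) : Prop :=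
  ∃ g β a b, TriC s (m₁ + m₂) g β a b ∧ cnt (m₁ + m₂) β true = m₂

/-- The value of a list of moves in the free product of two copies of `G`. -/
noncomputable def Val (s : Bool → ℕ → G) (l : List (Bool × ℕ × ℕ)) :
    Monoid.CoprodI (fun _ : Bool => G) :=
  (l.map fun x => Monoid.CoprodI.of (M := fun _ : Bool => G) (i := x.1)
    (s x.1 x.2.1 * (s x.1 x.2.2)⁻¹)).prod

/-- The codiagonal map. -/
noncomputable def pr (G : Type*) [Group G] : Monoid.CoprodI (fun _ : Bool => G) →* G :=
  Monoid.CoprodI.lift (fun _ => MonoidHom.id G)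

theorem Val_nil (s : Bool → ℕ → G) : Val s [] = 1 := rfl

theorem Val_cons (s : Bool → ℕ → G) (x : Bool × ℕ × ℕ) (l : List (Bool × ℕ × ℕ)) :
    Val s (x :: l) = Monoid.CoprodI.of (M := fun _ : Bool => G) (i := x.1)
      (s x.1 x.2.1 * (s x.1 x.2.2)⁻¹) * Val s l := by
  unfold Val
  rw [List.map_cons, List.prod_cons]

theorem Val_append (s : Bool → ℕ → G) (l l' : List (Bool × ℕ × ℕ)) :
    Val s (l ++ l') = Val s l * Val s l' := by
  unfold Val
  rw [List.map_append, List.prod_append]

theorem pr_of (β : Bool) (x : G) :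
    pr G (Monoid.CoprodI.of (M := fun _ : Bool => G) (i := β) x) = x := by
  unfold pr
  rw [Monoid.CoprodI.lift_of]
  rfl

end

/-- `D` arcs of length `a β` from `q β` to `p` (inner vertices `I β i`) for both `β`, with different holonomies
and disjoint from each other. -/
structure Arcs {α V : Type*} [Group V] (B : SimpleGraph α) (φ : α → α → V) (p : α) (a : Bool → ℕ)
    (D : ℕ) (q : Bool → α) (I : Bool → ℕ → List α) : Prop where
  len : ∀ β, ∀ i < D, (I β i).length + 1 = a β
  chain : ∀ β, ∀ i < D, (q β :: (I β i ++ [p])).IsChain B.Adj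
  nodup : ∀ β, ∀ i < D, (I β i).Nodup
  hol : ∀ β, ∀ i < D, ∀ j < D, hol φ (q β) (I β i ++ [p]) = hol φ (q β) (I β j ++ [p]) → i = j
  dis : ∀ β γ, ∀ i < D, ∀ j < D, (β, i) ≠ (γ, j) → ∀ x ∈ I β i, x ∉ I γ j
  qp : ∀ β, q β ≠ p
  qq : q false ≠ q true
  qI : ∀ β γ, ∀ i < D, q β ∉ I γ i
  pI : ∀ γ, ∀ i < D, p ∉ I γ i

end Pool.Agent.helper20.LL
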