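import Pool.Agent.helper20.LL.Defs

/-!
# LL-Ess: in a group with a law there is a short list of moves whose value is trivial in `G` but not in the free product

Let `P = Monoid.CoprodI (fun _ : Bool => G)` (two copies of `G`), `h n = s false (n + 1) * (s false 0)⁻¹` in the copy `false` and
`k n = s true (n + 1) * (s true 0)⁻¹` in the copy `true`: all `h n` are different and `≠ 1`, also all `k n` (injectivity of `s β`).  Let `x n = h n * k n` in `P`.

(1) `FreeGroup.lift x : FreeGroup ℕ →* P` is injective.  Use `FreeGroup.injective_lift_of_ping_pong` for the action of `P` on `Monoid.CoprodI.Word` (or on `P` itself)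
with `X n` = reduced words whose first syllable is `(false, h n)` and `Y n` = reduced words whose first syllable is `(true, (k n)⁻¹)`.
`x n` maps the complement of `Y n` into `X n`: `k n` times a word `u ∉ Y n` is a word whose first syllable is in the copy `true` (if `u` begins with `(true, z)` then `z ≠ (k n)⁻¹`, so `k n * z ≠ 1`; otherwise the
first syllable is `k n`), and then `h n` times it begins with the syllable `h n`.  `(x n)⁻¹ = (k n)⁻¹ (h n)⁻¹` maps the complement of `X n` into `Y n` in the same way.
The sets are nonempty and disjoint because the `h n` (the `k n`) are different.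
ALTERNATIVE without words: define the action by hand on lists, or use `Monoid.CoprodI.NeWord`: a reduced word `y₁ … y_r` in the letters `(x n)^(±1)` is after the mergers
`k n * (k m)⁻¹`, `(h n)⁻¹ * h m` (`n ≠ m`) a reduced word in the free product with at least `r + 1` syllables.

(2) `(FreeGroup.lift x w)` is `Val s l` for a list `l` of length `2 * w.norm`: induction on `w.toWord` (`FreeGroup.mk`), the letter `x n` is
`Val s [(false, n + 1, 0), (true, n + 1, 0)]` and its inverse is `Val s [(true, 0, n + 1), (false, 0, n + 1)]` (compare `exists_list_aux` in `Pool.Agent.helper20.EC.Law`).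
`Val s l ≠ 1` by (1) as `w ≠ 1`.

(3) `pr G (FreeGroup.lift x w) = FreeGroup.lift (fun n => pr G (x n)) w = 1` by the law (`FreeGroup.ext_hom` or `map_lift`).
-/

set_option autoImplicit false

namespace Pool.Agent.helper20.LL

open Pool.Agent.Helper20.EC

section

open Monoid.CoprodI

universe u

variable {G : Type*} [Group G]

private theorem fst_of_head [DecidableEq G] {β : Bool} {w : Word (fun _ : Bool => G)}
    (h : (Word.equivPair β w).head ≠ 1) : w.fstIdx = some β := by
  by_contra hne
  apply h
  rw [Word.equivPair_eq_of_fstIdx_ne hne]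

private theorem head_one [DecidableEq G] {β γ : Bool} (hβγ : β ≠ γ) {w : Word (fun _ : Bool => G)}
    (h : (Word.equivPair β w).head ≠ 1) : (Word.equivPair γ w).head = 1 := by
  have h1 := fst_of_head h
  have h2 : w.fstIdx ≠ some γ := by
    rw [h1]
    intro e
    exact hβγ (Option.some.inj e)
  rw [Word.equivPair_eq_of_fstIdx_ne h2]

private theorem head_smul [DecidableEq G] (β : Bool) (x : G) (w : Word (fun _ : Bool => G)) :
    (Word.equivPair β ((of (M := fun _ : Bool => G) (i := β) x) • w)).head =
      x * (Word.equivPair β w).head := by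
  rw [Word.equivPair_smul_same]

private theorem head_two [DecidableEq G] {β γ : Bool} (hβγ : β ≠ γ) (x y : G)
    (w : Word (fun _ : Bool => G)) (h : (Word.equivPair γ w).head ≠ y⁻¹) :
    (Word.equivPair β ((of (M := fun _ : Bool => G) (i := β) x *
      of (M := fun _ : Bool => G) (i := γ) y) • w)).head = x := by
  rw [mul_smul, head_smul]
  rw [head_one (β := γ) (γ := β) hβγ.symm, mul_one]
  rw [head_smul]
  intro e
  exact h (eq_inv_of_mul_eq_one_right e)

private theorem free_pair_aux' {ι : Type u} [Nontrivial ι] {G : Type u} [Group G]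
    (h k : ι → G) (hh : ∀ n, h n ≠ 1) (hk : ∀ n, k n ≠ 1)
    (hhi : Function.Injective h) (hki : Function.Injective k) :
    Function.Injective (FreeGroup.lift (fun n : ι =>
      of (M := fun _ : Bool => G) (i := false) (h n) *
      of (M := fun _ : Bool => G) (i := true) (k n))) := by
  classical
  apply FreeGroup.injective_lift_of_ping_pong (α := Word (fun _ : Bool => G))
    (a := fun n : ι => of (M := fun _ : Bool => G) (i := false) (h n) *
      of (M := fun _ : Bool => G) (i := true) (k n))
    (X := fun n => {w | (Word.equivPair false w).head = h n})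
    (Y := fun n => {w | (Word.equivPair true w).head = (k n)⁻¹})
  · intro n
    refine ⟨of (M := fun _ : Bool => G) (i := false) (h n) • Word.empty, ?_⟩
    change (Word.equivPair (M := fun _ : Bool => G) false _).head = h n
    rw [head_smul]
    rw [Word.equivPair_eq_of_fstIdx_ne (i := false) (w := Word.empty)
      (by simp [Word.fstIdx, Word.empty])]
    exact mul_one _
  · intro i j hij
    refine Set.disjoint_left.2 fun w hw hw' => hij (hhi ?_)
    have h1 : (Word.equivPair (M := fun _ : Bool => G) false w).head = h i := hw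
    have h2 : (Word.equivPair (M := fun _ : Bool => G) false w).head = h j := hw'
    rw [← h1, h2]
  · intro i j hij
    refine Set.disjoint_left.2 fun w hw hw' => hij (hki (inv_injective ?_))
    have h1 : (Word.equivPair (M := fun _ : Bool => G) true w).head = (k i)⁻¹ := hw
    have h2 : (Word.equivPair (M := fun _ : Bool => G) true w).head = (k j)⁻¹ := hw'
    rw [← h1, h2]
  · intro i j
    refine Set.disjoint_left.2 fun w hw hw' => ?_
    have h1 : (Word.equivPair (M := fun _ : Bool => G) false w).head = h i := hw
    have h2 : (Word.equivPair (M := fun _ : Bool => G) true w).head = (k j)⁻¹ := hw'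
    have h3 : (Word.equivPair (M := fun _ : Bool => G) true w).head = 1 :=
      head_one (β := false) (γ := true) (by decide) (by rw [h1]; exact hh i)
    rw [h2] at h3
    exact hk j (inv_eq_one.1 h3)
  · intro i
    rintro _ ⟨w, hw, rfl⟩
    exact head_two (β := false) (γ := true) (by decide) (h i) (k i) w hw
  · intro i
    rintro _ ⟨w, hw, rfl⟩
    change (Word.equivPair (M := fun _ : Bool => G) true
      ((of (M := fun _ : Bool => G) (i := false) (h i) *
      of (M := fun _ : Bool => G) (i := true) (k i))⁻¹ • w)).head = (k i)⁻¹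
    rw [mul_inv_rev, ← map_inv, ← map_inv]
    apply head_two (β := true) (γ := false) (by decide) (k i)⁻¹ (h i)⁻¹ w
    rw [inv_inv]
    exact hw

private theorem free_pair_aux {G : Type u} [Group G] (h k : ℕ → G) (hh : ∀ n, h n ≠ 1)
    (hk : ∀ n, k n ≠ 1) (hhi : Function.Injective h) (hki : Function.Injective k) :
    Function.Injective (FreeGroup.lift (fun n : ℕ =>
      of (M := fun _ : Bool => G) (i := false) (h n) *
      of (M := fun _ : Bool => G) (i := true) (k n))) := by
  have h1 := free_pair_aux' (ι := ULift.{u} ℕ) (fun n => h n.down) (fun n => k n.down)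
    (fun n => hh _) (fun n => hk _) (hhi.comp ULift.down_injective)
    (hki.comp ULift.down_injective)
  have h2 : FreeGroup.lift (fun n : ℕ => of (M := fun _ : Bool => G) (i := false) (h n) *
      of (M := fun _ : Bool => G) (i := true) (k n)) =
      (FreeGroup.lift (fun n : ULift.{u} ℕ =>
        of (M := fun _ : Bool => G) (i := false) (h n.down) *
        of (M := fun _ : Bool => G) (i := true) (k n.down))).comp
        (FreeGroup.freeGroupCongr (Equiv.ulift.{u}.symm : ℕ ≃ ULift.{u} ℕ)).toMonoidHom := by
    apply FreeGroup.ext_hom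
    intro a
    simp only [MonoidHom.comp_apply, MulEquiv.toMonoidHom_eq_coe, MonoidHom.coe_coe,
      FreeGroup.freeGroupCongr_apply, FreeGroup.map.of, FreeGroup.lift_apply_of]
    rfl
  rw [h2, MonoidHom.coe_comp]
  exact h1.comp (MulEquiv.injective _)

end

theorem free_pair {G : Type*} [Group G] (s : Bool → ℕ → G) (hs : ∀ β, Function.Injective (s β)) :
    Function.Injective (FreeGroup.lift (fun n : ℕ =>
      Val s [(false, n + 1, 0), (true, n + 1, 0)])) := by
  have hne : ∀ β n, s β (n + 1) * (s β 0)⁻¹ ≠ 1 := fun β n e =>
    Nat.succ_ne_zero n (hs β (mul_inv_eq_one.1 e))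
  have hin : ∀ β, Function.Injective (fun n => s β (n + 1) * (s β 0)⁻¹) := fun β n m e =>
    Nat.succ_injective (hs β (mul_right_cancel e))
  have h1 := free_pair_aux (G := G) (fun n => s false (n + 1) * (s false 0)⁻¹)
    (fun n => s true (n + 1) * (s true 0)⁻¹) (hne false) (hne true) (hin false) (hin true)
  have h2 : (fun n : ℕ => Val s [(false, n + 1, 0), (true, n + 1, 0)]) =
      fun n : ℕ => Monoid.CoprodI.of (M := fun _ : Bool => G) (i := false)
        (s false (n + 1) * (s false 0)⁻¹) * Monoid.CoprodI.of (M := fun _ : Bool => G) (i := true)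
        (s true (n + 1) * (s true 0)⁻¹) := by
    funext n
    rw [Val_cons, Val_cons, Val_nil, mul_one]
  rw [h2]
  exact h1

private theorem ess_aux {G : Type*} [Group G] (s : Bool → ℕ → G) (L : List (ℕ × Bool)) :
    ∃ l : List (Bool × ℕ × ℕ), l.length = 2 * L.length ∧
      Val s l = FreeGroup.lift (fun n : ℕ => Val s [(false, n + 1, 0), (true, n + 1, 0)])
        (FreeGroup.mk L) := by
  induction L with
  | nil => exact ⟨[], rfl, by rw [← FreeGroup.one_eq_mk, map_one]; rfl⟩
  | cons p L ih =>
    obtain ⟨l, hl, h⟩ := ih
    obtain ⟨n, b⟩ := p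
    have e1 : FreeGroup.mk ((n, b) :: L) = FreeGroup.mk [(n, b)] * FreeGroup.mk L := by
      rw [FreeGroup.mul_mk]
      rfl
    cases b
    · refine ⟨[(true, 0, n + 1), (false, 0, n + 1)] ++ l, by simp [hl]; ring, ?_⟩
      have e2 : FreeGroup.mk [(n, false)] = (FreeGroup.of n)⁻¹ := by
        rw [FreeGroup.of, FreeGroup.inv_mk]
        rfl
      rw [Val_append, e1, map_mul, ← h, e2, map_inv, FreeGroup.lift_apply_of]
      congr 1
      rw [Val_cons, Val_cons, Val_nil, mul_one, Val_cons, Val_cons, Val_nil, mul_one, mul_inv_rev,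
        ← map_inv, ← map_inv, mul_inv_rev, inv_inv, mul_inv_rev, inv_inv]
    · refine ⟨[(false, n + 1, 0), (true, n + 1, 0)] ++ l, by simp [hl]; ring, ?_⟩
      have e2 : FreeGroup.mk [(n, true)] = FreeGroup.of n := rfl
      rw [Val_append, e1, map_mul, ← h, e2, FreeGroup.lift_apply_of]

theorem ess {G : Type*} [Group G] (w : FreeGroup ℕ) (hw : w ≠ 1)
    (hlaw : ∀ f : ℕ → G, FreeGroup.lift f w = 1) (s : Bool → ℕ → G)
    (hs : ∀ β, Function.Injective (s β)) :
    ∃ l : List (Bool × ℕ × ℕ), l.length ≤ 2 * w.norm ∧ Val s l ≠ 1 ∧ pr G (Val s l) = 1 := by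
  obtain ⟨l, hl, h⟩ := ess_aux s w.toWord
  rw [FreeGroup.mk_toWord] at h
  refine ⟨l, le_of_eq hl, ?_, ?_⟩
  · rw [h]
    intro e
    exact hw (free_pair s hs (by rw [e, map_one]))
  · have h1 : (pr G).comp (FreeGroup.lift (fun n : ℕ =>
        Val s [(false, n + 1, 0), (true, n + 1, 0)])) = FreeGroup.lift (fun n : ℕ =>
        pr G (Val s [(false, n + 1, 0), (true, n + 1, 0)])) := by
      apply FreeGroup.ext_hom
      intro a
      rw [MonoidHom.comp_apply, FreeGroup.lift_apply_of, FreeGroup.lift_apply_of]
    rw [h, ← MonoidHom.comp_apply, h1]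
    exact hlaw _

end Pool.Agent.helper20.LL
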