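import Pool.Agent.helper20.LL.Ess

/-! # LL-EssR (helper20): an essential list of moves from one relation -/

set_option autoImplicit false

namespace Pool.Agent.helper20.LL

open Pool.Agent.Helper20.EC

variable {G : Type*} [Group G]

/-- The element `x n` of the free product. -/
noncomputable def xv (s : Bool → ℕ → G) (n : ℕ) : Monoid.CoprodI (fun _ : Bool => G) :=
  Val s [(false, n + 1, 0), (true, n + 1, 0)]

theorem xv_inv (s : Bool → ℕ → G) (n : ℕ) :
    (xv s n)⁻¹ = Val s [(true, 0, n + 1), (false, 0, n + 1)] := by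
  unfold xv
  simp only [Val_cons, Val_nil, mul_one]
  rw [mul_inv_rev, ← map_inv, ← map_inv, mul_inv_rev, mul_inv_rev, inv_inv, inv_inv]

theorem exists_moves (s : Bool → ℕ → G) (L : List (ℕ × Bool)) : ∃ l : List (Bool × ℕ × ℕ),
    l.length = 2 * L.length ∧ Val s l = FreeGroup.lift (xv s) (FreeGroup.mk L) := by
  induction L with
  | nil => exact ⟨[], rfl, by rw [← FreeGroup.one_eq_mk, map_one, Val_nil]⟩
  | cons y L ih =>
    obtain ⟨l, hl, h⟩ := ih
    obtain ⟨n, b⟩ := y
    have e1 : FreeGroup.mk ((n, b) :: L) = FreeGroup.mk [(n, b)] * FreeGroup.mk L := by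
      rw [FreeGroup.mul_mk]
      rfl
    cases b
    · refine ⟨[(true, 0, n + 1), (false, 0, n + 1)] ++ l, by simp [hl]; ring, ?_⟩
      rw [Val_append, h, e1, map_mul, ← xv_inv]
      have : FreeGroup.mk [(n, false)] = (FreeGroup.of n)⁻¹ := by
        rw [FreeGroup.of, FreeGroup.inv_mk]
        rfl
      rw [this, map_inv, FreeGroup.lift_apply_of]
    · refine ⟨[(false, n + 1, 0), (true, n + 1, 0)] ++ l, by simp [hl]; ring, ?_⟩
      rw [Val_append, h, e1, map_mul]
      have : FreeGroup.mk [(n, true)] = FreeGroup.of n := rfl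
      rw [this, FreeGroup.lift_apply_of]
      rfl

theorem ess_rel (w : FreeGroup ℕ) (hw : w ≠ 1) (s : Bool → ℕ → G)
    (hs : ∀ β, Function.Injective (s β)) (h : FreeGroup.lift (fun n => pr G (xv s n)) w = 1) :
    ∃ l : List (Bool × ℕ × ℕ), l.length ≤ 2 * w.norm ∧ Val s l ≠ 1 ∧ pr G (Val s l) = 1 := by
  obtain ⟨l, hl, hv⟩ := exists_moves s w.toWord
  rw [FreeGroup.mk_toWord] at hv
  refine ⟨l, hl.le, ?_, ?_⟩
  · rw [hv]
    intro h1
    apply hw
    apply free_pair s hs
    rw [map_one]
    exact h1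
  · rw [hv]
    have h2 : (pr G).comp (FreeGroup.lift (xv s)) = FreeGroup.lift (fun n => pr G (xv s n)) := by
      ext n
      simp
    have h3 := DFunLike.congr_fun h2 w
    rw [MonoidHom.comp_apply] at h3
    rw [h3, h]

end Pool.Agent.helper20.LL
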