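import Pool.Agent.helper20.LL.OneArc

/-!
# LL-Fam: `D` arcs from `q` to `p`, disjoint, with different holonomies

PROOF by induction on `D` (for fixed `Fb`, `Fz`).  `D = 0`: `I` arbitrary (`fun _ => []`), `Fb' = Fb`, `Fz' = Fz`.
Step: from the induction hypothesis `I`, `Fb₁`, `Fz₁` with `card ≤ card + D a`; apply `one_arc` with `Fb₁`, `Fz₁`, `Fc =` the finite set of the holonomies
`hol φ q (I i ++ [p])`, `i < D` (`(Finset.range D).image …`, needs `DecidableEq V`, use `classical`), `card ≤ D`.  `Start` is monotone in `Fb`, `Fz`.  The new arc is `I D` (`Function.update I D L`, or `fun i => if i = D then L else I i`).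
Its vertices are `Free` for `Fb₁`, `Fz₁`, so `Free` for `Fb`, `Fz` (smaller sets), and `Used` for `Fb₂`, `Fz₂`.  The old vertices are `Used` for `Fb₁ ⊆ Fb₂`, `Fz₁ ⊆ Fz₂` (`Used` is monotone).
Disjoint: the vertices of `I i`, `i < D`, are `Used` for `Fb₁`, `Fz₁`, the new ones are `Free` for `Fb₁`, `Fz₁` (`free_not_used`).
Bound: `Fb₁.card + Fz₁.card + D + 3 a + 10 ≤ Fb.card + Fz.card + 2 D a + D + 3 a + 10 ≤ Fb.card + Fz.card + (D + 1) (2 a + 1) + …`.
-/

set_option autoImplicit false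

namespace Pool.Agent.helper20.LL

open Pool.Agent.helper20.AL

variable {α V : Type*} [Group V] {B : SimpleGraph α} {φ : α → α → V} {lev : α → ℕ} {par : α → α}

private theorem fam_used_mono {m j : ℕ} {Fb Fz Fb' Fz' : Finset α} (hb : Fb ⊆ Fb')
    (hz : Fz ⊆ Fz') {x : α} (hx : Used lev par m j Fb Fz x) : Used lev par m j Fb' Fz' x := by
  rcases hx with ⟨h1, h2, h3⟩ | ⟨h1, h2⟩
  · exact Or.inl ⟨h1, h2, hb h3⟩
  · exact Or.inr ⟨h1, hz h2⟩

private theorem fam_free_anti {m j : ℕ} {Fb Fz Fb' Fz' : Finset α} (hb : Fb ⊆ Fb')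
    (hz : Fz ⊆ Fz') {x : α} (hx : Free lev par m j Fb' Fz' x) : Free lev par m j Fb Fz x := by
  rcases hx with ⟨h1, h2, h3⟩ | ⟨h1, h2⟩
  · exact Or.inl ⟨h1, h2, fun h => h3 (hb h)⟩
  · exact Or.inr ⟨h1, fun h => h2 (hz h)⟩

private theorem fam_start_mono {h a : ℕ} {W Z Fb Fz Fb' Fz' : Finset α} (hb : Fb ⊆ Fb')
    (hz : Fz ⊆ Fz') {q : α} (hq : Start par h a W Z Fb Fz q) : Start par h a W Z Fb' Fz' q := by
  rcases hq with ⟨h1, h2, h3⟩ | ⟨h1, h2, h3⟩
  · exact Or.inl ⟨h1, hz h2, h3⟩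
  · exact Or.inr ⟨h1, hb h2, h3⟩

theorem fam [DecidableEq α] (hT : TreeOn B φ lev par) {h j : ℕ} {p : α} {W Z : Finset α} {M : ℕ}
    (h1 : 1 ≤ h) (hj : h ≤ j) (hW : ∀ w ∈ W, lev w = j ∧ par^[h] w = p)
    (hZ : ∀ z ∈ Z, lev z = j + 1) (hC : Core B.Adj (par^[h - 1]) φ W Z M)
    {a : ℕ} (ha : h + 2 ≤ a) (Fb Fz : Finset α) (q : α) (hq : Start par h a W Z Fb Fz q) (D : ℕ)
    (hM : Fb.card + Fz.card + D * (2 * a + 1) + 3 * a + 10 ≤ M) :
    ∃ (I : ℕ → List α) (Fb' Fz' : Finset α), (∀ i < D, (I i).length + 1 = a) ∧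
      (∀ i < D, (q :: (I i ++ [p])).IsChain B.Adj) ∧ (∀ i < D, (I i).Nodup) ∧
      (∀ i < D, ∀ i' < D, hol φ q (I i ++ [p]) = hol φ q (I i' ++ [p]) → i = i') ∧
      (∀ i < D, ∀ i' < D, i ≠ i' → ∀ x ∈ I i, x ∉ I i') ∧
      Fb ⊆ Fb' ∧ Fz ⊆ Fz' ∧ Fb'.card ≤ Fb.card + D * a ∧ Fz'.card ≤ Fz.card + D * a ∧
      ∀ i < D, ∀ x ∈ I i, Free lev par (j - h) j Fb Fz x ∧ Used lev par (j - h) j Fb' Fz' x := by
  classical
  induction D with
  | zero =>
    exact ⟨fun _ => [], Fb, Fz, fun i hi => absurd hi (Nat.not_lt_zero i),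
      fun i hi => absurd hi (Nat.not_lt_zero i), fun i hi => absurd hi (Nat.not_lt_zero i),
      fun i hi => absurd hi (Nat.not_lt_zero i), fun i hi => absurd hi (Nat.not_lt_zero i),
      Finset.Subset.refl _, Finset.Subset.refl _, by simp, by simp,
      fun i hi => absurd hi (Nat.not_lt_zero i)⟩
  | succ D ih =>
    have e1 : (D + 1) * (2 * a + 1) = D * (2 * a + 1) + (2 * a + 1) := by ring
    have e2 : D * (2 * a + 1) = 2 * (D * a) + D := by ring
    have e3 : (D + 1) * a = D * a + a := by ring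
    obtain ⟨I, Fb₁, Fz₁, hlen, hch, hnd, hhol, hdis, hb, hz, hcb, hcz, hfu⟩ := ih (by omega)
    have hFc : ((Finset.range D).image (fun i => hol φ q (I i ++ [p]))).card ≤ D := by
      have := Finset.card_image_le (s := Finset.range D) (f := fun i => hol φ q (I i ++ [p]))
      rwa [Finset.card_range] at this
    obtain ⟨L, Fb₂, Fz₂, kl, kc, kn, kh, kb, kz, kcb, kcz, kfu⟩ :=
      one_arc hT h1 hj hW hZ hC ha Fb₁ Fz₁
        ((Finset.range D).image (fun i => hol φ q (I i ++ [p]))) q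
        (fam_start_mono hb hz hq) (by omega)
    have hnL : ∀ i < D, hol φ q (I i ++ [p]) ≠ hol φ q (L ++ [p]) := by
      intro i hi he
      exact kh (Finset.mem_image.2 ⟨i, Finset.mem_range.2 hi, he⟩)
    have hdL : ∀ i < D, ∀ x ∈ I i, x ∉ L := by
      intro i hi x hx hxL
      exact free_not_used (Finset.Subset.refl _) (Finset.Subset.refl _) (kfu x hxL).1
        (hfu i hi x hx).2
    have hJ1 : ∀ i < D, (fun i => if i = D then L else I i) i = I i := by
      intro i hi
      exact if_neg (Nat.ne_of_lt hi)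
    have hJ2 : (fun i => if i = D then L else I i) D = L := if_pos rfl
    generalize (fun i => if i = D then L else I i) = J at hJ1 hJ2
    have hcase : ∀ i < D + 1, i < D ∨ i = D := fun i hi => by omega
    refine ⟨J, Fb₂, Fz₂, ?_, ?_, ?_, ?_, ?_, hb.trans kb, hz.trans kz, by omega, by omega, ?_⟩
    · intro i hi
      rcases hcase i hi with h | rfl
      · rw [hJ1 i h]; exact hlen i h
      · rw [hJ2]; exact kl
    · intro i hi
      rcases hcase i hi with h | rfl
      · rw [hJ1 i h]; exact hch i h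
      · rw [hJ2]; exact kc
    · intro i hi
      rcases hcase i hi with h | rfl
      · rw [hJ1 i h]; exact hnd i h
      · rw [hJ2]; exact kn
    · intro i hi i' hi' he
      rcases hcase i hi with h | h <;> rcases hcase i' hi' with h' | h'
      · rw [hJ1 i h, hJ1 i' h'] at he
        exact hhol i h i' h' he
      · subst h'
        rw [hJ1 i h, hJ2] at he
        exact absurd he (hnL i h)
      · subst h
        rw [hJ1 i' h', hJ2] at he
        exact absurd he.symm (hnL i' h')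
      · rw [h, h']
    · intro i hi i' hi' hne x hx
      rcases hcase i hi with h | h <;> rcases hcase i' hi' with h' | h'
      · rw [hJ1 i h] at hx
        rw [hJ1 i' h']
        exact hdis i h i' h' hne x hx
      · subst h'
        rw [hJ1 i h] at hx
        rw [hJ2]
        exact hdL i h x hx
      · subst h
        rw [hJ2] at hx
        rw [hJ1 i' h']
        intro hx'
        exact hdL i' h' x hx' hx
      · exact absurd (h.trans h'.symm) hne
    · intro i hi x hx
      rcases hcase i hi with h | rfl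
      · rw [hJ1 i h] at hx
        exact ⟨(hfu i h x hx).1, fam_used_mono kb kz (hfu i h x hx).2⟩
      · rw [hJ2] at hx
        exact ⟨fam_free_anti hb hz (kfu x hx).1, (kfu x hx).2⟩

end Pool.Agent.helper20.LL
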