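import Pool.Agent.helper20.LL.Defs

/-!
# LL-Insert: rotation of a cycle, and a longer cycle from a path between the end points of an edge

`rot`: PROOF.  `N ≥ 1`.  Put `e i = (i0 + 1 + i) % N` and `g' i = g (e i)`, `β' i = β (e i)`, `a' i = a (e i)`, `b' i = b (e i)`.
`step`: `g' (i + 1) = g ((i0 + 1 + i + 1) % N)` is `g (e i + 1)`: clear if `e i + 1 < N`, and if `e i + 1 = N` then `g N = g 0`.  `closed`: `(i0 + 1 + N) % N = (i0 + 1) % N`.
`inj`, `injq`: `e` is injective on `i < N` (`Nat.ModEq`, or by cases `i0 + 1 + i < N` or `≥ N`).  `e (N - 1) = i0`.  `cnt`: `e` is a bijection of `range N`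
(`Finset.card_bij` or `Finset.card_nbij'`; or `Finset.image e (range N) = range N` and `Finset.card_image_of_injOn`).

`insert`: PROOF.  Let `γ = β (N - 1)` and let `c` be the path of length `2 k - 1`, `c 0 = (g (N - 1), false)`, `c (2 k - 1) = (g (N - 1) * s γ (a (N - 1)), true)`.  The sides alternate: `(c i).2 = false` for
even `i` and `true` for odd `i` (`stp_snd`).  Let `e i` be a letter with `stp (s γ) (e i) (c i) = c (i + 1)`.  So `(c (2 j)).1 * s γ (e (2 j)) = (c (2 j + 1)).1` and
`(c (2 j + 1)).1 = (c (2 j + 2)).1 * s γ (e (2 j + 1))` (unfold `stp`).  The new cycle: for `i < N - 1` as before, for `i = N - 1 + j`, `j < k`: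
`g' i = (c (2 j)).1`, `β' i = γ`, `a' i = e (2 j)`, `b' i = e (2 j + 1)` if `j + 1 < k`, and `b' i = b (N - 1)` if `j + 1 = k`; `g' (N - 1 + k) = g N`.
`step` for `j + 1 = k`: `g' i * s γ (e (2 k - 2)) = (c (2 k - 1)).1 = g (N - 1) * s γ (a (N - 1)) = g N * s γ (b (N - 1))`.
`inj`: `(c (2 j)).1` for `0 < j < k` is not in `F`, which contains all `g i`, `i < N` (`hFg`), and they are different from each other (`IsArc.inj`); for `j = 0` it is `g (N - 1)`.
`injq`: the values are `g i * s (β i) (a i)` for `i < N - 1` and `(c (2 j + 1)).1` for `j < k`; those with `j + 1 < k` are inner vertices, not in `F`, which contains all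
`g i * s (β i) (a i)`, `i < N` (`hFq`); for `j + 1 = k` it is `g (N - 1) * s γ (a (N - 1))`, use `injq` of the old cycle.
`cnt`: `range (N + k - 1)` is `range (N - 1)` and `k` further indices of type `γ` (`Finset.range_eq_Ico`, or induction on `k`, or `Finset.filter` on a disjoint union with
`Finset.card_bij`); `cnt N β δ = cnt (N - 1) β δ + (if γ = δ then 1 else 0)` by `Finset.range_add_one`, `Finset.filter_insert`.
-/

set_option autoImplicit false

namespace Pool.Agent.helper20.LL

open Pool.Agent.Helper20.EC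

variable {G : Type*} [Group G]

theorem Insert_cnt_succ (n : ℕ) (β : ℕ → Bool) (δ : Bool) :
    cnt (n + 1) β δ = cnt n β δ + (if β n = δ then 1 else 0) := by
  unfold cnt
  rw [Finset.range_add_one, Finset.filter_insert]
  by_cases h : β n = δ
  · rw [if_pos h, if_pos h, Finset.card_insert_of_notMem (by simp)]
  · rw [if_neg h, if_neg h, add_zero]

theorem Insert_cnt_congr (n : ℕ) (β β' : ℕ → Bool) (δ : Bool) (h : ∀ i < n, β i = β' i) :
    cnt n β δ = cnt n β' δ := by
  unfold cnt
  congr 1
  apply Finset.filter_congr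
  intro i hi
  rw [h i (Finset.mem_range.1 hi)]

theorem Insert_cnt_add (M k : ℕ) (β β' : ℕ → Bool) (γ δ : Bool) (h : ∀ i < M, β' i = β i)
    (h' : ∀ i, M ≤ i → i < M + k → β' i = γ) :
    cnt (M + k) β' δ = cnt M β δ + (if γ = δ then k else 0) := by
  induction k with
  | zero =>
    rw [add_zero, Insert_cnt_congr M β' β δ h]
    simp
  | succ k ih =>
    rw [← add_assoc, Insert_cnt_succ, ih (fun i h1 h2 => h' i h1 (by omega)),
      h' (M + k) (by omega) (by omega)]
    by_cases hγ : γ = δ
    · rw [if_pos hγ, if_pos hγ, if_pos hγ, add_assoc]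
    · rw [if_neg hγ, if_neg hγ, if_neg hγ]

theorem TriC.rot {s : Bool → ℕ → G} {N : ℕ} {g : ℕ → G} {β : ℕ → Bool} {a b : ℕ → ℕ}
    (h : TriC s N g β a b) {i0 : ℕ} (hi : i0 < N) :
    ∃ (g' : ℕ → G) (β' : ℕ → Bool) (a' b' : ℕ → ℕ), TriC s N g' β' a' b' ∧
      β' (N - 1) = β i0 ∧ ∀ γ, cnt N β' γ = cnt N β γ := by
  have hN : 0 < N := by omega
  obtain ⟨e, he⟩ : ∃ e : ℕ → ℕ, ∀ i, e i = (i0 + 1 + i) % N := ⟨_, fun i => rfl⟩
  have helt : ∀ i, e i < N := fun i => by
    rw [he]
    exact Nat.mod_lt _ hN
  have hinj : ∀ i < N, ∀ j < N, e i = e j → i = j := by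
    intro i hi j hj hij
    rw [he, he] at hij
    have h1 : (i0 + 1 + i) ≡ (i0 + 1 + j) [MOD N] := hij
    exact Nat.ModEq.eq_of_lt_of_lt (Nat.ModEq.add_left_cancel' (i0 + 1) h1) hi hj
  have hg : ∀ i, g (e (i + 1)) = g (e i + 1) := by
    intro i
    have h1 : e (i + 1) = (e i + 1) % N := by
      rw [he, he, Nat.mod_add_mod, add_assoc (i0 + 1)]
    rcases Nat.lt_or_ge (e i + 1) N with h2 | h2
    · rw [h1, Nat.mod_eq_of_lt h2]
    · have h3 : e i + 1 = N := by
        have := helt i
        omega
      rw [h1, h3, Nat.mod_self, h.closed]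
  refine ⟨fun i => g (e i), fun i => β (e i), fun i => a (e i), fun i => b (e i),
    ⟨?_, ?_, ?_, ?_⟩, ?_, ?_⟩
  · intro i _
    show g (e i) * s (β (e i)) (a (e i)) = g (e (i + 1)) * s (β (e i)) (b (e i))
    rw [hg]
    exact h.step _ (helt i)
  · show g (e N) = g (e 0)
    rw [he, he, Nat.add_mod_right, add_zero]
  · intro i hi j hj hij
    exact hinj i hi j hj (h.inj _ (helt i) _ (helt j) hij)
  · intro i hi j hj hb hij
    exact hinj i hi j hj (h.injq _ (helt i) _ (helt j) hb hij)
  · show β (e (N - 1)) = β i0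
    rw [he, show i0 + 1 + (N - 1) = i0 + N by omega, Nat.add_mod_right, Nat.mod_eq_of_lt hi]
  · intro γ
    have himg : (Finset.range N).image e = Finset.range N := by
      apply Finset.eq_of_subset_of_card_le
      · intro x hx
        obtain ⟨i, _, rfl⟩ := Finset.mem_image.1 hx
        exact Finset.mem_range.2 (helt i)
      · rw [Finset.card_image_of_injOn]
        intro i hi j hj hij
        exact hinj i (Finset.mem_range.1 hi) j (Finset.mem_range.1 hj) hij
    unfold cnt
    conv_rhs => rw [← himg, Finset.filter_image]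
    rw [Finset.card_image_of_injOn]
    intro i hi j hj hij
    exact hinj i (Finset.mem_range.1 (Finset.mem_filter.1 hi).1) j
      (Finset.mem_range.1 (Finset.mem_filter.1 hj).1) hij

theorem TriC.insert {s : Bool → ℕ → G} {N : ℕ} {g : ℕ → G} {β : ℕ → Bool} {a b : ℕ → ℕ}
    (h : TriC s N g β a b) (hN : 1 ≤ N) {F : Set G} (hFg : ∀ i < N, g i ∈ F)
    (hFq : ∀ i < N, g i * s (β i) (a i) ∈ F) {k : ℕ} (hk : 1 ≤ k)
    (harc : Ar (s (β (N - 1))) (g (N - 1), false) (g (N - 1) * s (β (N - 1)) (a (N - 1)), true) F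
      (2 * k - 1)) :
    ∃ (g' : ℕ → G) (β' : ℕ → Bool) (a' b' : ℕ → ℕ), TriC s (N + k - 1) g' β' a' b' ∧
      ∀ γ, cnt (N + k - 1) β' γ = cnt N β γ + (if β (N - 1) = γ then k - 1 else 0) := by
  obtain ⟨M, rfl⟩ : ∃ M, N = M + 1 := ⟨N - 1, by omega⟩
  rw [show M + 1 - 1 = M by omega] at harc ⊢
  rw [show M + 1 + k - 1 = M + k by omega]
  obtain ⟨c, hc, c0, cn, hav⟩ := harc
  have hst := hc.step
  choose! e he using hst
  have hside : ∀ i, i ≤ 2 * k - 1 → (c i).2 = Nat.bodd i := by
    intro i
    induction i with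
    | zero =>
      intro _
      rw [c0]
      rfl
    | succ i ih =>
      intro hi
      rw [← he i (by omega), stp_snd, ih (by omega), Nat.bodd_succ]
  have hev : ∀ j < k, (c (2 * j)).1 * s (β M) (e (2 * j)) = (c (2 * j + 1)).1 := by
    intro j hj
    have h1 := hside (2 * j) (by omega)
    rw [Nat.bodd_mul, Nat.bodd_two, Bool.false_and] at h1
    rw [← he (2 * j) (by omega)]
    simp only [stp, h1, cond_false]
  have hod : ∀ j, j + 1 < k → (c (2 * j + 1)).1 =
      (c (2 * (j + 1))).1 * s (β M) (e (2 * j + 1)) := by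
    intro j hj
    have h1 := hside (2 * j + 1) (by omega)
    rw [Nat.bodd_succ, Nat.bodd_mul, Nat.bodd_two, Bool.false_and, Bool.not_false] at h1
    rw [show 2 * (j + 1) = 2 * j + 1 + 1 by ring, ← he (2 * j + 1) (by omega)]
    simp only [stp, h1, cond_true, inv_mul_cancel_right]
  have hc0 : (c 0).1 = g M := by rw [c0]
  have hcn : (c (2 * k - 1)).1 = g M * s (β M) (a M) := by rw [cn]
  have hcn' : ∀ j, j + 1 = k → (c (2 * j + 1)).1 = g M * s (β M) (a M) := by
    intro j hj
    rw [← hcn]
    congr 2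
    omega
  obtain ⟨g', hg1, hg2, hg3⟩ : ∃ g' : ℕ → G, (∀ i < M, g' i = g i) ∧
      (∀ j < k, g' (M + j) = (c (2 * j)).1) ∧ g' (M + k) = g (M + 1) := by
    refine ⟨fun i => if i < M then g i else if i < M + k then (c (2 * (i - M))).1 else g (M + 1),
      ?_, ?_, ?_⟩
    · intro i hi
      exact if_pos hi
    · intro j hj
      show (if M + j < M then g (M + j) else if M + j < M + k then (c (2 * (M + j - M))).1
        else g (M + 1)) = _
      rw [if_neg (by omega), if_pos (by omega), show M + j - M = j by omega]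
    · show (if M + k < M then g (M + k) else if M + k < M + k then (c (2 * (M + k - M))).1
        else g (M + 1)) = _
      rw [if_neg (by omega), if_neg (by omega)]
  obtain ⟨β', hb1, hb2⟩ : ∃ β' : ℕ → Bool, (∀ i < M, β' i = β i) ∧
      (∀ j, β' (M + j) = β M) := by
    refine ⟨fun i => if i < M then β i else β M, ?_, ?_⟩
    · intro i hi
      exact if_pos hi
    · intro j
      exact if_neg (by omega)
  obtain ⟨a', ha1, ha2⟩ : ∃ a' : ℕ → ℕ, (∀ i < M, a' i = a i) ∧
      (∀ j, a' (M + j) = e (2 * j)) := by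
    refine ⟨fun i => if i < M then a i else e (2 * (i - M)), ?_, ?_⟩
    · intro i hi
      exact if_pos hi
    · intro j
      show (if M + j < M then a (M + j) else e (2 * (M + j - M))) = _
      rw [if_neg (by omega), show M + j - M = j by omega]
  obtain ⟨b', hb'1, hb'2, hb'3⟩ : ∃ b' : ℕ → ℕ, (∀ i < M, b' i = b i) ∧
      (∀ j, j + 1 < k → b' (M + j) = e (2 * j + 1)) ∧ (∀ j, j + 1 = k → b' (M + j) = b M) := by
    refine ⟨fun i => if i < M then b i else if i + 1 < M + k then e (2 * (i - M) + 1) else b M,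
      ?_, ?_, ?_⟩
    · intro i hi
      exact if_pos hi
    · intro j hj
      show (if M + j < M then b (M + j) else if M + j + 1 < M + k then e (2 * (M + j - M) + 1)
        else b M) = _
      rw [if_neg (by omega), if_pos (by omega), show M + j - M = j by omega]
    · intro j hj
      show (if M + j < M then b (M + j) else if M + j + 1 < M + k then e (2 * (M + j - M) + 1)
        else b M) = _
      rw [if_neg (by omega), if_neg (by omega)]
  have hgM : g' M = g M := by
    have := hg2 0 (by omega)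
    rw [add_zero, mul_zero] at this
    rw [this, hc0]
  have hgle : ∀ i ≤ M, g' i = g i := by
    intro i hi
    rcases Nat.lt_or_ge i M with h1 | h1
    · exact hg1 i h1
    · rw [show i = M by omega, hgM]
  have hq1 : ∀ i < M, g' i * s (β' i) (a' i) = g i * s (β i) (a i) := by
    intro i hi
    rw [hg1 i hi, hb1 i hi, ha1 i hi]
  have hq2 : ∀ j < k, g' (M + j) * s (β' (M + j)) (a' (M + j)) = (c (2 * j + 1)).1 := by
    intro j hj
    rw [hg2 j hj, hb2, ha2, hev j hj]
  have hnF : ∀ j, 0 < j → j < k → g' (M + j) ∉ F := by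
    intro j h1 h2
    rw [hg2 j h2]
    exact hav (2 * j) (by omega) (by omega)
  have hqnF : ∀ j, j + 1 < k → (c (2 * j + 1)).1 ∉ F := by
    intro j h1
    exact hav (2 * j + 1) (by omega) (by omega)
  refine ⟨g', β', a', b', ⟨?_, ?_, ?_, ?_⟩, ?_⟩
  · intro i hi
    rcases Nat.lt_or_ge i M with h1 | h1
    · rw [hq1 i h1, hgle (i + 1) (by omega), hb1 i h1, hb'1 i h1]
      exact h.step i (by omega)
    · obtain ⟨j, rfl⟩ : ∃ j, i = M + j := ⟨i - M, by omega⟩
      rw [hq2 j (by omega), hb2]
      rcases Nat.lt_or_ge (j + 1) k with h2 | h2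
      · rw [hod j h2, add_assoc, hg2 (j + 1) h2, hb'2 j h2]
      · have h3 : j + 1 = k := by omega
        rw [hcn' j h3, add_assoc, h3, hg3, hb'3 j h3]
        exact h.step M (by omega)
  · rw [hg3, h.closed, hgle 0 (by omega)]
  · have key : ∀ i j, i < j → j < M + k → g' i ≠ g' j := by
      intro i j hij hj heq
      rcases Nat.lt_or_ge M j with h1 | h1
      · obtain ⟨j, rfl⟩ : ∃ j', j = M + j' := ⟨j - M, by omega⟩
        rcases Nat.lt_or_ge M i with h2 | h2
        · obtain ⟨i, rfl⟩ : ∃ i', i = M + i' := ⟨i - M, by omega⟩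
          rw [hg2 i (by omega), hg2 j (by omega)] at heq
          have := hc.inj (2 * i) (by omega) (2 * j) (by omega) heq
          omega
        · apply hnF j (by omega) (by omega)
          rw [← heq, hgle i h2]
          exact hFg i (by omega)
      · rw [hgle i (by omega), hgle j h1] at heq
        have := h.inj i (by omega) j (by omega) heq
        omega
    intro i hi j hj hij
    rcases lt_trichotomy i j with h1 | h1 | h1
    · exact absurd hij (key i j h1 hj)
    · exact h1
    · exact absurd hij.symm (key j i h1 hi)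
  · have key : ∀ i j, i < j → j < M + k → β' i = β' j →
        g' i * s (β' i) (a' i) ≠ g' j * s (β' j) (a' j) := by
      intro i j hij hj hbb heq
      rcases Nat.lt_or_ge j M with h1 | h1
      · rw [hq1 i (by omega), hq1 j h1] at heq
        rw [hb1 i (by omega), hb1 j h1] at hbb
        have := h.injq i (by omega) j (by omega) hbb heq
        omega
      · obtain ⟨j, rfl⟩ : ∃ j', j = M + j' := ⟨j - M, by omega⟩
        rcases Nat.lt_or_ge i M with h2 | h2
        · rw [hq1 i h2, hq2 j (by omega)] at heq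
          rcases Nat.lt_or_ge (j + 1) k with h3 | h3
          · apply hqnF j h3
            rw [← heq]
            exact hFq i (by omega)
          · rw [hcn' j (by omega)] at heq
            rw [hb1 i h2, hb2] at hbb
            have := h.injq i (by omega) M (by omega) hbb heq
            omega
        · obtain ⟨i, rfl⟩ : ∃ i', i = M + i' := ⟨i - M, by omega⟩
          rw [hq2 i (by omega), hq2 j (by omega)] at heq
          have := hc.inj (2 * i + 1) (by omega) (2 * j + 1) (by omega) heq
          omega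
    intro i hi j hj hb hij
    rcases lt_trichotomy i j with h1 | h1 | h1
    · exact absurd hij (key i j h1 hj hb)
    · exact h1
    · exact absurd hij.symm (key j i h1 hi hb.symm)
  · intro δ
    rw [Insert_cnt_add M k β β' (β M) δ hb1, Insert_cnt_succ]
    · by_cases hδ : β M = δ
      · simp only [if_pos hδ]
        omega
      · simp only [if_neg hδ]
    · intro i h1 h2
      obtain ⟨j, rfl⟩ : ∃ j', i = M + j' := ⟨i - M, by omega⟩
      exact hb2 j

end Pool.Agent.helper20.LL
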