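import Pool.Agent.helper20.LL.Defs
import Pool.Agent.helper20.EC.Ultra

/-!
# LL-Limit: a limit group for two sequences of letters (copy and adapt `Pool.Agent.helper20.EC.Ultra`)

PROOF.  Use the same index ultrafilter `Om` on `(ℕ → ℕ) × ℕ` as in `EC.Ultra`.  Let `ev p : FreeGroup (Bool × ℕ) →* Γ p.2` be `FreeGroup.lift (fun x => τ p.2 x.1 (p.1 x.2))`,
`N` the normal subgroup of all `a` with `∀ᶠ p in Om, ev p a = 1`, `Q = FreeGroup (Bool × ℕ) ⧸ N` (in `Type`), `s β n` the class of `of (β, n)`.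
`Homog (s β)`: as `homog_sQ`; the maps `ins i` act on `Bool × ℕ` by `Prod.map id (ins i)`; `evl_congr`, `evl_map`, `map_ins_mem` become statements on `FreeGroup (Bool × ℕ)`
(`ev (x, D) (FreeGroup.map (Prod.map id (ins i)) a) = ev (x ∘ ins i, D) a`), with the same proofs.  `run (s β) l (1, b)` is the class of `run (fun n => of (β, n)) l (1, b)` (`run_hom`).
`s β 0 ≠ s β 1`: as `sQ_ne`.
Law: let `f : ℕ → Q`, `f n` the class of `F n`; then `FreeGroup.lift f w` is the class of `FreeGroup.lift F w` (`FreeGroup.ext_hom`, compare the proof of `group_law` in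
`EC.Law`) and `ev p (FreeGroup.lift F w) = FreeGroup.lift (fun n => ev p (F n)) w = 1` for all `p` by `hlaw`.
Transfer: as `transfer`: take representatives of `g i`, `i ≤ N` (`N = m₁ + m₂`); the finitely many equalities `g i * s (β i) (a i) = g (i + 1) * s (β i) (b i)`, `g N = g 0` and the finitely many
inequalities (`i ≠ j`: `g i ≠ g j`; and `g i * s (β i) (a i) ≠ g j * s (β j) (a j)` if `β i = β j`) hold for `ev p` of the representatives for almost all `p`;
take one such `p = (x, D)`.  The function `β` and the letters stay the same.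
-/

set_option autoImplicit false

namespace Pool.Agent.helper20.LL

open Pool.Agent.Helper20.EC Filter

section

variable {Γ : ℕ → Type*} [∀ D, Group (Γ D)] (τ : ∀ D, Bool → ℕ → Γ D)

/-- Evaluation of free words in two sequences of letters. -/
def Limit_ev (p : (ℕ → ℕ) × ℕ) : FreeGroup (Bool × ℕ) →* Γ p.2 :=
  FreeGroup.lift (fun y => τ p.2 y.1 (p.1 y.2))

theorem Limit_ev_of (p : (ℕ → ℕ) × ℕ) (y : Bool × ℕ) :
    Limit_ev τ p (FreeGroup.of y) = τ p.2 y.1 (p.1 y.2) := by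
  simp [Limit_ev]

/-- Words which are generically trivial. -/
def Limit_N : Subgroup (FreeGroup (Bool × ℕ)) where
  carrier := {a | ∀ᶠ p in (Om : Filter ((ℕ → ℕ) × ℕ)), Limit_ev τ p a = 1}
  mul_mem' := by
    intro a b ha hb
    filter_upwards [ha, hb] with p h1 h2
    rw [map_mul, h1, h2, one_mul]
  one_mem' := Eventually.of_forall fun p => map_one _
  inv_mem' := by
    intro a ha
    filter_upwards [ha] with p h1
    rw [map_inv, h1, inv_one]

theorem Limit_mem (a : FreeGroup (Bool × ℕ)) :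
    a ∈ Limit_N τ ↔ ∀ᶠ p in (Om : Filter ((ℕ → ℕ) × ℕ)), Limit_ev τ p a = 1 := Iff.rfl

instance Limit_normal : (Limit_N τ).Normal where
  conj_mem := by
    intro a ha g
    filter_upwards [ha] with p h1
    rw [map_mul, map_mul, h1, mul_one, map_inv, mul_inv_cancel]

theorem Limit_ev_congr (a : FreeGroup (Bool × ℕ)) : ∃ n0, ∀ x y : ℕ → ℕ, (∀ n < n0, x n = y n) →
    ∀ D, Limit_ev τ (x, D) a = Limit_ev τ (y, D) a := by
  induction a using FreeGroup.induction_on with
  | C1 => exact ⟨0, fun x y _ D => by rw [map_one, map_one]⟩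
  | of z => exact ⟨z.2 + 1, fun x y h D => by
      rw [Limit_ev_of, Limit_ev_of]
      show τ D z.1 (x z.2) = τ D z.1 (y z.2)
      rw [h z.2 (Nat.lt_succ_self _)]⟩
  | inv_of z _ => exact ⟨z.2 + 1, fun x y h D => by
      rw [map_inv, map_inv, Limit_ev_of, Limit_ev_of]
      show (τ D z.1 (x z.2))⁻¹ = (τ D z.1 (y z.2))⁻¹
      rw [h z.2 (Nat.lt_succ_self _)]⟩
  | mul a b ha hb =>
    obtain ⟨n1, h1⟩ := ha
    obtain ⟨n2, h2⟩ := hb
    refine ⟨max n1 n2, fun x y h D => ?_⟩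
    rw [map_mul, map_mul, h1 x y (fun n hn => h n (lt_max_of_lt_left hn)) D,
      h2 x y (fun n hn => h n (lt_max_of_lt_right hn)) D]

theorem Limit_ev_map (a : FreeGroup (Bool × ℕ)) (i : ℕ) (x : ℕ → ℕ) (D : ℕ) :
    Limit_ev τ (x, D) (FreeGroup.map (Prod.map id (ins i)) a) = Limit_ev τ (x ∘ ins i, D) a := by
  have : (Limit_ev τ (x, D)).comp (FreeGroup.map (Prod.map id (ins i))) =
      Limit_ev τ (x ∘ ins i, D) := by
    ext n
    simp [Limit_ev]
  exact DFunLike.congr_fun this a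

theorem Limit_map_mem (a : FreeGroup (Bool × ℕ)) (i : ℕ) :
    FreeGroup.map (Prod.map id (ins i)) a ∈ Limit_N τ ↔ a ∈ Limit_N τ := by
  rw [Limit_mem, Limit_mem, ev_Om, ev_Om]
  obtain ⟨n0, h0⟩ := Limit_ev_congr τ a
  apply eventually_congr
  filter_upwards [U_ge (max n0 i + 1)] with n hn
  obtain ⟨n, rfl⟩ : ∃ k, n = k + 1 := ⟨n - 1, by omega⟩
  have h1 : i ≤ n := le_trans (le_max_right n0 i) (by omega)
  have h2 : n0 ≤ n := le_trans (le_max_left n0 i) (by omega)
  simp only [Limit_ev_map]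
  rw [ev_ins i n h1 (fun x => ∀ᶠ D in (U : Filter ℕ), Limit_ev τ (x, D) a = 1),
    ← ev_ins n n le_rfl (fun x => ∀ᶠ D in (U : Filter ℕ), Limit_ev τ (x, D) a = 1)]
  apply eventually_congr
  apply Eventually.of_forall
  intro x
  apply eventually_congr
  apply Eventually.of_forall
  intro D
  have h3 : Limit_ev τ (x ∘ ins n, D) a = Limit_ev τ (x, D) a := by
    apply h0
    intro j hj
    simp only [Function.comp, ins]
    rw [if_pos (by omega)]
  rw [h3]

/-- The letters in the limit group. -/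
def Limit_s (β : Bool) (n : ℕ) : FreeGroup (Bool × ℕ) ⧸ Limit_N τ :=
  (FreeGroup.of (β, n) : FreeGroup (Bool × ℕ))

theorem Limit_run (β : Bool) (l : List ℕ) (g : FreeGroup (Bool × ℕ)) (b : Bool) :
    run (Limit_s τ β) l ((g : FreeGroup (Bool × ℕ) ⧸ Limit_N τ), b) =
      ((((run (fun n => FreeGroup.of (β, n)) l (g, b)).1 : FreeGroup (Bool × ℕ)) :
        FreeGroup (Bool × ℕ) ⧸ Limit_N τ),
        (run (fun n => (FreeGroup.of (β, n) : FreeGroup (Bool × ℕ))) l (g, b)).2) :=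
  run_hom (QuotientGroup.mk' (Limit_N τ)) (fun n => FreeGroup.of (β, n)) l g b

theorem Limit_homog (β : Bool) : Homog (Limit_s τ β) := by
  intro φ hφ l b
  have h1 : ∀ l, (run (Limit_s τ β) l (1, b)).1 = 1 ↔
      (run (fun n => FreeGroup.of (β, n)) l (1, b)).1 ∈ Limit_N τ := by
    intro l
    have := Limit_run τ β l 1 b
    rw [QuotientGroup.mk_one] at this
    rw [this, QuotientGroup.eq_one_iff]
  rw [h1, h1]
  apply mono_of_ins' (fun l => (run (fun n => FreeGroup.of (β, n)) l (1, b)).1 ∈ Limit_N τ)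
    _ φ hφ
  intro i l
  have h2 : (run (fun n => FreeGroup.of (β, n)) (l.map (ins i)) (1, b)).1 =
      FreeGroup.map (Prod.map id (ins i))
        (run (fun n => (FreeGroup.of (β, n) : FreeGroup (Bool × ℕ))) l (1, b)).1 := by
    rw [run_letters]
    have := run_hom (FreeGroup.map (Prod.map id (ins i)))
      (fun n => (FreeGroup.of (β, n) : FreeGroup (Bool × ℕ))) l 1 b
    rw [map_one] at this
    simp only [FreeGroup.map.of, Prod.map, id] at this
    rw [this]
  rw [h2, Limit_map_mem]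

theorem Limit_eq_of_mk {a b : FreeGroup (Bool × ℕ)}
    (h : (a : FreeGroup (Bool × ℕ) ⧸ Limit_N τ) = b) :
    ∀ᶠ p in (Om : Filter ((ℕ → ℕ) × ℕ)), Limit_ev τ p a = Limit_ev τ p b := by
  rw [QuotientGroup.eq] at h
  filter_upwards [h] with p hp
  rw [map_mul, map_inv, inv_mul_eq_one] at hp
  exact hp

theorem Limit_ne_of_mk {a b : FreeGroup (Bool × ℕ)}
    (h : (a : FreeGroup (Bool × ℕ) ⧸ Limit_N τ) ≠ b) :
    ∀ᶠ p in (Om : Filter ((ℕ → ℕ) × ℕ)), Limit_ev τ p a ≠ Limit_ev τ p b := by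
  rw [Ne, QuotientGroup.eq, Limit_mem, ← Ultrafilter.eventually_not] at h
  filter_upwards [h] with p hp
  rw [map_mul, map_inv, inv_mul_eq_one] at hp
  exact hp

theorem Limit_s_ne (hτ : ∀ D β, ∀ i < D, ∀ j < D, τ D β i = τ D β j → i = j) (β : Bool) :
    Limit_s τ β 0 ≠ Limit_s τ β 1 := by
  intro h
  have h1 := Limit_eq_of_mk τ h
  rw [ev_Om] at h1
  have h2 : ∀ᶠ n in (U : Filter ℕ), ∀ᶠ x in (Fu n : Filter (ℕ → ℕ)), ∀ᶠ D in (U : Filter ℕ),
      Limit_ev τ (x, D) (FreeGroup.of (β, 0)) ≠ Limit_ev τ (x, D) (FreeGroup.of (β, 1)) := by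
    filter_upwards [U_ge 2] with n hn
    obtain ⟨n, rfl⟩ : ∃ k, n = k + 2 := ⟨n - 2, by omega⟩
    rw [ev_Fu_succ]
    apply Eventually.of_forall
    intro t0
    rw [ev_Fu_succ]
    filter_upwards [U_ge (t0 + 1)] with t1 ht1
    apply Eventually.of_forall
    intro x
    filter_upwards [U_ge (t1 + 1)] with D hD
    rw [Limit_ev_of, Limit_ev_of]
    intro e
    have := hτ D β _ (by show t0 < D; omega) _ (by show t1 < D; omega) e
    have : t0 = t1 := this
    omega
  obtain ⟨n, hn⟩ := (h1.and h2).exists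
  obtain ⟨x, hx⟩ := (hn.1.and hn.2).exists
  obtain ⟨D, hD⟩ := (hx.1.and hx.2).exists
  exact hD.2 hD.1

theorem Limit_law (w : FreeGroup ℕ)
    (hlaw : ∀ (D : ℕ) (f : ℕ → Γ D), FreeGroup.lift f w = 1)
    (f : ℕ → FreeGroup (Bool × ℕ) ⧸ Limit_N τ) : FreeGroup.lift f w = 1 := by
  have hF : ∀ n, ∃ F : FreeGroup (Bool × ℕ), (F : FreeGroup (Bool × ℕ) ⧸ Limit_N τ) = f n :=
    fun n => QuotientGroup.mk_surjective _
  choose F hF using hF
  have e1 : (QuotientGroup.mk' (Limit_N τ)).comp (FreeGroup.lift F) = FreeGroup.lift f := by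
    ext n
    simp [hF]
  have h1 := DFunLike.congr_fun e1 w
  rw [MonoidHom.comp_apply] at h1
  rw [← h1]
  refine (QuotientGroup.eq_one_iff _).2 ?_
  rw [Limit_mem]
  apply Eventually.of_forall
  intro p
  have e2 : (Limit_ev τ p).comp (FreeGroup.lift F) =
      FreeGroup.lift (fun n => Limit_ev τ p (F n)) := by
    ext n
    simp
  have h2 := DFunLike.congr_fun e2 w
  rw [MonoidHom.comp_apply] at h2
  rw [h2]
  exact hlaw p.2 _

/-- Transfer of cycles from the limit group to the groups. -/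
theorem Limit_transfer (m₁ m₂ : ℕ) (h : TC (Limit_s τ) m₁ m₂) :
    ∃ (D : ℕ) (x : ℕ → ℕ), TC (fun β i => τ D β (x i)) m₁ m₂ := by
  classical
  obtain ⟨g, β, a, b, hT, hc⟩ := h
  have hg : ∀ i, ∃ g' : FreeGroup (Bool × ℕ), (g' : FreeGroup (Bool × ℕ) ⧸ Limit_N τ) = g i :=
    fun i => QuotientGroup.mk_surjective _
  choose g' hg using hg
  set N := m₁ + m₂ with hN
  have hval : ∀ i (c : Bool × ℕ), ((g' i * FreeGroup.of c : FreeGroup (Bool × ℕ)) :
      FreeGroup (Bool × ℕ) ⧸ Limit_N τ) = g i * Limit_s τ c.1 c.2 := by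
    intro i c
    rw [QuotientGroup.mk_mul, hg i]
    rfl
  have hev : ∀ (p : (ℕ → ℕ) × ℕ) i (c : Bool × ℕ), Limit_ev τ p (g' i * FreeGroup.of c) =
      Limit_ev τ p (g' i) * τ p.2 c.1 (p.1 c.2) := by
    intro p i c
    rw [map_mul, Limit_ev_of]
  have e1 : ∀ᶠ p in (Om : Filter ((ℕ → ℕ) × ℕ)), ∀ i ∈ Set.Iio N,
      Limit_ev τ p (g' i) * τ p.2 (β i) (p.1 (a i)) =
        Limit_ev τ p (g' (i + 1)) * τ p.2 (β i) (p.1 (b i)) := by
    rw [Filter.eventually_all_finite (Set.finite_Iio N)]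
    intro i hi
    have h4 := Limit_eq_of_mk τ (a := g' i * FreeGroup.of (β i, a i))
      (b := g' (i + 1) * FreeGroup.of (β i, b i)) (by
        rw [hval, hval]
        exact hT.step i hi)
    filter_upwards [h4] with p hp
    rw [hev, hev] at hp
    exact hp
  have e2 : ∀ᶠ p in (Om : Filter ((ℕ → ℕ) × ℕ)), Limit_ev τ p (g' N) = Limit_ev τ p (g' 0) :=
    Limit_eq_of_mk τ (by rw [hg, hg, hT.closed])
  have e3 : ∀ᶠ p in (Om : Filter ((ℕ → ℕ) × ℕ)), ∀ i ∈ Set.Iio N, ∀ j ∈ Set.Iio N,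
      Limit_ev τ p (g' i) = Limit_ev τ p (g' j) → i = j := by
    rw [Filter.eventually_all_finite (Set.finite_Iio N)]
    intro i hi
    rw [Filter.eventually_all_finite (Set.finite_Iio N)]
    intro j hj
    by_cases hij : i = j
    · exact Eventually.of_forall fun p _ => hij
    · have h5 : ((g' i : FreeGroup (Bool × ℕ)) : FreeGroup (Bool × ℕ) ⧸ Limit_N τ) ≠ g' j := by
        rw [hg, hg]
        exact fun e => hij (hT.inj i hi j hj e)
      filter_upwards [Limit_ne_of_mk τ h5] with p hp e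
      exact absurd e hp
  have e4 : ∀ᶠ p in (Om : Filter ((ℕ → ℕ) × ℕ)), ∀ i ∈ Set.Iio N, ∀ j ∈ Set.Iio N,
      β i = β j → Limit_ev τ p (g' i) * τ p.2 (β i) (p.1 (a i)) =
        Limit_ev τ p (g' j) * τ p.2 (β j) (p.1 (a j)) → i = j := by
    rw [Filter.eventually_all_finite (Set.finite_Iio N)]
    intro i hi
    rw [Filter.eventually_all_finite (Set.finite_Iio N)]
    intro j hj
    by_cases hij : i = j
    · exact Eventually.of_forall fun p _ _ => hij
    by_cases hb : β i = β j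
    · have h5 : ((g' i * FreeGroup.of (β i, a i) : FreeGroup (Bool × ℕ)) :
          FreeGroup (Bool × ℕ) ⧸ Limit_N τ) ≠
          ((g' j * FreeGroup.of (β j, a j) : FreeGroup (Bool × ℕ)) :
            FreeGroup (Bool × ℕ) ⧸ Limit_N τ) := by
        rw [hval, hval]
        exact fun e => hij (hT.injq i hi j hj hb e)
      filter_upwards [Limit_ne_of_mk τ h5] with p hp _ e
      rw [hev, hev] at hp
      exact absurd e hp
    · exact Eventually.of_forall fun p h => absurd h hb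
  obtain ⟨p, hp1, hp2, hp3, hp4⟩ := (e1.and (e2.and (e3.and e4))).exists
  refine ⟨p.2, p.1, fun i => Limit_ev τ p (g' i), β, a, b, ⟨?_, ?_, ?_, ?_⟩, hc⟩
  · intro i hi
    exact hp1 i hi
  · exact hp2
  · intro i hi j hj h
    exact hp3 i hi j hj h
  · intro i hi j hj hb h
    exact hp4 i hi j hj hb h

end

theorem limit.{u} {Γ : ℕ → Type u} [∀ D, Group (Γ D)] (τ : ∀ D, Bool → ℕ → Γ D)
    (hτ : ∀ D β, ∀ i < D, ∀ j < D, τ D β i = τ D β j → i = j) (w : FreeGroup ℕ)
    (hlaw : ∀ (D : ℕ) (f : ℕ → Γ D), FreeGroup.lift f w = 1) :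
    ∃ (Q : Type) (_ : Group Q) (s : Bool → ℕ → Q), (∀ β, Homog (s β)) ∧ (∀ β, s β 0 ≠ s β 1) ∧
      (∀ f : ℕ → Q, FreeGroup.lift f w = 1) ∧
      ∀ m₁ m₂, TC s m₁ m₂ → ∃ (D : ℕ) (x : ℕ → ℕ), TC (fun β i => τ D β (x i)) m₁ m₂ :=
  ⟨FreeGroup (Bool × ℕ) ⧸ Limit_N τ, inferInstance, Limit_s τ, Limit_homog τ,
    Limit_s_ne τ hτ, Limit_law τ w hlaw, Limit_transfer τ⟩

end Pool.Agent.helper20.LL
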