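import Pool.Agent.helper20.LL.Defs
import Pool.Agent.helper20.EC.Ultra

/-! # LL-LimitS (helper20): the limit group, with finitely many words instead of a law -/

set_option autoImplicit false

namespace Pool.Agent.helper20.LL

open Pool.Agent.Helper20.EC Filter

section

variable {Γ : ℕ → Type*} [∀ D, Group (Γ D)] (τ : ∀ D, Bool → ℕ → Γ D)

/-- Evaluation of free words in two sequences of letters. -/
def evs (p : (ℕ → ℕ) × ℕ) : FreeGroup (Bool × ℕ) →* Γ p.2 :=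
  FreeGroup.lift (fun x => τ p.2 x.1 (p.1 x.2))

@[simp] theorem evs_of (p : (ℕ → ℕ) × ℕ) (x : Bool × ℕ) :
    evs τ p (FreeGroup.of x) = τ p.2 x.1 (p.1 x.2) := by
  simp [evs]

/-- Words which are generically trivial. -/
def Ns : Subgroup (FreeGroup (Bool × ℕ)) where
  carrier := {a | ∀ᶠ p in (Om : Filter ((ℕ → ℕ) × ℕ)), evs τ p a = 1}
  mul_mem' := by
    intro a b ha hb
    filter_upwards [ha, hb] with p h1 h2
    rw [map_mul, h1, h2, one_mul]
  one_mem' := Eventually.of_forall fun p => map_one _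
  inv_mem' := by
    intro a ha
    filter_upwards [ha] with p h1
    rw [map_inv, h1, inv_one]

theorem mem_Ns (a : FreeGroup (Bool × ℕ)) :
    a ∈ Ns τ ↔ ∀ᶠ p in (Om : Filter ((ℕ → ℕ) × ℕ)), evs τ p a = 1 := Iff.rfl

instance : (Ns τ).Normal where
  conj_mem := by
    intro a ha g
    filter_upwards [ha] with p h1
    rw [map_mul, map_mul, h1, mul_one, map_inv, mul_inv_cancel]

theorem evs_congr (a : FreeGroup (Bool × ℕ)) : ∃ n0, ∀ x y : ℕ → ℕ, (∀ n < n0, x n = y n) →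
    ∀ D, evs τ (x, D) a = evs τ (y, D) a := by
  induction a using FreeGroup.induction_on with
  | C1 => exact ⟨0, fun x y _ D => by rw [map_one, map_one]⟩
  | of n => exact ⟨n.2 + 1, fun x y h D => by
      rw [evs_of, evs_of]
      show τ D n.1 (x n.2) = τ D n.1 (y n.2)
      rw [h n.2 (Nat.lt_succ_self n.2)]⟩
  | inv_of n _ => exact ⟨n.2 + 1, fun x y h D => by
      rw [map_inv, map_inv, evs_of, evs_of]
      show (τ D n.1 (x n.2))⁻¹ = (τ D n.1 (y n.2))⁻¹
      rw [h n.2 (Nat.lt_succ_self n.2)]⟩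
  | mul a b ha hb =>
    obtain ⟨n1, h1⟩ := ha
    obtain ⟨n2, h2⟩ := hb
    refine ⟨max n1 n2, fun x y h D => ?_⟩
    rw [map_mul, map_mul, h1 x y (fun n hn => h n (lt_max_of_lt_left hn)) D,
      h2 x y (fun n hn => h n (lt_max_of_lt_right hn)) D]

theorem evs_map (a : FreeGroup (Bool × ℕ)) (i : ℕ) (x : ℕ → ℕ) (D : ℕ) :
    evs τ (x, D) (FreeGroup.map (Prod.map id (ins i)) a) = evs τ (x ∘ ins i, D) a := by
  have : (evs τ (x, D)).comp (FreeGroup.map (Prod.map id (ins i))) =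
      evs τ (x ∘ ins i, D) := by
    ext n
    simp
  exact DFunLike.congr_fun this a

theorem map_ins_mem_Ns (a : FreeGroup (Bool × ℕ)) (i : ℕ) :
    FreeGroup.map (Prod.map id (ins i)) a ∈ Ns τ ↔ a ∈ Ns τ := by
  rw [mem_Ns, mem_Ns, ev_Om, ev_Om]
  obtain ⟨n0, h0⟩ := evs_congr τ a
  apply eventually_congr
  filter_upwards [U_ge (max n0 i + 1)] with n hn
  obtain ⟨n, rfl⟩ : ∃ k, n = k + 1 := ⟨n - 1, by omega⟩
  have h1 : i ≤ n := le_trans (le_max_right n0 i) (by omega)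
  have h2 : n0 ≤ n := le_trans (le_max_left n0 i) (by omega)
  simp only [evs_map]
  rw [ev_ins i n h1 (fun x => ∀ᶠ D in (U : Filter ℕ), evs τ (x, D) a = 1),
    ← ev_ins n n le_rfl (fun x => ∀ᶠ D in (U : Filter ℕ), evs τ (x, D) a = 1)]
  apply eventually_congr
  apply Eventually.of_forall
  intro x
  apply eventually_congr
  apply Eventually.of_forall
  intro D
  have h3 : evs τ (x ∘ ins n, D) a = evs τ (x, D) a := by
    apply h0
    intro j hj
    simp only [Function.comp, ins]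
    rw [if_pos (by omega)]
  rw [h3]

/-- The letters in the limit group. -/
def sS (β : Bool) (n : ℕ) : FreeGroup (Bool × ℕ) ⧸ Ns τ :=
  (FreeGroup.of (β, n) : FreeGroup (Bool × ℕ))

theorem run_sS (β : Bool) (l : List ℕ) (g : FreeGroup (Bool × ℕ)) (b : Bool) :
    run (sS τ β) l ((g : FreeGroup (Bool × ℕ) ⧸ Ns τ), b) =
      ((((run (fun n => FreeGroup.of (β, n)) l (g, b)).1 : FreeGroup (Bool × ℕ)) :
        FreeGroup (Bool × ℕ) ⧸ Ns τ),
        (run (fun n => FreeGroup.of (β, n) : ℕ → FreeGroup (Bool × ℕ)) l (g, b)).2) :=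
  run_hom (QuotientGroup.mk' (Ns τ)) (fun n => FreeGroup.of (β, n)) l g b

theorem homog_sS (β : Bool) : Homog (sS τ β) := by
  intro φ hφ l b
  have h1 : ∀ l, (run (sS τ β) l (1, b)).1 = 1 ↔
      (run (fun n => FreeGroup.of (β, n)) l (1, b)).1 ∈ Ns τ := by
    intro l
    have := run_sS τ β l 1 b
    rw [QuotientGroup.mk_one] at this
    rw [this, QuotientGroup.eq_one_iff]
  rw [h1, h1]
  apply mono_of_ins' (fun l => (run (fun n => FreeGroup.of (β, n)) l (1, b)).1 ∈ Ns τ) _ φ hφ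
  intro i l
  have h2 : (run (fun n => FreeGroup.of (β, n)) (l.map (ins i)) (1, b)).1 =
      FreeGroup.map (Prod.map id (ins i))
        (run (fun n => FreeGroup.of (β, n) : ℕ → FreeGroup (Bool × ℕ)) l (1, b)).1 := by
    rw [run_letters]
    have := run_hom (FreeGroup.map (Prod.map id (ins i))) (fun n => FreeGroup.of (β, n)) l 1 b
    rw [map_one] at this
    simp only [FreeGroup.map.of, Prod.map_apply, id_eq] at this
    rw [this]
  rw [h2, map_ins_mem_Ns]

theorem evs_eq_of_mk {a b : FreeGroup (Bool × ℕ)}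
    (h : (a : FreeGroup (Bool × ℕ) ⧸ Ns τ) = b) :
    ∀ᶠ p in (Om : Filter ((ℕ → ℕ) × ℕ)), evs τ p a = evs τ p b := by
  rw [QuotientGroup.eq] at h
  filter_upwards [h] with p hp
  rw [map_mul, map_inv, inv_mul_eq_one] at hp
  exact hp

theorem evs_ne_of_mk {a b : FreeGroup (Bool × ℕ)}
    (h : (a : FreeGroup (Bool × ℕ) ⧸ Ns τ) ≠ b) :
    ∀ᶠ p in (Om : Filter ((ℕ → ℕ) × ℕ)), evs τ p a ≠ evs τ p b := by
  rw [Ne, QuotientGroup.eq, mem_Ns, ← Ultrafilter.eventually_not] at h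
  filter_upwards [h] with p hp
  rw [map_mul, map_inv, inv_mul_eq_one] at hp
  exact hp

theorem sS_ne (hτ : ∀ D β, ∀ i < D, ∀ j < D, τ D β i = τ D β j → i = j) (β : Bool) :
    sS τ β 0 ≠ sS τ β 1 := by
  intro h
  have h1 := evs_eq_of_mk τ h
  rw [ev_Om] at h1
  have h2 : ∀ᶠ n in (U : Filter ℕ), ∀ᶠ x in (Fu n : Filter (ℕ → ℕ)), ∀ᶠ D in (U : Filter ℕ),
      evs τ (x, D) (FreeGroup.of (β, 0)) ≠ evs τ (x, D) (FreeGroup.of (β, 1)) := by
    filter_upwards [U_ge 2] with n hn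
    obtain ⟨n, rfl⟩ : ∃ k, n = k + 2 := ⟨n - 2, by omega⟩
    rw [ev_Fu_succ]
    apply Eventually.of_forall
    intro t0
    rw [ev_Fu_succ]
    filter_upwards [U_ge (t0 + 1)] with t1 ht1
    apply Eventually.of_forall
    intro x
    filter_upwards [U_ge (t1 + 1)] with D hD
    rw [evs_of, evs_of]
    intro e
    have := hτ D β _ (by show t0 < D; omega) _ (by show t1 < D; omega) e
    have : t0 = t1 := this
    omega
  obtain ⟨n, hn⟩ := (h1.and h2).exists
  obtain ⟨x, hx⟩ := (hn.1.and hn.2).exists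
  obtain ⟨D, hD⟩ := (hx.1.and hx.2).exists
  exact hD.2 hD.1

theorem words_sS (S : Set (FreeGroup ℕ)) (hS : S.Finite)
    (hlaw : ∀ (D : ℕ) (f : ℕ → Γ D), ∃ w ∈ S, FreeGroup.lift f w = 1)
    (f : ℕ → FreeGroup (Bool × ℕ) ⧸ Ns τ) : ∃ w ∈ S, FreeGroup.lift f w = 1 := by
  have hF : ∀ n, ∃ g : FreeGroup (Bool × ℕ), (g : FreeGroup (Bool × ℕ) ⧸ Ns τ) = f n := fun n =>
    QuotientGroup.mk_surjective _
  choose F hF using hF
  have h1 : ∀ᶠ p in (Om : Filter ((ℕ → ℕ) × ℕ)),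
      ∃ w ∈ S, evs τ p (FreeGroup.lift F w) = 1 := by
    refine Eventually.of_forall fun p => ?_
    obtain ⟨w, hw, h⟩ := hlaw p.2 (fun n => evs τ p (F n))
    refine ⟨w, hw, ?_⟩
    have h2 : (evs τ p).comp (FreeGroup.lift F) = FreeGroup.lift (fun n => evs τ p (F n)) := by
      ext n
      simp
    have h3 := DFunLike.congr_fun h2 w
    rw [MonoidHom.comp_apply, h] at h3
    exact h3
  rw [Ultrafilter.eventually_exists_mem_iff hS] at h1
  obtain ⟨w, hw, h⟩ := h1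
  refine ⟨w, hw, ?_⟩
  have h2 : (QuotientGroup.mk' (Ns τ)).comp (FreeGroup.lift F) = FreeGroup.lift f := by
    ext n
    simp [hF]
  have h3 := DFunLike.congr_fun h2 w
  rw [MonoidHom.comp_apply] at h3
  rw [← h3]
  exact (QuotientGroup.eq_one_iff _).2 h

/-- Transfer of cycles from the limit group to the groups. -/
theorem transfer_sS {m₁ m₂ : ℕ} (h : TC (sS τ) m₁ m₂) : ∃ (D : ℕ) (x : ℕ → ℕ),
    TC (fun β i => τ D β (x i)) m₁ m₂ := by
  obtain ⟨g', β, a, b, ⟨h1, h2, h3, h4⟩, h5⟩ := h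
  have hg : ∀ i, ∃ g : FreeGroup (Bool × ℕ), (g : FreeGroup (Bool × ℕ) ⧸ Ns τ) = g' i := fun i =>
    QuotientGroup.mk_surjective _
  choose g hg using hg
  set N := m₁ + m₂ with hN
  have key : ∀ i n, ((g i * FreeGroup.of (β i, n) : FreeGroup (Bool × ℕ)) :
      FreeGroup (Bool × ℕ) ⧸ Ns τ) = g' i * sS τ (β i) n := by
    intro i n
    rw [QuotientGroup.mk_mul, hg]
    rfl
  have e1 : ∀ᶠ p in (Om : Filter ((ℕ → ℕ) × ℕ)), ∀ i ∈ Set.Iio N,
      evs τ p (g i) * τ p.2 (β i) (p.1 (a i)) =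
        evs τ p (g (i + 1)) * τ p.2 (β i) (p.1 (b i)) := by
    rw [Filter.eventually_all_finite (Set.finite_Iio N)]
    intro i hi
    have h6 : ((g i * FreeGroup.of (β i, a i) : FreeGroup (Bool × ℕ)) :
        FreeGroup (Bool × ℕ) ⧸ Ns τ) =
        ((g (i + 1) * FreeGroup.of (β i, b i) : FreeGroup (Bool × ℕ))) := by
      rw [key, QuotientGroup.mk_mul, hg]
      exact h1 i hi
    filter_upwards [evs_eq_of_mk τ h6] with p hp
    rw [map_mul, map_mul, evs_of, evs_of] at hp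
    exact hp
  have e2 := evs_eq_of_mk τ (show ((g N : FreeGroup (Bool × ℕ)) :
    FreeGroup (Bool × ℕ) ⧸ Ns τ) = g 0 by rw [hg, hg, h2])
  have e3 : ∀ᶠ p in (Om : Filter ((ℕ → ℕ) × ℕ)), ∀ i ∈ Set.Iio N, ∀ j ∈ Set.Iio N,
      evs τ p (g i) = evs τ p (g j) → i = j := by
    rw [Filter.eventually_all_finite (Set.finite_Iio N)]
    intro i hi
    rw [Filter.eventually_all_finite (Set.finite_Iio N)]
    intro j hj
    by_cases hij : i = j
    · exact Eventually.of_forall fun p _ => hij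
    · have : ((g i : FreeGroup (Bool × ℕ)) : FreeGroup (Bool × ℕ) ⧸ Ns τ) ≠ g j := by
        rw [hg, hg]
        exact fun e => hij (h3 i hi j hj e)
      filter_upwards [evs_ne_of_mk τ this] with p hp e
      exact absurd e hp
  have e4 : ∀ᶠ p in (Om : Filter ((ℕ → ℕ) × ℕ)), ∀ i ∈ Set.Iio N, ∀ j ∈ Set.Iio N,
      β i = β j → evs τ p (g i) * τ p.2 (β i) (p.1 (a i)) =
        evs τ p (g j) * τ p.2 (β j) (p.1 (a j)) → i = j := by
    rw [Filter.eventually_all_finite (Set.finite_Iio N)]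
    intro i hi
    rw [Filter.eventually_all_finite (Set.finite_Iio N)]
    intro j hj
    by_cases hij : i = j
    · exact Eventually.of_forall fun p _ _ => hij
    · by_cases hβ : β i = β j
      · have : ((g i * FreeGroup.of (β i, a i) : FreeGroup (Bool × ℕ)) :
            FreeGroup (Bool × ℕ) ⧸ Ns τ) ≠
            ((g j * FreeGroup.of (β j, a j) : FreeGroup (Bool × ℕ))) := by
          rw [key, key]
          exact fun e => hij (h4 i hi j hj hβ e)
        filter_upwards [evs_ne_of_mk τ this] with p hp _ e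
        rw [map_mul, map_mul, evs_of, evs_of] at hp
        exact absurd e hp
      · exact Eventually.of_forall fun p h => absurd h hβ
  obtain ⟨p, hp1, hp2, hp3, hp4⟩ := (e1.and (e2.and (e3.and e4))).exists
  exact ⟨p.2, p.1, fun i => evs τ p (g i), β, a, b, ⟨hp1, hp2, hp3, hp4⟩, h5⟩

end

theorem limit_short.{u} {Γ : ℕ → Type u} [∀ D, Group (Γ D)] (τ : ∀ D, Bool → ℕ → Γ D)
    (hτ : ∀ D β, ∀ i < D, ∀ j < D, τ D β i = τ D β j → i = j) (S : Set (FreeGroup ℕ))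
    (hS : S.Finite) (hlaw : ∀ (D : ℕ) (f : ℕ → Γ D), ∃ w ∈ S, FreeGroup.lift f w = 1) :
    ∃ (Q : Type) (_ : Group Q) (s : Bool → ℕ → Q), (∀ β, Homog (s β)) ∧ (∀ β, s β 0 ≠ s β 1) ∧
      (∀ f : ℕ → Q, ∃ w ∈ S, FreeGroup.lift f w = 1) ∧
      ∀ m₁ m₂, TC s m₁ m₂ → ∃ (D : ℕ) (x : ℕ → ℕ), TC (fun β i => τ D β (x i)) m₁ m₂ :=
  ⟨FreeGroup (Bool × ℕ) ⧸ Ns τ, inferInstance, sS τ, homog_sS τ, sS_ne τ hτ,
    words_sS τ S hS hlaw, fun _ _ h => transfer_sS τ h⟩

end Pool.Agent.helper20.LL
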