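import Pool.Agent.helper20.LL.Defs

/-!
# LL-Mixed: a shortest essential list of moves is a cycle with both types

Proved by helper59.

Call a list `l` essential if `Val s l ≠ 1` and `pr G (Val s l) = 1`.  Take an essential list `l` of the smallest length `N` (`Nat.find`); `N ≤` the length of the given one.
Put `g i = pr G (Val s (l.take i))`, and for `i < N` let `(β i, a i, b i)` be the `i`-th entry of `l` (`l.getD i (false, 0, 0)`).
Then `g 0 = 1 = g N`, `g (i + 1) = g i * (s (β i) (a i) * (s (β i) (b i))⁻¹)` (`Val_append`, `pr_of`), which is the condition `step`.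

`inj`: if `g i = g j`, `i < j < N`, then write `l = A ++ B ++ C`, `A = l.take i`, `A ++ B = l.take j`.  `pr (Val B) = 1` and so `pr (Val (A ++ C)) = 1` (`pr (Val l) = 1`).
Both `B` and `A ++ C` are shorter than `l` (`0 < j - i < N`), so by minimality `Val B = 1` and `Val (A ++ C) = 1`, so `Val l = Val A * Val B * Val C = 1`, a contradiction.

`injq`: let `β i = β j = γ`, `g i * s γ (a i) = g j * s γ (a j)`, `i < j < N`.  Write `l = A ++ (γ, a i, b i) :: (B ++ (γ, a j, b j) :: C)`.
`B' = (γ, a j, b i) :: B` has `pr (Val B') = s γ (a j) (s γ (b i))⁻¹ (g (i + 1))⁻¹ g j = 1` (because `g (i + 1) = g i s γ (a i) (s γ (b i))⁻¹ = g j s γ (a j) (s γ (b i))⁻¹`).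
`A' = A ++ (γ, a i, b j) :: C` has `pr (Val A') = g i s γ (a i) (s γ (b j))⁻¹ (g (j + 1))⁻¹ = 1` (as `g (j + 1) = g j s γ (a j) (s γ (b j))⁻¹` and `pr (Val C) = (g (j + 1))⁻¹`).
Both are shorter than `l`, so `Val B' = 1`, `Val A' = 1`; write `[x y]` for `of (i := γ) (s γ x * (s γ y)⁻¹)`; `Val B = [b i, a j]` (inverse of `[a j, b i]`) and
`Val l = Val A [a i, b i] [b i, a j] [a j, b j] Val C = Val A [a i, b j] Val C = Val A' = 1` (`map_mul` of the homomorphism `of`), a contradiction.

Both types occur: if all `β i` are equal to `γ` then `Val l = of (i := γ) (pr G (Val l)) = of 1 = 1` (induction on `l` for lists with all types `γ`), a contradiction.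
-/

set_option autoImplicit false

namespace Pool.Agent.helper20.LL

open Pool.Agent.Helper20.EC

/-- If `A ++ B ++ C` is essential and `B` has the value `1` in `G` then `B` or `A ++ C` is essential. -/
private theorem Mixed_cut {G : Type*} [Group G] {s : Bool → ℕ → G} {N : ℕ}
    (hmin : ∀ l' : List (Bool × ℕ × ℕ), l'.length < N → pr G (Val s l') = 1 → Val s l' = 1)
    {A B C : List (Bool × ℕ × ℕ)} (hB : B.length < N) (hAC : (A ++ C).length < N)
    (h2 : pr G (Val s (A ++ (B ++ C))) = 1) (hpB : pr G (Val s B) = 1) :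
    Val s (A ++ (B ++ C)) = 1 := by
  have h3 := hmin B hB hpB
  rw [Val_append, Val_append, map_mul, map_mul, hpB, one_mul] at h2
  have h4 := hmin (A ++ C) hAC (by rw [Val_append, map_mul]; exact h2)
  rw [Val_append] at h4
  rw [Val_append, Val_append, h3, one_mul]
  exact h4

/-- Reconnecting at two moves of the same type through the same vertex. -/
private theorem Mixed_reconnect {G : Type*} [Group G] {s : Bool → ℕ → G} {N : ℕ}
    (hmin : ∀ l' : List (Bool × ℕ × ℕ), l'.length < N → pr G (Val s l') = 1 → Val s l' = 1)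
    {A B C : List (Bool × ℕ × ℕ)} {γ : Bool} {a b a' b' : ℕ}
    (hN : (A ++ (γ, a, b) :: (B ++ (γ, a', b') :: C)).length = N)
    (h2 : pr G (Val s (A ++ (γ, a, b) :: (B ++ (γ, a', b') :: C))) = 1)
    (hq : pr G (Val s A) * s γ a = pr G (Val s (A ++ (γ, a, b) :: B)) * s γ a') :
    Val s (A ++ (γ, a, b) :: (B ++ (γ, a', b') :: C)) = 1 := by
  simp only [List.length_append, List.length_cons] at hN
  have hpB : pr G (Val s B) = s γ b * (s γ a')⁻¹ := by
    rw [Val_append, Val_cons, map_mul, map_mul, pr_of, mul_assoc] at hq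
    have hq1 := mul_left_cancel hq
    dsimp only at hq1
    rw [mul_assoc, mul_assoc] at hq1
    have hq2 : s γ a * 1 = s γ a * ((s γ b)⁻¹ * (pr G (Val s B) * s γ a')) := by
      rw [mul_one]
      exact hq1
    have hq3 := mul_left_cancel hq2
    rw [eq_mul_inv_iff_mul_eq]
    rw [eq_comm, inv_mul_eq_one] at hq3
    exact hq3.symm
  have h3 : Val s ((γ, a', b) :: B) = 1 := by
    apply hmin
    · rw [List.length_cons]
      omega
    · rw [Val_cons, map_mul, pr_of, hpB]
      dsimp only
      group
  have h4 : Val s (A ++ (γ, a, b') :: C) = 1 := by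
    apply hmin
    · rw [List.length_append, List.length_cons]
      omega
    · rw [Val_append, Val_cons, Val_append, Val_cons] at h2
      simp only [map_mul, pr_of, hpB] at h2
      rw [Val_append, Val_cons]
      simp only [map_mul, pr_of]
      rw [← h2]
      group
  rw [Val_cons] at h3
  dsimp only at h3
  have h5 : Val s B = Monoid.CoprodI.of (M := fun _ : Bool => G) (i := γ)
      (s γ b * (s γ a')⁻¹) := by
    have h6 := eq_inv_of_mul_eq_one_right h3
    rw [h6, ← map_inv, mul_inv_rev, inv_inv]
  rw [Val_append, Val_cons, Val_append, Val_cons, h5]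
  dsimp only
  rw [← mul_assoc (Monoid.CoprodI.of (M := fun _ : Bool => G) (i := γ) (s γ b * (s γ a')⁻¹)),
    ← map_mul, ← mul_assoc (Monoid.CoprodI.of (M := fun _ : Bool => G) (i := γ) _), ← map_mul]
  rw [Val_append, Val_cons] at h4
  dsimp only at h4
  rw [show s γ a * (s γ b)⁻¹ * (s γ b * (s γ a')⁻¹ * (s γ a' * (s γ b')⁻¹)) =
    s γ a * (s γ b')⁻¹ by group]
  exact h4

/-- A list all of whose types are `γ` has the value `of (pr (Val l))`. -/
private theorem Mixed_mono {G : Type*} [Group G] {s : Bool → ℕ → G} (γ : Bool) :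
    ∀ l : List (Bool × ℕ × ℕ), (∀ x ∈ l, x.1 = γ) →
      Val s l = Monoid.CoprodI.of (M := fun _ : Bool => G) (i := γ) (pr G (Val s l)) := by
  intro l
  induction l with
  | nil =>
    intro _
    rw [Val_nil, map_one, map_one]
  | cons x l ih =>
    intro h
    obtain ⟨β, a, b⟩ := x
    have hx : β = γ := h (β, a, b) (List.mem_cons_self)
    subst hx
    have h2 := ih (fun y hy => h y (List.mem_cons_of_mem _ hy))
    have h3 : pr G (Val s ((β, a, b) :: l)) = s β a * (s β b)⁻¹ * pr G (Val s l) := by
      rw [Val_cons, map_mul, pr_of]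
    rw [h3, Val_cons]
    exact (congrArg (Monoid.CoprodI.of (M := fun _ : Bool => G) (i := β)
      (s β a * (s β b)⁻¹) * ·) h2).trans (map_mul _ _ _).symm

private theorem Mixed_bool : ∀ a b : Bool, a ≠ b → a = !b := by decide

/-- The decomposition of a list at two places. -/
private theorem Mixed_split {α : Type*} (d : α) (l : List α) {i : ℕ} (hi : i < l.length) :
    l = l.take i ++ l.getD i d :: l.drop (i + 1) := by
  rw [List.getD_eq_getElem l d hi, ← List.drop_eq_getElem_cons hi, List.take_append_drop]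

private theorem Mixed_split2 {α : Type*} (d : α) (l : List α) {i j : ℕ} (hij : i < j)
    (hj : j < l.length) : ∃ B C, l = l.take i ++ l.getD i d :: (B ++ l.getD j d :: C) ∧
      l.take j = l.take i ++ l.getD i d :: B := by
  have h1 := Mixed_split d l hj
  have h0 : i < (l.take j).length := by
    rw [List.length_take]
    omega
  have h2 := Mixed_split d (l.take j) h0
  have h3 : (l.take j).getD i d = l.getD i d := by
    rw [List.getD_eq_getElem _ d h0, List.getD_eq_getElem _ d (by omega), List.getElem_take]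
  rw [List.take_take, min_eq_left (by omega), h3] at h2
  refine ⟨(l.take j).drop (i + 1), l.drop (j + 1), ?_, h2⟩
  have h4 : l = (l.take i ++ l.getD i d :: (l.take j).drop (i + 1)) ++
      l.getD j d :: l.drop (j + 1) := by
    rw [← h2]
    exact h1
  rw [List.append_assoc, List.cons_append] at h4
  exact h4

theorem mixed {G : Type*} [Group G] {s : Bool → ℕ → G} (l0 : List (Bool × ℕ × ℕ))
    (h1 : Val s l0 ≠ 1) (h2 : pr G (Val s l0) = 1) :
    ∃ (N : ℕ) (g : ℕ → G) (β : ℕ → Bool) (a b : ℕ → ℕ), N ≤ l0.length ∧ TriC s N g β a b ∧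
      ∀ γ, ∃ i < N, β i = γ := by
  classical
  have hex : ∃ n, ∃ l : List (Bool × ℕ × ℕ), l.length = n ∧ Val s l ≠ 1 ∧ pr G (Val s l) = 1 :=
    ⟨_, l0, rfl, h1, h2⟩
  obtain ⟨N, hNdef⟩ : ∃ N, N = Nat.find hex := ⟨_, rfl⟩
  have hNle : N ≤ l0.length := by
    rw [hNdef]
    exact Nat.find_min' hex ⟨l0, rfl, h1, h2⟩
  obtain ⟨l, hlN, hl1, hl2⟩ : ∃ l : List (Bool × ℕ × ℕ), l.length = N ∧ Val s l ≠ 1 ∧
      pr G (Val s l) = 1 := by
    rw [hNdef]
    exact Nat.find_spec hex
  have hmin : ∀ l' : List (Bool × ℕ × ℕ), l'.length < N → pr G (Val s l') = 1 →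
      Val s l' = 1 := by
    intro l' hl' hp
    by_contra hne
    rw [hNdef] at hl'
    exact Nat.find_min hex hl' ⟨l', rfl, hne, hp⟩
  have hlt : ∀ i j, i < j → j < N → ∃ B C, l = l.take i ++ l.getD i (false, 0, 0) ::
      (B ++ l.getD j (false, 0, 0) :: C) ∧ l.take j = l.take i ++ l.getD i (false, 0, 0) :: B :=
    fun i j hij hj => Mixed_split2 (false, 0, 0) l hij (by omega)
  have hinj : ∀ i j, i < j → j < N → pr G (Val s (l.take i)) ≠ pr G (Val s (l.take j)) := by
    intro i j hij hj he
    obtain ⟨B, C, e1, e2⟩ := hlt i j hij hj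
    generalize l.getD i (false, 0, 0) = x at e1 e2
    generalize l.getD j (false, 0, 0) = y at e1
    generalize l.take i = A at e1 e2 he
    rw [e2, Val_append, map_mul] at he
    have hp : pr G (Val s (x :: B)) = 1 := by
      have h5 : pr G (Val s A) * 1 = pr G (Val s A) * pr G (Val s (x :: B)) := by
        rw [mul_one]
        exact he
      exact (mul_left_cancel h5).symm
    have e3 : l = A ++ ((x :: B) ++ (y :: C)) := by
      rw [List.cons_append]
      exact e1
    have h6 : A.length + ((B.length + 1) + (C.length + 1)) = N := by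
      rw [← hlN, e3]
      simp only [List.length_append, List.length_cons]
    apply hl1
    rw [e3]
    apply Mixed_cut hmin _ _ _ hp
    · rw [List.length_cons]
      omega
    · rw [List.length_append, List.length_cons]
      omega
    · rw [← e3]
      exact hl2
  have hinjq : ∀ i j, i < j → j < N →
      (l.getD i (false, 0, 0)).1 = (l.getD j (false, 0, 0)).1 →
      pr G (Val s (l.take i)) * s (l.getD i (false, 0, 0)).1 (l.getD i (false, 0, 0)).2.1 ≠
      pr G (Val s (l.take j)) * s (l.getD j (false, 0, 0)).1 (l.getD j (false, 0, 0)).2.1 := by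
    intro i j hij hj hβ he
    obtain ⟨B, C, e1, e2⟩ := hlt i j hij hj
    rw [e2] at he
    generalize l.getD i (false, 0, 0) = x at e1 hβ he
    generalize l.getD j (false, 0, 0) = y at e1 hβ he
    generalize l.take i = A at e1 he
    obtain ⟨γ, a, b⟩ := x
    obtain ⟨γ', a', b'⟩ := y
    dsimp only at hβ
    subst hβ
    apply hl1
    rw [e1]
    exact Mixed_reconnect hmin (by rw [← e1]; exact hlN) (by rw [← e1]; exact hl2) he
  refine ⟨N, fun i => pr G (Val s (l.take i)), fun i => (l.getD i (false, 0, 0)).1,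
    fun i => (l.getD i (false, 0, 0)).2.1, fun i => (l.getD i (false, 0, 0)).2.2, hNle,
    ⟨?_, ?_, ?_, ?_⟩, ?_⟩
  · intro i hi
    have h3 : l.take (i + 1) = l.take i ++ [l.getD i (false, 0, 0)] := by
      rw [List.getD_eq_getElem l _ (by omega), List.take_append_getElem]
    rw [h3, Val_append, map_mul, Val_cons, Val_nil, mul_one, pr_of]
    group
  · rw [List.take_of_length_le (by omega), List.take_zero, Val_nil, map_one]
    exact hl2
  · intro i hi j hj he
    rcases lt_trichotomy i j with h | h | h
    · exact absurd he (hinj i j h hj)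
    · exact h
    · exact absurd he.symm (hinj j i h hi)
  · intro i hi j hj hβ he
    rcases lt_trichotomy i j with h | h | h
    · exact absurd he (hinjq i j h hj hβ)
    · exact h
    · exact absurd he.symm (hinjq j i h hi hβ.symm)
  · intro γ
    by_contra hno
    have h3 : ∀ x ∈ l, x.1 = !γ := by
      intro x hx
      obtain ⟨i, hi, hxi⟩ := List.mem_iff_getElem.1 hx
      refine Mixed_bool x.1 γ (fun he => hno ⟨i, by omega, ?_⟩)
      show (l.getD i (false, 0, 0)).1 = γ
      rw [List.getD_eq_getElem l _ hi, hxi]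
      exact he
    have h5 := Mixed_mono (s := s) (!γ) l h3
    rw [hl2, map_one] at h5
    exact hl1 h5

end Pool.Agent.helper20.LL
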