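import Pool.Agent.helper20.LL.Defs
import Pool.Agent.helper20.AL.Path

/-!
# LL-OneArc: one more arc of prescribed length from `q` to `p` in a core

Everything is as in `arcZ` of `Pool.Agent.helper20.AL.Path` (which is to be used).  `Q` says that the start `q` is a vertex of `Z` which is in `Fz`, or a vertex of `W` whose branch is in `Fb`; its parity
is such that the length is right.

PROOF of `one_arc`.  Case 1: `q ∈ Z`, `q ∈ Fz`, `a + 1 ≡ h` modulo `2`, i.e. `a = h + 2 n + 1` with `2 n = a - h - 1` (`a ≥ h + 2`).  `arcZ` with this `n` (`n ≤ a`) gives `L` of length `h + 2 n`; `I = L`.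
Case 2: `q ∈ W`, `par^[h - 1] q ∈ Fb`, `a ≡ h`, `a = h + 2 + 2 n`.  Take `z' ∈ Z` adjacent to `q` and not in `Fz` (`hC.wz`), and `arcZ` for `z'`, `n`, `Fb`, `insert z' Fz`
and `Fc' = Fc.image (fun f => (φ q z')⁻¹ * f)`.  `I = z' :: L`; `hol φ q (I ++ [p]) = φ q z' * hol φ z' (L ++ [p])` by definition, which is not in `Fc`.  `I` is `Nodup` because
`z'` is in `insert z' Fz` and the vertices of `L` are `Free` for this set (level `j + 1` and `∉ insert z' Fz`, or a level `≤ j`), and `lev z' = j + 1`.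
`z'` is `Free lev par (j - h) j Fb Fz` (second case: level `j + 1`, not in `Fz`), and `Used` for every `Fz' ⊇ insert z' Fz`.  `Free` for `insert z' Fz` implies `Free` for `Fz`.
The new sets have at most `n + 1` and `n + 1` elements more.
`hM`: `arcZ` needs `Fb.card + (Fz.card + 1) + Fc.card + 3 n + 6 ≤ M` and `3 n ≤ 3 a`.

`free_not_used`: if `x` is `Free` for `Fb`, `Fz` then it is not `Used` for smaller sets `Fb₀ ⊆ Fb`, `Fz₀ ⊆ Fz` (unfold, `lev x ≤ j` against `lev x = j + 1`).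
`start_free`: the start `q` (see `Start`) is not `Free`: `q ∈ Z`: `lev q = j + 1` and `q ∈ Fz`; `q ∈ W`: `lev q = j`, `brx lev par (j - h) q = par^[j - (j - h) - 1] q = par^[h - 1] q ∈ Fb` (`h ≤ j`).
`p_free`: `lev p = j - h` if `W` is nonempty (levels drop by one along `par`, compare `tw_brx`, or use `hT.lv`), so `p` is not `Free`: neither `j - h < lev p` nor `lev p = j + 1`.
-/

set_option autoImplicit false

namespace Pool.Agent.helper20.LL

open Pool.Agent.helper20.AL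

variable {α V : Type*} [Group V] {B : SimpleGraph α} {φ : α → α → V} {lev : α → ℕ} {par : α → α}

/-- `q` is a used vertex of `Z` or of `W` and a walk from `q` to `p` can have the length `a`. -/
def Start (par : α → α) (h a : ℕ) (W Z Fb Fz : Finset α) (q : α) : Prop :=
  (q ∈ Z ∧ q ∈ Fz ∧ (a + h) % 2 = 1) ∨ (q ∈ W ∧ par^[h - 1] q ∈ Fb ∧ (a + h) % 2 = 0)

private theorem OneArc_lev (hT : TreeOn B φ lev par) : ∀ (i : ℕ) (w : α), i ≤ lev w →
    lev (par^[i] w) + i = lev w := by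
  intro i
  induction i with
  | zero =>
    intro w _
    rfl
  | succ i ih =>
    intro w hw
    have h1 := hT.lv w (by omega)
    have h2 := ih (par w) (by omega)
    rw [Function.iterate_succ_apply]
    omega

theorem one_arc [DecidableEq α] (hT : TreeOn B φ lev par) {h j : ℕ} {p : α} {W Z : Finset α} {M : ℕ}
    (h1 : 1 ≤ h) (hj : h ≤ j) (hW : ∀ w ∈ W, lev w = j ∧ par^[h] w = p)
    (hZ : ∀ z ∈ Z, lev z = j + 1) (hC : Core B.Adj (par^[h - 1]) φ W Z M)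
    {a : ℕ} (ha : h + 2 ≤ a) (Fb Fz : Finset α) (Fc : Finset V) (q : α)
    (hq : Start par h a W Z Fb Fz q)
    (hM : Fb.card + Fz.card + Fc.card + 3 * a + 10 ≤ M) :
    ∃ (I : List α) (Fb' Fz' : Finset α), I.length + 1 = a ∧
      (q :: (I ++ [p])).IsChain B.Adj ∧ I.Nodup ∧ hol φ q (I ++ [p]) ∉ Fc ∧
      Fb ⊆ Fb' ∧ Fz ⊆ Fz' ∧ Fb'.card ≤ Fb.card + a ∧ Fz'.card ≤ Fz.card + a ∧
      ∀ x ∈ I, Free lev par (j - h) j Fb Fz x ∧ Used lev par (j - h) j Fb' Fz' x := by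
  rcases hq with ⟨hqZ, hqF, hpar⟩ | ⟨hqW, hqF, hpar⟩
  · obtain ⟨n, hn⟩ : ∃ n, a = h + 2 * n + 1 := ⟨(a - h - 1) / 2, by omega⟩
    obtain ⟨L, Fb', Fz', hL1, hL2, hL3, hL4, hL5, hL6, hL7, hL8, hL9⟩ :=
      arcZ hT h1 hj hW hZ hC n Fb Fz Fc q hqZ hqF (by omega)
    exact ⟨L, Fb', Fz', by omega, hL2, hL3, hL4, hL5, hL6, by omega, by omega, hL9⟩
  · obtain ⟨n, hn⟩ : ∃ n, a = h + 2 + 2 * n := ⟨(a - h - 2) / 2, by omega⟩
    obtain ⟨z', hz'Z, hz'A, hz'F⟩ := hC.wz q hqW Fz (by omega)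
    have hc1 : (insert z' Fz).card ≤ Fz.card + 1 := Finset.card_insert_le _ _
    classical
    have hc2 : (Fc.image (fun f => (φ q z')⁻¹ * f)).card ≤ Fc.card := Finset.card_image_le
    obtain ⟨L, Fb', Fz', hL1, hL2, hL3, hL4, hL5, hL6, hL7, hL8, hL9⟩ :=
      arcZ hT h1 hj hW hZ hC n Fb (insert z' Fz) (Fc.image (fun f => (φ q z')⁻¹ * f)) z' hz'Z
        (Finset.mem_insert_self _ _) (by omega)
    refine ⟨z' :: L, Fb', Fz', ?_, ?_, ?_, ?_, hL5, ?_, by omega, by omega, ?_⟩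
    · rw [List.length_cons]
      omega
    · rw [List.cons_append, List.isChain_cons_cons]
      exact ⟨hz'A, hL2⟩
    · rw [List.nodup_cons]
      refine ⟨fun hx => ?_, hL3⟩
      rcases (hL9 z' hx).1 with ⟨_, h3, _⟩ | ⟨_, h3⟩
      · have := hZ z' hz'Z
        omega
      · exact h3 (Finset.mem_insert_self _ _)
    · intro hx
      apply hL4
      rw [Finset.mem_image]
      refine ⟨_, hx, ?_⟩
      have h2 : hol φ q (z' :: L ++ [p]) = φ q z' * hol φ z' (L ++ [p]) := rfl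
      rw [h2, inv_mul_cancel_left]
    · exact (Finset.subset_insert _ _).trans hL6
    · intro x hx
      rcases List.mem_cons.1 hx with hx | hx
      · rw [hx]
        exact ⟨Or.inr ⟨hZ z' hz'Z, hz'F⟩,
          Or.inr ⟨hZ z' hz'Z, hL6 (Finset.mem_insert_self _ _)⟩⟩
      · obtain ⟨h2, h3⟩ := hL9 x hx
        refine ⟨?_, h3⟩
        rcases h2 with h2 | ⟨h4, h5⟩
        · exact Or.inl h2
        · exact Or.inr ⟨h4, fun h6 => h5 (Finset.mem_insert_of_mem h6)⟩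

theorem free_not_used {m j : ℕ} {Fb Fz Fb₀ Fz₀ : Finset α} (hb : Fb₀ ⊆ Fb) (hz : Fz₀ ⊆ Fz) {x : α}
    (hx : Free lev par m j Fb Fz x) : ¬ Used lev par m j Fb₀ Fz₀ x := by
  rcases hx with ⟨_, h2, h3⟩ | ⟨h2, h3⟩
  · rintro (⟨_, _, h6⟩ | ⟨h5, _⟩)
    · exact h3 (hb h6)
    · omega
  · rintro (⟨_, h5, _⟩ | ⟨_, h5⟩)
    · omega
    · exact h3 (hz h5)

theorem start_free {h j : ℕ} {p : α} {W Z Fb Fz : Finset α} {a : ℕ}
    (h1 : 1 ≤ h) (hj : h ≤ j) (hW : ∀ w ∈ W, lev w = j ∧ par^[h] w = p)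
    (hZ : ∀ z ∈ Z, lev z = j + 1) {q : α} (hq : Start par h a W Z Fb Fz q) :
    ¬ Free lev par (j - h) j Fb Fz q := by
  rcases hq with ⟨hqZ, hqF, _⟩ | ⟨hqW, hqF, _⟩
  · have := hZ q hqZ
    rintro (⟨_, h5, _⟩ | ⟨_, h5⟩)
    · omega
    · exact h5 hqF
  · have h2 := (hW q hqW).1
    rintro (⟨_, _, h5⟩ | ⟨h5, _⟩)
    · apply h5
      unfold brx
      rw [h2, show j - (j - h) - 1 = h - 1 by omega]
      exact hqF
    · omega

theorem p_free (hT : TreeOn B φ lev par) {h j : ℕ} {p : α} {W Fb Fz : Finset α}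
    (hj : h ≤ j) (hW : ∀ w ∈ W, lev w = j ∧ par^[h] w = p) (hne : W.Nonempty) :
    lev p = j - h ∧ ¬ Free lev par (j - h) j Fb Fz p := by
  obtain ⟨w, hw⟩ := hne
  obtain ⟨h2, h3⟩ := hW w hw
  have h4 := OneArc_lev hT h w (by omega)
  rw [h3, h2] at h4
  refine ⟨by omega, ?_⟩
  rintro (⟨h5, _, _⟩ | ⟨h5, _⟩)
  · omega
  · omega

end Pool.Agent.helper20.LL
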