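import Pool.Agent.helper20.EC.Law

/-! # LL-Short (helper20): groups in which every `M` elements satisfy a short nontrivial relation -/

set_option autoImplicit false

namespace Pool.Agent.helper20.LL

open Pool.Agent.Helper20.EC Filter

/-- Every `M` elements of `G` satisfy a nontrivial relation of length at most `L`. -/
def Short (M L : ℕ) (G : Type*) [Group G] : Prop :=
  ∀ x : Fin M → G, ∃ w : FreeGroup (Fin M), w ≠ 1 ∧ w.norm ≤ L ∧ FreeGroup.lift x w = 1

/-- The nontrivial words of length at most `L` in the first `M` letters. -/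
def Wd (M L : ℕ) : Set (FreeGroup ℕ) :=
  (fun w : FreeGroup (Fin M) => FreeGroup.map Fin.val w) '' {w | w ≠ 1 ∧ w.norm ≤ L}

theorem Wd_finite (M L : ℕ) : (Wd M L).Finite := by
  refine Set.Finite.image _ ?_
  refine Set.Finite.subset (s := {w : FreeGroup (Fin M) | w.norm ≤ L}) ?_ fun w hw => hw.2
  exact (List.finite_length_le (Fin M × Bool) L).preimage FreeGroup.toWord_injective.injOn

theorem Wd_ne {M L : ℕ} {w : FreeGroup ℕ} (hw : w ∈ Wd M L) : w ≠ 1 := by
  obtain ⟨w', ⟨h1, -⟩, rfl⟩ := hw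
  intro h
  exact h1 (FreeGroup.map_injective Fin.val_injective (by rw [map_one]; exact h))

theorem Wd_norm {M L : ℕ} {w : FreeGroup ℕ} (hw : w ∈ Wd M L) : w.norm ≤ L := by
  obtain ⟨w', ⟨-, h2⟩, rfl⟩ := hw
  have h3 : FreeGroup.map Fin.val w' =
      FreeGroup.mk (w'.toWord.map fun x => (Fin.val x.1, x.2)) := by
    conv_lhs => rw [← FreeGroup.mk_toWord (x := w')]
    rw [FreeGroup.map.mk]
  show (FreeGroup.map Fin.val w').norm ≤ L
  rw [h3]
  refine FreeGroup.norm_mk_le.trans ?_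
  rw [List.length_map]
  exact h2

theorem Short.exists_mem {M L : ℕ} {G : Type*} [Group G] (h : Short M L G) (f : ℕ → G) :
    ∃ w ∈ Wd M L, FreeGroup.lift f w = 1 := by
  obtain ⟨w, h1, h2, h3⟩ := h (fun i => f i)
  refine ⟨_, ⟨w, ⟨h1, h2⟩, rfl⟩, ?_⟩
  have h4 : (FreeGroup.lift f).comp (FreeGroup.map Fin.val) =
      FreeGroup.lift (fun i : Fin M => f i) := by
    ext i
    simp
  have h5 := DFunLike.congr_fun h4 w
  rw [MonoidHom.comp_apply, h3] at h5
  exact h5

/-- A law of length at most `L` in `M` letters. -/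
theorem short_of_law {M : ℕ} {G : Type*} [Group G] {w : FreeGroup (Fin M)} (hw : w ≠ 1)
    (hlaw : ∀ x : Fin M → G, FreeGroup.lift x w = 1) : Short M w.norm G :=
  fun x => ⟨w, hw, le_rfl, hlaw x⟩

/-- The relation in the form of a closed reduced word. -/
theorem word_closed {G : Type*} [Group G] {w : FreeGroup ℕ} (hw : w ≠ 1) (s : ℕ → G)
    (h : FreeGroup.lift (fun n => s (n + 1) * (s 0)⁻¹) w = 1) :
    ∃ l : List ℕ, l ≠ [] ∧ l.IsChain (· ≠ ·) ∧ l.length ≤ 2 * w.norm ∧
      run s l (1, false) = (1, false) := by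
  obtain ⟨l, h1, h2, h3, h4⟩ := exists_list hw
  refine ⟨l, h1, h2, h3, ?_⟩
  have h5 := run_hom (FreeGroup.lift s) FreeGroup.of l 1 false
  rw [h4, map_one] at h5
  simp only [FreeGroup.lift_apply_of] at h5
  rw [h5]
  have h6 : (FreeGroup.lift s).comp theta =
      FreeGroup.lift (fun n => s (n + 1) * (s 0)⁻¹) := by
    ext n
    simp [theta]
  have h7 := DFunLike.congr_fun h6 w
  rw [MonoidHom.comp_apply, h] at h7
  rw [h7]

/-- Cycles of all large even lengths in bi-Cayley graphs of groups with short relations. -/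
theorem group_short.{u} (M L k : ℕ) (hk : 2 * L ^ 2 ≤ k) :
    ∃ D : ℕ, ∀ (G : Type u) [Group G], Short M L G →
      ∀ T : Finset G, D ≤ T.card → ∃ s : ℕ → G, (∀ n, s n ∈ T) ∧ St s (2 * k) := by
  by_contra hcon
  push Not at hcon
  choose Γ hΓ hlaw T hT hno using fun D : ℕ => hcon (D + 1)
  have hen := fun D => @exists_enum (Γ D) D (T D) (hT D)
  choose τ hτ1 hτ2 using hen
  let _ : ∀ D, Group (Γ D) := hΓ
  obtain ⟨w, hwS, hev⟩ : ∃ w ∈ Wd M L, ∀ᶠ p in (Om : Filter ((ℕ → ℕ) × ℕ)),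
      FreeGroup.lift (fun n => evl τ p (FreeGroup.of (n + 1) * (FreeGroup.of 0)⁻¹)) w = 1 := by
    rw [← Ultrafilter.eventually_exists_mem_iff (Wd_finite M L)]
    exact Eventually.of_forall fun p => (hlaw p.2).exists_mem _
  obtain ⟨l, h1, h2, h3, h4⟩ := exists_list (Wd_ne hwS)
  have hmem : theta w ∈ Nn τ := by
    rw [mem_Nn]
    filter_upwards [hev] with p hp
    have e : (evl τ p).comp theta =
        FreeGroup.lift (fun n => evl τ p (FreeGroup.of (n + 1) * (FreeGroup.of 0)⁻¹)) := by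
      ext n
      simp [theta]
    have := DFunLike.congr_fun e w
    rw [MonoidHom.comp_apply] at this
    rw [this]
    exact hp
  have h5 : run (sQ τ) l (1, false) = (1, false) := by
    have := run_sQ τ l 1 false
    rw [QuotientGroup.mk_one, h4] at this
    rw [this, (QuotientGroup.eq_one_iff _).2 hmem]
  have hl : l.length ≤ 2 * L := h3.trans (Nat.mul_le_mul_left _ (Wd_norm hwS))
  have h6 := St_of_word (homog_sQ τ) (sQ_ne τ hτ2) l h1 h2 hl _ h5 k hk
  obtain ⟨D, x, hx⟩ := transfer τ h6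
  exact hno D (fun i => τ D (x i)) (fun n => hτ1 D _) hx

end Pool.Agent.helper20.LL
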