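import Pool.Agent.helper20.LL.Insert

/-!
# LL-TcAll: cycles with `m₁` and `m₂` vertices for all large `m₁`, `m₂`

PROOF.  `cnt N β false + cnt N β true = N`, both are at least `1` (`hmix`), so both are at most `N`.  First a cycle with `cnt … false = m₁` and the same `cnt … true`: take `i0` with `β i0 = false`, rotate
(`TriC.rot`), and insert (`TriC.insert`) a path with `k = m₁ - cnt N β false + 1 ≥ K₀` for the finite set `F` of all `g i`, `g i * s (β i) (a i)`, `i < N`
(`harc` for `γ = false`; rewrite `β (N - 1) = false`).  The new cycle has `N' = N + k - 1`, `cnt false = m₁`, `cnt true` unchanged.  Again with `true` (an index with `β i0 = true` exists because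
`cnt … true ≥ 1`; `Finset.card_pos`): `cnt true = m₂`, `cnt false = m₁`, the length is `m₁ + m₂` because it is the sum of both counts.
State a lemma for one type `γ` and use it twice: from a cycle with `1 ≤ cnt N β γ` and any `m` with `K₀ + cnt N β γ ≤ m` one gets a cycle of length `N + m - cnt N β γ` with
`cnt … γ = m` and the same count of the other type.
-/

set_option autoImplicit false

namespace Pool.Agent.helper20.LL

open Pool.Agent.Helper20.EC

private theorem TcAll_cnt_add (N : ℕ) (β : ℕ → Bool) : cnt N β false + cnt N β true = N := by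
  unfold cnt
  have h := Finset.card_filter_add_card_filter_not (s := Finset.range N) (fun i => β i = false)
  rw [Finset.card_range] at h
  have e : (Finset.range N).filter (fun i => β i = true)
      = (Finset.range N).filter (fun i => ¬ β i = false) := by
    apply Finset.filter_congr
    intro i _
    cases β i <;> simp
  rw [e]
  exact h

private theorem TcAll_pos_of {N : ℕ} {β : ℕ → Bool} {γ : Bool} (h : ∃ i < N, β i = γ) :
    1 ≤ cnt N β γ := by
  obtain ⟨i, hi, hb⟩ := h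
  unfold cnt
  exact Finset.card_pos.mpr ⟨i, by simp [hi, hb]⟩

private theorem TcAll_of_pos {N : ℕ} {β : ℕ → Bool} {γ : Bool} (h : 1 ≤ cnt N β γ) :
    ∃ i < N, β i = γ := by
  unfold cnt at h
  obtain ⟨i, hi⟩ := Finset.card_pos.mp h
  rw [Finset.mem_filter, Finset.mem_range] at hi
  exact ⟨i, hi.1, hi.2⟩

private theorem TcAll_one {G : Type*} [Group G] {s : Bool → ℕ → G} {N K₀ : ℕ} {g : ℕ → G}
    {β : ℕ → Bool} {a b : ℕ → ℕ} (h : TriC s N g β a b) (γ : Bool) (hγ : 1 ≤ cnt N β γ)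
    (harc : ∀ k, K₀ ≤ k → ∀ F : Set G, F.Finite → ∀ (x : G) (n : ℕ),
      Ar (s γ) (x, false) (x * s γ n, true) F (2 * k - 1))
    (m : ℕ) (hm : K₀ + cnt N β γ ≤ m) :
    ∃ (g' : ℕ → G) (β' : ℕ → Bool) (a' b' : ℕ → ℕ),
      TriC s (N + (m - cnt N β γ)) g' β' a' b' ∧
      cnt (N + (m - cnt N β γ)) β' γ = m ∧
      cnt (N + (m - cnt N β γ)) β' (!γ) = cnt N β (!γ) := by
  obtain ⟨i0, hi0, hb0⟩ := TcAll_of_pos hγ
  obtain ⟨g1, β1, a1, b1, h1, hb1, hc1⟩ := h.rot hi0
  have hN : 1 ≤ N := by omega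
  let F : Set G := (fun i => g1 i) '' (Set.Iio N) ∪ (fun i => g1 i * s (β1 i) (a1 i)) '' (Set.Iio N)
  have hF : F.Finite := ((Set.finite_Iio N).image _).union ((Set.finite_Iio N).image _)
  have hFg : ∀ i < N, g1 i ∈ F := fun i hi => Or.inl ⟨i, hi, rfl⟩
  have hFq : ∀ i < N, g1 i * s (β1 i) (a1 i) ∈ F := fun i hi => Or.inr ⟨i, hi, rfl⟩
  have hb2 : β1 (N - 1) = γ := hb1.trans hb0
  have hk : 1 ≤ m - cnt N β γ + 1 := by omega
  have hkK : K₀ ≤ m - cnt N β γ + 1 := by omega
  have harc' : Ar (s (β1 (N - 1))) (g1 (N - 1), false)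
      (g1 (N - 1) * s (β1 (N - 1)) (a1 (N - 1)), true) F (2 * (m - cnt N β γ + 1) - 1) := by
    rw [hb2]
    exact harc _ hkK F hF _ _
  obtain ⟨g2, β2, a2, b2, h2, hc2⟩ := h1.insert hN hFg hFq hk harc'
  have eN : N + (m - cnt N β γ + 1) - 1 = N + (m - cnt N β γ) := by omega
  rw [eN] at h2 hc2
  refine ⟨g2, β2, a2, b2, h2, ?_, ?_⟩
  · have := hc2 γ
    rw [hb2, if_pos rfl, hc1 γ] at this
    rw [this]
    omega
  · have := hc2 (!γ)
    rw [hb2, if_neg (by cases γ <;> simp), hc1 (!γ)] at this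
    rw [this]
    omega

theorem tc_all {G : Type*} [Group G] {s : Bool → ℕ → G} {N K₀ : ℕ} {g : ℕ → G} {β : ℕ → Bool}
    {a b : ℕ → ℕ} (h : TriC s N g β a b) (hmix : ∀ γ, ∃ i < N, β i = γ)
    (harc : ∀ γ k, K₀ ≤ k → ∀ F : Set G, F.Finite → ∀ (x : G) (n : ℕ),
      Ar (s γ) (x, false) (x * s γ n, true) F (2 * k - 1))
    (m₁ m₂ : ℕ) (h1 : K₀ + N ≤ m₁) (h2 : K₀ + N ≤ m₂) : TC s m₁ m₂ := by
  have hsum := TcAll_cnt_add N β
  have hf := TcAll_pos_of (hmix false)
  have ht := TcAll_pos_of (hmix true)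
  obtain ⟨g1, β1, a1, b1, hT1, hc1, hc1'⟩ := TcAll_one h false hf (harc false) m₁ (by omega)
  simp only [Bool.not_false] at hc1'
  obtain ⟨g2, β2, a2, b2, hT2, hc2, hc2'⟩ := TcAll_one hT1 true (by rw [hc1']; exact ht)
    (harc true) m₂ (by rw [hc1']; omega)
  simp only [Bool.not_true] at hc2'
  rw [hc1'] at hT2 hc2 hc2'
  have e : N + (m₁ - cnt N β false) + (m₂ - cnt N β true) = m₁ + m₂ := by omega
  rw [e] at hT2 hc2
  exact ⟨g2, β2, a2, b2, hT2, hc2⟩

end Pool.Agent.helper20.LL
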