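import Pool.Agent.helper20.LL.ArcAll
import Pool.Agent.helper20.LL.EssR
import Pool.Agent.helper20.LL.Mixed
import Pool.Agent.helper20.LL.TcAll
import Pool.Agent.helper20.LL.LimitS
import Pool.Agent.helper20.LL.Short

/-! # LL-Tri (helper20): two large sets in a group with short relations give cycles with `m₁` and `m₂` vertices -/

set_option autoImplicit false

namespace Pool.Agent.helper20.LL

open Pool.Agent.Helper20.EC

theorem tri_short.{u} (M L m₁ m₂ : ℕ) (hm₁ : 2 * L ^ 2 + 2 * L ≤ m₁) (hm₂ : 2 * L ^ 2 + 2 * L ≤ m₂) :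
    ∃ D : ℕ, ∀ (G : Type u) [Group G], Short M L G →
      ∀ T : Bool → Finset G, (∀ β, D ≤ (T β).card) →
        ∃ s : Bool → ℕ → G, (∀ β n, s β n ∈ T β) ∧ TC s m₁ m₂ := by
  by_contra hcon
  push Not at hcon
  choose Γ hΓ hlaw T hT hno using fun D : ℕ => hcon (D + 1)
  have hen := fun D β => @exists_enum (Γ D) D (T D β) (hT D β)
  choose τ hτ1 hτ2 using hen
  let _ : ∀ D, Group (Γ D) := hΓ
  obtain ⟨Q, hQ, s, hH, h01, hQlaw, htr⟩ := limit_short τ hτ2 (Wd M L) (Wd_finite M L)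
    (fun D f => (hlaw D).exists_mem f)
  obtain ⟨w, hwS, hw⟩ := hQlaw (fun n => pr Q (xv s n))
  obtain ⟨l, hl1, hl2, hl3⟩ := ess_rel w (Wd_ne hwS) s (fun β => homog_inj (hH β) (h01 β)) hw
  obtain ⟨N, g, β, a, b, hN, hC, hmix⟩ := mixed l hl2 hl3
  have hwL := Wd_norm hwS
  have harc : ∀ γ k, 2 * L ^ 2 ≤ k → ∀ F : Set Q, F.Finite → ∀ (x : Q) (n : ℕ),
      Ar (s γ) (x, false) (x * s γ n, true) F (2 * k - 1) := by
    intro γ k hk F hF x n
    obtain ⟨w', hwS', hw'⟩ := hQlaw (fun n => s γ (n + 1) * (s γ 0)⁻¹)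
    obtain ⟨l', h1, h2, h3, h4⟩ := word_closed (Wd_ne hwS') (s γ) hw'
    exact arc_all (hH γ) (h01 γ) l' h1 h2 (h3.trans (Nat.mul_le_mul_left _ (Wd_norm hwS'))) _ h4 k
      hk F hF x n
  have hTC := tc_all hC hmix harc m₁ m₂ (by omega) (by omega)
  obtain ⟨D, x, hx⟩ := htr m₁ m₂ hTC
  exact hno D (fun β i => τ D β (x i)) (fun β n => hτ1 D β _) hx

end Pool.Agent.helper20.LL
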