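import Pool.Agent.helper20.LL.CoreS
import Pool.Agent.helper20.EC.Graph
import Pool.Agent.helper20.AL.Upper

/-! # LL-UpperS (helper20): the upper bound for free actions of groups with short relations -/

set_option autoImplicit false

namespace Pool.Agent.helper20.LL

open Pool.Agent.helper20.AL Pool.Agent.Helper20.EC

theorem mult_short.{u, v} (M L k : ℕ) (hk : 2 * L ^ 2 ≤ k) :
    ∃ R : ℕ, ∀ (X : Type u) (Γ : SimpleGraph X) (A : Type v) [Group A] [MulAction A X],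
      Short M L A → (∀ (g : A) (u v : X), Γ.Adj u v → Γ.Adj (g • u) (g • v)) →
      (∀ (g : A) (u : X), g • u = u → g = 1) → ∀ (x y : X) (T : Finset A),
        (x = y ∨ ∀ a : A, a • x ≠ y) → (∀ a ∈ T, Γ.Adj x (a • y)) → R ≤ T.card →
        HasC Γ (2 * k) := by
  obtain ⟨D, hD⟩ := group_short.{v} M L k hk
  refine ⟨D, ?_⟩
  intro X Γ A _ _ hlaw hact hfree x y T hxy hT hcard
  obtain ⟨s, hs, hSt⟩ := hD A hlaw T hcard
  rcases hxy with rfl | hxy
  · exact contained_one hact hfree (fun n => hT _ (hs n)) hSt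
  · refine contained_two hact hfree (v := x) (r := y) ?_ (fun n => hT _ (hs n)) hSt
    intro g hg
    apply hxy g⁻¹
    rw [← hg, inv_smul_smul]

theorem upper_short.{u, v} (M L k : ℕ) (hk : 4 * (L ^ 2 + L + 2) ^ 2 ≤ k) : ∃ D : ℕ,
    ∀ (X : Type u) [Fintype X] (Γ : SimpleGraph X) (A : Type v) [Group A] [MulAction A X],
    Short M L A → (∀ (g : A) (u v : X), Γ.Adj u v → Γ.Adj (g • u) (g • v)) →
    (∀ (g : A) (u : X), g • u = u → g = 1) →
    ¬ (SimpleGraph.cycleGraph (2 * k)).IsContained Γ →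
    Γ.edgeSet.ncard ^ (k / (4 * (L ^ 2 + L + 2) ^ 2)) ≤
      D * Fintype.card X ^ (k / (4 * (L ^ 2 + L + 2) ^ 2)) *
        Nat.card (MulAction.orbitRel.Quotient A X) := by
  classical
  obtain ⟨C, hC⟩ : ∃ C, C = 4 * (L ^ 2 + L + 2) ^ 2 := ⟨_, rfl⟩
  rw [← hC] at hk ⊢
  have hCge : (2 * L ^ 2 + 2 * L + 2) ^ 2 + 2 * (2 * L ^ 2 + 2 * L + 1) + 2 * L ^ 2 ≤ C := by
    rw [hC]
    nlinarith [Nat.zero_le L, Nat.zero_le (L ^ 2)]
  obtain ⟨ℓ, hℓ⟩ : ∃ ℓ, ℓ = k / C := ⟨_, rfl⟩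
  rw [← hℓ]
  have hC1 : 1 ≤ C := by omega
  have hℓ1 : 1 ≤ ℓ := by
    rw [hℓ]
    exact (Nat.one_le_div_iff hC1).2 hk
  have hℓk : C * ℓ ≤ k := by
    rw [hℓ]
    exact Nat.mul_div_le k C
  have hℓk2 : ℓ ≤ k := by
    rw [hℓ]
    exact Nat.div_le_self _ _
  obtain ⟨M₀, hM₀⟩ := core_short.{u, v} M L k ℓ hℓ1
    (le_trans (Nat.mul_le_mul_right _ (by omega)) hℓk)
  obtain ⟨R, hR⟩ := mult_short.{u, v} M L k (by omega)
  obtain ⟨M', hM'⟩ : ∃ M', M' = M₀ + 2 * k + 4 := ⟨_, rfl⟩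
  obtain ⟨s, hs⟩ : ∃ s, s = 12 * sc M' (ℓ - 1) := ⟨_, rfl⟩
  refine ⟨R ^ ℓ * (1 + (2 * s) ^ ℓ), ?_⟩
  intro X _ Γ A _ _ hlaw hact hfree hno
  obtain ⟨α, hα, B, φ, anti, hcard, hcont, hcount⟩ := quot Γ hact hfree R (by
    intro x y T hxy hT
    by_contra hcon
    push Not at hcon
    exact hno (hR X Γ A hlaw hact hfree x y T hxy hT hcon.le))
  have hno' : ¬ HasC (Lift B φ) (2 * k) := fun h => hno (h.trans hcont)
  have hbase := base (ℓ := ℓ) hℓ1 (hM₀ M' (by omega) A hlaw) (by omega) hℓk2 B φ anti hno'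
  rw [← hs] at hbase
  rw [← hcard]
  set t := Fintype.card α with ht
  set n := Fintype.card X with hn
  set e := Γ.edgeSet.ncard with he
  set m := B.edgeSet.ncard with hm
  rcases Nat.eq_zero_or_pos t with ht0 | ht0
  · -- no orbits
    have hXe : IsEmpty X := by
      by_contra hne
      rw [not_isEmpty_iff] at hne
      have h1 : Nat.card (MulAction.orbitRel.Quotient A X) ≠ 0 := by
        have : Finite (MulAction.orbitRel.Quotient A X) := Quotient.finite _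
        have : Nonempty (MulAction.orbitRel.Quotient A X) :=
          hne.map (fun x => (Quotient.mk _ x : MulAction.orbitRel.Quotient A X))
        exact Nat.card_pos.ne'
      omega
    have h0 : e = 0 := by
      rw [he, Set.ncard_eq_zero (Set.toFinite _)]
      ext x
      induction x using Sym2.ind with
      | _ a b => exact (hXe.false a).elim
    rw [h0, zero_pow (by omega)]
    exact Nat.zero_le _
  have h1 : t ^ ℓ * e ^ ℓ ≤ t ^ ℓ * (R ^ ℓ * (1 + (2 * s) ^ ℓ) * n ^ ℓ * t) := by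
    have h2 : 2 ^ ℓ * (t ^ ℓ * e ^ ℓ) ≤
        2 ^ ℓ * (t ^ ℓ * (R ^ ℓ * (1 + (2 * s) ^ ℓ) * n ^ ℓ * t)) := by
      calc 2 ^ ℓ * (t ^ ℓ * e ^ ℓ) = (2 * t * e) ^ ℓ := by rw [mul_pow, mul_pow]; ring
        _ ≤ (R * n * (t + 2 * m)) ^ ℓ := Nat.pow_le_pow_left hcount _
        _ = R ^ ℓ * n ^ ℓ * (t + 2 * m) ^ ℓ := by rw [mul_pow, mul_pow]
        _ ≤ R ^ ℓ * n ^ ℓ * (2 ^ ℓ * (t ^ ℓ + (2 * m) ^ ℓ)) :=
          Nat.mul_le_mul_left _ (two_mul_pow _ _ _)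
        _ ≤ R ^ ℓ * n ^ ℓ * (2 ^ ℓ * (t ^ (ℓ + 1) + 2 ^ ℓ * (s ^ ℓ * t ^ (ℓ + 1)))) := by
          refine Nat.mul_le_mul_left _ (Nat.mul_le_mul_left _ (Nat.add_le_add ?_ ?_))
          · exact Nat.pow_le_pow_right ht0 (by omega)
          · rw [mul_pow]
            exact Nat.mul_le_mul_left _ hbase
        _ = 2 ^ ℓ * (t ^ ℓ * (R ^ ℓ * (1 + (2 * s) ^ ℓ) * n ^ ℓ * t)) := by
          rw [mul_pow 2 s, pow_succ]
          ring
    exact Nat.le_of_mul_le_mul_left h2 (by positivity)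
  exact Nat.le_of_mul_le_mul_left h1 (by positivity)

end Pool.Agent.helper20.LL
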